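import Pool.Agent.Lib.MP_a7b2aa_an.SBT.Stmts30

/-!
SBT, module EYB: basic facts about the averages `Ey` and the differences `d1`.
-/

set_option autoImplicit false

namespace Pool.Agent.SBT

open Finset Pool.Agent.SB3

theorem pre_iff33 {L : ℕ} (i : ℕ) (x y : Y L) :
    pre i x = pre i y ↔ ∀ j : Fin L, (j : ℕ) < i → x j = y j := by
  constructor
  · intro h j hj
    have h1 := congrFun h j
    simpa [pre, hj] using h1
  · intro h
    funext j
    by_cases hj : (j : ℕ) < i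
    · simp [pre, hj, h j hj]
    · simp [pre, hj]

theorem pre_mono33 {L : ℕ} {i j : ℕ} (hij : i ≤ j) {x y : Y L} (h : pre j x = pre j y) :
    pre i x = pre i y := by
  rw [pre_iff33] at h ⊢
  intro k hk
  exact h k (by omega)

theorem pre_top33 {L : ℕ} {i : ℕ} (hi : L ≤ i) {x y : Y L} (h : pre i x = pre i y) : x = y := by
  rw [pre_iff33] at h
  funext j
  exact h j (lt_of_lt_of_le j.2 hi)

theorem bit_of_pre33 {L : ℕ} {i j : ℕ} (hij : j < i) {x y : Y L} (h : pre i x = pre i y) :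
    bit x j = bit y j := by
  rw [pre_iff33] at h
  unfold bit
  by_cases hj : j < L
  · rw [dif_pos hj, dif_pos hj]
    exact h ⟨j, hj⟩ hij
  · rw [dif_neg hj, dif_neg hj]

theorem bit_upb33 {L : ℕ} {i : ℕ} (hi : i < L) (x : Y L) (v : Bool) : bit (upb x i v) i = v := by
  unfold bit upb
  rw [dif_pos hi]
  simp

theorem bit_upb_ne33 {L : ℕ} {i j : ℕ} (hij : j ≠ i) (x : Y L) (v : Bool) :
    bit (upb x i v) j = bit x j := by
  unfold bit upb
  by_cases hj : j < L
  · rw [dif_pos hj, dif_pos hj]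
    simp [hij]
  · rw [dif_neg hj, dif_neg hj]

theorem upb_bit33 {L : ℕ} (i : ℕ) (x : Y L) : upb x i (bit x i) = x := by
  funext j
  unfold upb bit
  by_cases hj : (j : ℕ) = i
  · subst hj
    simp
  · simp [hj]

theorem upb_upb33 {L : ℕ} (i : ℕ) (x : Y L) (v w : Bool) : upb (upb x i v) i w = upb x i w := by
  funext j
  unfold upb
  by_cases hj : (j : ℕ) = i
  · simp [hj]
  · simp [hj]

theorem pre_upb33 {L : ℕ} {i j : ℕ} (hij : i ≤ j) (x : Y L) (v : Bool) :
    pre i (upb x j v) = pre i x := by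
  rw [pre_iff33]
  intro k hk
  unfold upb
  rw [if_neg (by omega)]

/-- flip coordinate `i` -/
def fl33 {L : ℕ} (i : ℕ) (x : Y L) : Y L := upb x i (!(bit x i))

theorem bit_fl33 {L : ℕ} {i : ℕ} (hi : i < L) (x : Y L) : bit (fl33 i x) i = !(bit x i) :=
  bit_upb33 hi x _

theorem fl_fl33 {L : ℕ} {i : ℕ} (hi : i < L) (x : Y L) : fl33 i (fl33 i x) = x := by
  unfold fl33
  rw [bit_upb33 hi, upb_upb33, Bool.not_not, upb_bit33]

theorem pre_fl33 {L : ℕ} {i j : ℕ} (hij : i ≤ j) (x : Y L) : pre i (fl33 j x) = pre i x :=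
  pre_upb33 hij x _

/-- the flip as an equivalence -/
def flE33 {L : ℕ} (i : ℕ) (hi : i < L) : Y L ≃ Y L where
  toFun := fl33 i
  invFun := fl33 i
  left_inv := fl_fl33 hi
  right_inv := fl_fl33 hi

theorem sum_fl33 {L : ℕ} {i : ℕ} (hi : i < L) (F : Y L → ℝ) :
    ∑ x, F (fl33 i x) = ∑ x, F x :=
  (flE33 i hi).sum_comp F

theorem sgr_not33 (b : Bool) : sgr (!b) = -sgr b := by
  cases b <;> simp [sgr]

theorem sgr_sq33 (b : Bool) : sgr b * sgr b = 1 := by
  cases b <;> simp [sgr]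

/-- the class sum -/
noncomputable def Sy33 {L : ℕ} (i : ℕ) (φ : Y L → ℝ) (x : Y L) : ℝ :=
  ∑ x' : Y L, if pre i x' = pre i x then φ x' else 0

theorem Ey_eq33 {L : ℕ} (i : ℕ) (φ : Y L → ℝ) (x : Y L) : Ey i φ x = Sy33 i φ x / 2 ^ (L - i) := rfl

theorem pre_split33 {L : ℕ} {i : ℕ} (hi : i < L) (x x' : Y L) :
    (if pre i x' = pre i x then (1 : ℝ) else 0) =
      (if pre (i + 1) x' = pre (i + 1) x then (1 : ℝ) else 0) +
        (if pre (i + 1) x' = pre (i + 1) (fl33 i x) then (1 : ℝ) else 0) := by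
  have h1 : ∀ y : Y L, pre (i + 1) x' = pre (i + 1) y ↔ pre i x' = pre i y ∧ bit x' i = bit y i := by
    intro y
    constructor
    · intro h
      exact ⟨pre_mono33 (Nat.le_succ i) h, bit_of_pre33 (Nat.lt_succ_self i) h⟩
    · rintro ⟨h2, h3⟩
      rw [pre_iff33] at h2 ⊢
      intro j hj
      rcases Nat.lt_succ_iff_lt_or_eq.1 hj with h4 | h4
      · exact h2 j h4
      · unfold bit at h3
        rw [dif_pos hi, dif_pos hi] at h3
        have h5 : j = ⟨i, hi⟩ := Fin.ext h4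
        rw [h5]
        exact h3
  rw [if_congr (h1 x) rfl rfl, if_congr (h1 (fl33 i x)) rfl rfl, pre_fl33 le_rfl, bit_fl33 hi]
  by_cases h2 : pre i x' = pre i x
  · rw [if_pos h2]
    cases h3 : bit x' i <;> cases h4 : bit x i <;> simp [h2]
  · rw [if_neg h2, if_neg (fun h => h2 h.1), if_neg (fun h => h2 h.1), add_zero]

theorem Sy_split33 {L : ℕ} {i : ℕ} (hi : i < L) (φ : Y L → ℝ) (x : Y L) :
    Sy33 i φ x = Sy33 (i + 1) φ x + Sy33 (i + 1) φ (fl33 i x) := by
  unfold Sy33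
  rw [← Finset.sum_add_distrib]
  apply Finset.sum_congr rfl
  intro x' _
  have h := pre_split33 hi x x'
  have h2 : ∀ (p : Prop) [Decidable p], (if p then φ x' else 0) = (if p then (1 : ℝ) else 0) * φ x' := by
    intro p _
    split_ifs <;> simp
  rw [h2, h2, h2, h]
  ring

theorem Ey_split33 {L : ℕ} {i : ℕ} (hi : i < L) (φ : Y L → ℝ) (x : Y L) :
    Ey i φ x = (Ey (i + 1) φ x + Ey (i + 1) φ (fl33 i x)) / 2 := by
  rw [Ey_eq33, Ey_eq33, Ey_eq33, Sy_split33 hi]
  have h : L - i = (L - (i + 1)) + 1 := by omega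
  rw [h, pow_succ]
  field_simp

theorem Ey_pre33 {L : ℕ} {i : ℕ} (φ : Y L → ℝ) {x x' : Y L} (h : pre i x = pre i x') :
    Ey i φ x = Ey i φ x' := by
  unfold Ey
  rw [h]

theorem Ey_top33 {L : ℕ} {i : ℕ} (hi : L ≤ i) (φ : Y L → ℝ) (x : Y L) : Ey i φ x = φ x := by
  unfold Ey
  rw [Nat.sub_eq_zero_of_le hi, pow_zero, div_one]
  rw [Finset.sum_eq_single x]
  · rw [if_pos rfl]
  · intro y _ hy
    rw [if_neg]
    intro h
    exact hy (pre_top33 hi h)
  · intro h
    exact absurd (Finset.mem_univ x) h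

theorem Ey_mea33 {L : ℕ} (φ : Y L → ℝ) :
    ∀ k i : ℕ, L ≤ i + k → (∀ x x', pre i x = pre i x' → φ x = φ x') → ∀ x, Ey i φ x = φ x := by
  intro k
  induction k with
  | zero =>
    intro i hi _ x
    exact Ey_top33 (by omega) φ x
  | succ k ih =>
    intro i hi hφ x
    rcases le_or_gt L i with h1 | h1
    · exact Ey_top33 h1 φ x
    · have h2 : ∀ x x', pre (i + 1) x = pre (i + 1) x' → φ x = φ x' := fun x x' h =>
        hφ x x' (pre_mono33 (Nat.le_succ i) h)
      rw [Ey_split33 h1, ih (i + 1) (by omega) h2, ih (i + 1) (by omega) h2,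
        hφ (fl33 i x) x (pre_fl33 le_rfl x)]
      ring

theorem Ey_mul33 {L : ℕ} {i : ℕ} (φ ψ : Y L → ℝ) (hφ : ∀ x x', pre i x = pre i x' → φ x = φ x')
    (x : Y L) : Ey i (fun x' => φ x' * ψ x') x = φ x * Ey i ψ x := by
  unfold Ey
  rw [← mul_div_assoc, Finset.mul_sum]
  congr 1
  apply Finset.sum_congr rfl
  intro x' _
  by_cases h : pre i x' = pre i x
  · rw [if_pos h, if_pos h]
    show φ x' * ψ x' = φ x * ψ x'
    rw [hφ x' x h]
  · rw [if_neg h, if_neg h, mul_zero]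

theorem Ey_tower33 {L : ℕ} (φ : Y L → ℝ) :
    ∀ k i : ℕ, ∀ x, Ey i (Ey (i + k) φ) x = Ey i φ x := by
  intro k
  induction k with
  | zero =>
    intro i x
    exact Ey_mea33 (Ey (i + 0) φ) L i (by omega) (fun x x' h => Ey_pre33 φ h) x
  | succ k ih =>
    intro i x
    rcases le_or_gt L i with h1 | h1
    · rw [Ey_top33 h1, Ey_top33 (by omega), Ey_top33 h1]
    · have h2 : ∀ y, Ey (i + 1) (Ey (i + (k + 1)) φ) y = Ey (i + 1) φ y := by
        intro y
        have h3 := ih (i + 1) y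
        have h4 : i + 1 + k = i + (k + 1) := by ring
        rw [h4] at h3
        exact h3
      rw [Ey_split33 h1, h2, h2, ← Ey_split33 h1]

theorem Ey_sum33 {L : ℕ} (φ : Y L → ℝ) :
    ∀ k i : ℕ, L ≤ i + k → ∑ x, Ey i φ x = ∑ x, φ x := by
  intro k
  induction k with
  | zero =>
    intro i hi
    apply Finset.sum_congr rfl
    intro x _
    exact Ey_top33 (by omega) φ x
  | succ k ih =>
    intro i hi
    rcases le_or_gt L i with h1 | h1
    · apply Finset.sum_congr rfl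
      intro x _
      exact Ey_top33 h1 φ x
    · have h2 : ∀ x, Ey i φ x = (Ey (i + 1) φ x + Ey (i + 1) φ (fl33 i x)) / 2 :=
        fun x => Ey_split33 h1 φ x
      rw [Finset.sum_congr rfl (fun x _ => h2 x), ← Finset.sum_div, Finset.sum_add_distrib,
        sum_fl33 h1 (Ey (i + 1) φ), ih (i + 1) (by omega)]
      ring

theorem Ey_abs33 {L : ℕ} (i : ℕ) (φ : Y L → ℝ) (x : Y L) :
    |Ey i φ x| ≤ Ey i (fun x' => |φ x'|) x := by
  unfold Ey
  rw [abs_div, abs_of_pos (by positivity : (0 : ℝ) < 2 ^ (L - i))]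
  apply div_le_div_of_nonneg_right _ (by positivity)
  refine le_trans (Finset.abs_sum_le_sum_abs _ _) (le_of_eq ?_)
  apply Finset.sum_congr rfl
  intro x' _
  split_ifs
  · rfl
  · exact abs_zero

theorem Sy_fl33 {L : ℕ} {i : ℕ} (hi : i < L) (φ : Y L → ℝ) (x : Y L) :
    Sy33 i (fun x' => φ (fl33 i x')) x = Sy33 i φ x := by
  unfold Sy33
  rw [← sum_fl33 hi (fun x' => if pre i x' = pre i x then φ x' else 0)]
  apply Finset.sum_congr rfl
  intro x' _
  rw [pre_fl33 le_rfl]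

theorem d1_eq33 {L : ℕ} {i : ℕ} (hi : i < L) (φ : Y L → ℝ) (x : Y L) :
    d1 i φ x = (sgr (bit x i) * φ x + sgr (bit (fl33 i x) i) * φ (fl33 i x)) / 2 := by
  have h1 : x = upb x i (bit x i) := (upb_bit33 i x).symm
  rw [bit_fl33 hi]
  unfold d1 fl33
  cases h : bit x i
  · have h2 : upb x i false = x := by rw [← h]; exact upb_bit33 i x
    rw [h2]
    simp [sgr]
    ring
  · have h2 : upb x i true = x := by rw [← h]; exact upb_bit33 i x
    rw [h2]
    simp [sgr]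
    ring

theorem Ey_d133 {L : ℕ} {i : ℕ} (hi : i < L) (φ : Y L → ℝ) (x : Y L) :
    Ey i (fun x' => sgr (bit x' i) * φ x') x = Ey i (d1 i φ) x := by
  rw [Ey_eq33, Ey_eq33]
  congr 1
  have h1 := Sy_fl33 hi (fun x' => sgr (bit x' i) * φ x') x
  have h2 : Sy33 i (d1 i φ) x = (Sy33 i (fun x' => sgr (bit x' i) * φ x') x +
      Sy33 i (fun x' => sgr (bit (fl33 i x') i) * φ (fl33 i x')) x) / 2 := by
    unfold Sy33
    rw [← Finset.sum_add_distrib, Finset.sum_div]
    apply Finset.sum_congr rfl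
    intro x' _
    by_cases h : pre i x' = pre i x
    · rw [if_pos h, if_pos h, if_pos h, d1_eq33 hi]
    · rw [if_neg h, if_neg h, if_neg h]
      ring
  rw [h2, h1]
  ring

theorem Ey_diff33 {L : ℕ} {i : ℕ} (hi : i < L) (φ : Y L → ℝ) (x : Y L) :
    Ey (i + 1) φ x - Ey i φ x =
      sgr (bit x i) * Ey i (fun x' => sgr (bit x' i) * φ x') x := by
  have hdep : ∀ x x' : Y L, pre (i + 1) x = pre (i + 1) x' → sgr (bit x i) = sgr (bit x' i) := by
    intro x x' h
    rw [bit_of_pre33 (Nat.lt_succ_self i) h]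
  rw [Ey_split33 hi φ, Ey_split33 hi (fun x' => sgr (bit x' i) * φ x'),
    Ey_mul33 (fun x' => sgr (bit x' i)) φ hdep, Ey_mul33 (fun x' => sgr (bit x' i)) φ hdep,
    bit_fl33 hi, sgr_not33]
  have h := sgr_sq33 (bit x i)
  linear_combination (-(1 / 2) * (Ey (i + 1) φ x - Ey (i + 1) φ (fl33 i x))) * h

theorem d1_sum33 {L : ℕ} {i : ℕ} (hi : i < L) (φ : Y L → ℝ) : ∑ x, |d1 i φ x| ≤ ∑ x, |φ x| := by
  have habs : ∀ b : Bool, |sgr b| = 1 := by
    intro b
    cases b <;> simp [sgr]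
  have h1 : ∀ x, |d1 i φ x| ≤ (|φ x| + |φ (fl33 i x)|) / 2 := by
    intro x
    rw [d1_eq33 hi, abs_div, abs_of_pos (by norm_num : (0 : ℝ) < 2)]
    apply div_le_div_of_nonneg_right _ (by norm_num)
    refine le_trans (abs_add_le _ _) (le_of_eq ?_)
    rw [abs_mul, abs_mul, habs, habs, one_mul, one_mul]
  refine le_trans (Finset.sum_le_sum (fun x _ => h1 x)) (le_of_eq ?_)
  rw [← Finset.sum_div, Finset.sum_add_distrib, sum_fl33 hi (fun x => |φ x|)]
  ring

theorem eyb_33 : StEyb := by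
  intro L i φ ψ
  refine ⟨fun x x' h => Ey_pre33 φ h, fun hi x => Ey_top33 hi φ x,
    fun hφ x => Ey_mea33 φ L i (by omega) hφ x, fun hφ x => Ey_mul33 φ ψ hφ x, ?_,
    fun hi x => Ey_d133 hi φ x, fun hi x => Ey_diff33 hi φ x, Ey_sum33 φ L i (by omega),
    fun x => Ey_abs33 i φ x, fun hi => d1_sum33 hi φ⟩
  intro j hij x
  obtain ⟨k, rfl⟩ := Nat.exists_eq_add_of_le hij
  exact Ey_tower33 φ k i x

end Pool.Agent.SBT
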