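import Pool.Agent.Lib.MP_a7b2aa_an.SBT.Cfo33

/-!
SBT, module CFB: comparison of the coefficients `cf` and the mixed differences `d3`.
-/

set_option autoImplicit false

namespace Pool.Agent.SBT

open Finset Pool.Agent.SB3

theorem Ey_mono33 {L : ℕ} (i : ℕ) (φ ψ : Y L → ℝ) (h : ∀ x, φ x ≤ ψ x) (x : Y L) :
    Ey i φ x ≤ Ey i ψ x := by
  unfold Ey
  apply div_le_div_of_nonneg_right _ (by positivity)
  apply Finset.sum_le_sum
  intro x' _
  split_ifs
  · exact h x'
  · exact le_rfl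

theorem Ey_le33 {L : ℕ} (i : ℕ) (φ : Y L → ℝ) (η : ℝ) (h : ∀ x, |φ x| ≤ η) (x : Y L) :
    |Ey i φ x| ≤ η := by
  refine le_trans (Ey_abs33 i φ x) ?_
  have h1 := Ey_mono33 i (fun x' => |φ x'|) (fun _ => η) h x
  rwa [Ey_const33] at h1

theorem Ey_add33 {L : ℕ} (i : ℕ) (φ ψ : Y L → ℝ) (x : Y L) :
    Ey i (fun x' => φ x' + ψ x') x = Ey i φ x + Ey i ψ x := by
  unfold Ey
  rw [← add_div, ← Finset.sum_add_distrib]
  congr 1
  apply Finset.sum_congr rfl
  intro x' _
  split_ifs <;> simp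

theorem Ey_sub33 {L : ℕ} (i : ℕ) (φ ψ : Y L → ℝ) (x : Y L) :
    Ey i (fun x' => φ x' - ψ x') x = Ey i φ x - Ey i ψ x := by
  have h := Ey_add33 i (fun x' => φ x' - ψ x') ψ x
  have h2 : (fun x' => φ x' - ψ x' + ψ x') = φ := by
    funext x'
    ring
  rw [h2] at h
  linarith

theorem Ey_Sum33 {L : ℕ} {τ : Type} (S : Finset τ) (i : ℕ) (ψ : τ → Y L → ℝ) (x : Y L) :
    Ey i (fun x' => ∑ s ∈ S, ψ s x') x = ∑ s ∈ S, Ey i (ψ s) x := by
  classical
  induction S using Finset.induction_on with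
  | empty =>
    simp only [Finset.sum_empty]
    exact Ey_const33 i 0 x
  | insert a S ha ih =>
    rw [Finset.sum_insert ha, ← ih, ← Ey_add33]
    congr 1
    funext x'
    rw [Finset.sum_insert ha]

theorem d1_Ey33 {L : ℕ} (p q : ℕ) (K : Y L → Y L → ℝ) (y z : Y L) :
    d1 p (fun y' => Ey q (K y') z) y = Ey q (fun z' => d1 p (fun y' => K y' z') y) z := by
  unfold d1
  have h : (fun z' => (K (upb y p true) z' - K (upb y p false) z') / 2) =
      fun z' => (1 / 2) * (K (upb y p true) z' - K (upb y p false) z') := by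
    funext z'
    ring
  rw [h, Ey_cmul33, Ey_sub33]
  ring

theorem cf_eq33 {L : ℕ} (H : Y L → Y L → Y L → ℝ) {i p q : ℕ} (hi : i < L) (hp : p < L)
    (hq : q < L) (x y z : Y L) :
    cf H i p q x y z =
      Ey i (fun a => Ey p (fun b => Ey q (fun c => d3 H i p q a b c) z) y) x := by
  have hz : ∀ a b : Y L, Ey q (fun z' => sgr (bit a i) * sgr (bit b p) * sgr (bit z' q) *
      H a b z') z = sgr (bit a i) * (sgr (bit b p) * Ey q (d1 q (H a b)) z) := by
    intro a b
    rw [← Ey_d133 hq (H a b) z, ← Ey_cmul33, ← Ey_cmul33]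
    congr 1
    funext z'
    ring
  have hy : ∀ a : Y L, Ey p (fun b => sgr (bit a i) * (sgr (bit b p) * Ey q (d1 q (H a b)) z)) y =
      sgr (bit a i) * Ey p (fun b => Ey q (fun c => d1 p (fun b' => d1 q (H a b') c) b) z) y := by
    intro a
    rw [Ey_cmul33]
    congr 1
    rw [Ey_d133 hp (fun b => Ey q (d1 q (H a b)) z)]
    congr 1
    funext b
    exact d1_Ey33 p q (fun b' => d1 q (H a b')) b z
  have hx : Ey i (fun a => sgr (bit a i) *
      Ey p (fun b => Ey q (fun c => d1 p (fun b' => d1 q (H a b') c) b) z) y) x =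
      Ey i (fun a => Ey p (fun b => Ey q (fun c => d3 H i p q a b c) z) y) x := by
    rw [Ey_d133 hi (fun a => Ey p (fun b => Ey q (fun c => d1 p (fun b' => d1 q (H a b') c) b) z) y)]
    congr 1
    funext a
    rw [d1_Ey33 i p (fun a' b => Ey q (fun c => d1 p (fun b' => d1 q (H a' b') c) b) z) a y]
    congr 1
    funext b
    exact d1_Ey33 i q (fun a' c => d1 p (fun b' => d1 q (H a' b') c) b) a z
  rw [← hx]
  unfold cf
  congr 1
  funext a
  rw [← hy a]
  congr 1
  funext b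
  exact hz a b

theorem d1_le33 {L : ℕ} (i : ℕ) (φ : Y L → ℝ) (η : ℝ) (h : ∀ x, |φ x| ≤ η) (x : Y L) :
    |d1 i φ x| ≤ η := by
  unfold d1
  rw [abs_div, abs_of_pos (by norm_num : (0 : ℝ) < 2), div_le_iff₀ (by norm_num)]
  have h1 := h (upb x i true)
  have h2 := h (upb x i false)
  have h3 := abs_sub (φ (upb x i true)) (φ (upb x i false))
  linarith

theorem upb_comm33 {L : ℕ} {i j : ℕ} (hij : i ≠ j) (x : Y L) (v w : Bool) :
    upb (upb x i v) j w = upb (upb x j w) i v := by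
  funext k
  unfold upb
  by_cases h1 : (k : ℕ) = i
  · have h2 : (k : ℕ) ≠ j := by omega
    simp [h1, hij]
  · by_cases h2 : (k : ℕ) = j
    · simp [h2, Ne.symm hij]
    · simp [h1, h2]

theorem tel_33 {L : ℕ} (φ : Y L → ℝ) (i : ℕ) (η : ℝ)
    (h : ∀ j, i ≤ j → j < L → ∀ x, |d1 j φ x| ≤ η) (x : Y L) :
    ∀ k : ℕ, i + k ≤ L → |Ey (i + k) φ x - Ey i φ x| ≤ k * η := by
  intro k
  induction k with
  | zero =>
    intro _
    simp
  | succ k ih =>
    intro hk
    have h1 := ih (by omega)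
    have h2 : Ey (i + k + 1) φ x - Ey (i + k) φ x =
        sgr (bit x (i + k)) * Ey (i + k) (d1 (i + k) φ) x := by
      rw [Ey_diff33 (by omega : i + k < L), Ey_d133 (by omega : i + k < L)]
    have h3 : |Ey (i + k + 1) φ x - Ey (i + k) φ x| ≤ η := by
      rw [h2, abs_mul]
      have h4 : ∀ b : Bool, |sgr b| = 1 := by
        intro b
        cases b <;> simp [sgr]
      rw [h4, one_mul]
      exact Ey_le33 _ _ _ (h (i + k) (by omega) (by omega)) x
    have h5 : Ey (i + (k + 1)) φ x - Ey i φ x =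
        (Ey (i + k + 1) φ x - Ey (i + k) φ x) + (Ey (i + k) φ x - Ey i φ x) := by
      rw [← add_assoc]
      ring
    rw [h5]
    refine le_trans (abs_add_le _ _) ?_
    push_cast
    linarith

theorem dev_33 {L : ℕ} (φ : Y L → ℝ) (i : ℕ) (hi : i < L) (η : ℝ) (hη : 0 ≤ η)
    (h : ∀ j, i ≤ j → j < L → ∀ x, |d1 j φ x| ≤ η) (x : Y L) :
    |φ x - Ey i φ x| ≤ L * η := by
  have h1 := tel_33 φ i η h x (L - i) (by omega)
  have h2 : i + (L - i) = L := by omega
  rw [h2, Ey_top33 le_rfl] at h1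
  refine le_trans h1 ?_
  have h3 : ((L - i : ℕ) : ℝ) ≤ L := by exact_mod_cast Nat.sub_le L i
  exact mul_le_mul_of_nonneg_right h3 hη

theorem d3x_33 {L : ℕ} (H : Y L → Y L → Y L → ℝ) (i p q j : ℕ) (hj : j ≠ i) (x y z : Y L) :
    d1 j (fun x' => d3 H i p q x' y z) x = d1 i (fun x' => d3 H j p q x' y z) x := by
  unfold d3
  simp only [d1]
  rw [upb_comm33 hj x true true, upb_comm33 hj x true false, upb_comm33 hj x false true,
    upb_comm33 hj x false false]
  ring

theorem d3y_33 {L : ℕ} (H : Y L → Y L → Y L → ℝ) (i p q j : ℕ) (hj : j ≠ p) (x y z : Y L) :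
    d1 j (fun y' => d3 H i p q x y' z) y = d1 p (fun y' => d3 H i j q x y' z) y := by
  unfold d3
  simp only [d1]
  rw [upb_comm33 hj y true true, upb_comm33 hj y true false, upb_comm33 hj y false true,
    upb_comm33 hj y false false]
  ring

theorem d3z_33 {L : ℕ} (H : Y L → Y L → Y L → ℝ) (i p q j : ℕ) (hj : j ≠ q) (x y z : Y L) :
    d1 j (fun z' => d3 H i p q x y z') z = d1 q (fun z' => d3 H i p j x y z') z := by
  unfold d3
  simp only [d1]
  rw [upb_comm33 hj z true true, upb_comm33 hj z true false, upb_comm33 hj z false true,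
    upb_comm33 hj z false false]
  ring

theorem d3x0_33 {L : ℕ} (H : Y L → Y L → Y L → ℝ) (i p q : ℕ) (x y z : Y L) :
    d1 i (fun x' => d3 H i p q x' y z) x = 0 := by
  unfold d3
  simp only [d1, upb_upb33]
  ring

theorem d3y0_33 {L : ℕ} (H : Y L → Y L → Y L → ℝ) (i p q : ℕ) (x y z : Y L) :
    d1 p (fun y' => d3 H i p q x y' z) y = 0 := by
  unfold d3
  simp only [d1, upb_upb33]
  ring

theorem d3z0_33 {L : ℕ} (H : Y L → Y L → Y L → ℝ) (i p q : ℕ) (x y z : Y L) :
    d1 q (fun z' => d3 H i p q x y z') z = 0 := by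
  unfold d3
  simp only [d1, upb_upb33]
  ring

theorem cf_le33 {L : ℕ} (H : Y L → Y L → Y L → ℝ) {i p q : ℕ} (hi : i < L) (hp : p < L)
    (hq : q < L) (η : ℝ) (h : ∀ x y z, |d3 H i p q x y z| ≤ η) (x y z : Y L) :
    |cf H i p q x y z| ≤ η := by
  rw [cf_eq33 H hi hp hq]
  apply Ey_le33
  intro a
  apply Ey_le33
  intro b
  apply Ey_le33
  intro c
  exact h a b c

theorem d3_sub_cf33 {L : ℕ} (H : Y L → Y L → Y L → ℝ) {i p q : ℕ} (hi : i < L) (hp : p < L)
    (hq : q < L) (η : ℝ) (hη : 0 ≤ η)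
    (h : ∀ i' p' q', i ≤ i' → p ≤ p' → q ≤ q' → i' < L → p' < L → q' < L →
        (i' ≠ i ∨ p' ≠ p ∨ q' ≠ q) → ∀ x y z, |d3 H i' p' q' x y z| ≤ η) (x y z : Y L) :
    |d3 H i p q x y z - cf H i p q x y z| ≤ 3 * L * η := by
  have hx : ∀ (x y z : Y L), |d3 H i p q x y z - Ey i (fun a => d3 H i p q a y z) x| ≤ L * η := by
    intro x y z
    apply dev_33 (fun a => d3 H i p q a y z) i hi η hη
    intro j hj hjL a
    rcases eq_or_ne j i with rfl | hji
    · rw [d3x0_33, abs_zero]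
      exact hη
    · rw [d3x_33 H i p q j hji]
      apply d1_le33
      intro a'
      exact h j p q hj le_rfl le_rfl hjL hp hq (Or.inl hji) a' y z
  have hy : ∀ (x y z : Y L), |d3 H i p q x y z - Ey p (fun b => d3 H i p q x b z) y| ≤ L * η := by
    intro x y z
    apply dev_33 (fun b => d3 H i p q x b z) p hp η hη
    intro j hj hjL a
    rcases eq_or_ne j p with rfl | hjp
    · rw [d3y0_33, abs_zero]
      exact hη
    · rw [d3y_33 H i p q j hjp]
      apply d1_le33
      intro a'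
      exact h i j q le_rfl hj le_rfl hi hjL hq (Or.inr (Or.inl hjp)) x a' z
  have hz : ∀ (x y z : Y L), |d3 H i p q x y z - Ey q (fun c => d3 H i p q x y c) z| ≤ L * η := by
    intro x y z
    apply dev_33 (fun c => d3 H i p q x y c) q hq η hη
    intro j hj hjL a
    rcases eq_or_ne j q with rfl | hjq
    · rw [d3z0_33, abs_zero]
      exact hη
    · rw [d3z_33 H i p q j hjq]
      apply d1_le33
      intro a'
      exact h i p j le_rfl le_rfl hj hi hp hjL (Or.inr (Or.inr hjq)) x y a'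
  rw [cf_eq33 H hi hp hq]
  have e1 : d3 H i p q x y z -
      Ey i (fun a => Ey p (fun b => Ey q (fun c => d3 H i p q a b c) z) y) x =
      (d3 H i p q x y z - Ey i (fun a => d3 H i p q a y z) x) +
      Ey i (fun a => d3 H i p q a y z - Ey p (fun b => d3 H i p q a b z) y) x +
      Ey i (fun a => Ey p (fun b => d3 H i p q a b z - Ey q (fun c => d3 H i p q a b c) z) y) x := by
    have h1 : (fun a => Ey p (fun b => d3 H i p q a b z - Ey q (fun c => d3 H i p q a b c) z) y) =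
        fun a => Ey p (fun b => d3 H i p q a b z) y -
          Ey p (fun b => Ey q (fun c => d3 H i p q a b c) z) y := by
      funext a
      rw [Ey_sub33 p (fun b => d3 H i p q a b z) (fun b => Ey q (fun c => d3 H i p q a b c) z)]
    rw [h1, Ey_sub33 i (fun a => d3 H i p q a y z) (fun a => Ey p (fun b => d3 H i p q a b z) y),
      Ey_sub33 i (fun a => Ey p (fun b => d3 H i p q a b z) y)
        (fun a => Ey p (fun b => Ey q (fun c => d3 H i p q a b c) z) y)]
    ring
  rw [e1]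
  have b1 := hx x y z
  have b2 : |Ey i (fun a => d3 H i p q a y z - Ey p (fun b => d3 H i p q a b z) y) x| ≤ L * η :=
    Ey_le33 _ _ _ (fun a => hy a y z) x
  have b3 : |Ey i (fun a => Ey p (fun b => d3 H i p q a b z -
      Ey q (fun c => d3 H i p q a b c) z) y) x| ≤ L * η :=
    Ey_le33 _ _ _ (fun a => Ey_le33 _ _ _ (fun b => hz a b z) y) x
  refine le_trans (abs_add_le _ _) ?_
  have b4 := abs_add_le (d3 H i p q x y z - Ey i (fun a => d3 H i p q a y z) x)
    (Ey i (fun a => d3 H i p q a y z - Ey p (fun b => d3 H i p q a b z) y) x)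
  linarith

/-- CFB, with `0 ≤ η` -/
theorem cfb_33 : ∀ (L : ℕ) (H : Y L → Y L → Y L → ℝ) (i p q : ℕ) (η : ℝ), 0 ≤ η →
    i < L → p < L → q < L →
    ((∀ x y z, |d3 H i p q x y z| ≤ η) → ∀ x y z, |cf H i p q x y z| ≤ η) ∧
    ((∀ i' p' q', i ≤ i' → p ≤ p' → q ≤ q' → i' < L → p' < L → q' < L →
        (i' ≠ i ∨ p' ≠ p ∨ q' ≠ q) → ∀ x y z, |d3 H i' p' q' x y z| ≤ η) →
      ∀ x y z, |d3 H i p q x y z - cf H i p q x y z| ≤ 3 * L * η) := by
  intro L H i p q η hη hi hp hq
  exact ⟨fun h x y z => cf_le33 H hi hp hq η h x y z,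
    fun h x y z => d3_sub_cf33 H hi hp hq η hη h x y z⟩

end Pool.Agent.SBT
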