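import Pool.Agent.Lib.MP_a7b2aa_an.SBT.StmtsT30

/-!
SBT, helper38: translation kernels on the discrete torus.
-/

set_option autoImplicit false
set_option linter.unusedSectionVars false

namespace Pool.Agent.SBT

open Finset Pool.Agent.SB3

section base

variable {ι : Type} [Fintype ι] [DecidableEq ι] {N : ℕ} [NeZero N]

/-- the multiplier of a kernel -/
noncomputable def mu38 (w : ZMod N → ℝ) (k : ℤ) : ℂ :=
  ∑ g, (w g : ℂ) * (ZMod.stdAddChar ((k : ZMod N) * g) : ℂ)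

/-- the kernel operator in direction `j` -/
noncomputable def Ko38 (j : ι) (w : ZMod N → ℝ) (φ : Tor ι N → ℝ) (u : Tor ι N) : ℝ :=
  ∑ g, w g * φ (sv j g u)

lemma ch_sv_38 (k : ι → ℤ) (j : ι) (g : ZMod N) (u : Tor ι N) :
    ch k (sv j g u) = ch k u * (ZMod.stdAddChar ((k j : ZMod N) * g) : ℂ) := by
  unfold ch sv
  have h1 : ∀ i : ι, (ZMod.stdAddChar ((k i : ZMod N) * Function.update u j (u j + g) i) : ℂ) =
      (ZMod.stdAddChar ((k i : ZMod N) * u i) : ℂ) *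
        (if i = j then (ZMod.stdAddChar ((k j : ZMod N) * g) : ℂ) else 1) := by
    intro i
    by_cases hij : i = j
    · subst hij
      simp [mul_add, AddChar.map_add_eq_mul]
    · simp [Function.update_of_ne hij, hij]
  simp_rw [h1]
  rw [Finset.prod_mul_distrib]
  congr 1
  rw [Finset.prod_ite_eq' Finset.univ j]
  simp

lemma sv_comm_38 (j j' : ι) (g h : ZMod N) (u : Tor ι N) :
    sv j g (sv j' h u) = sv j' h (sv j g u) := by
  unfold sv
  by_cases hj : j = j'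
  · subst hj
    funext i
    by_cases hi : i = j
    · subst hi
      simp only [Function.update_self]
      ring
    · simp [Function.update_of_ne hi]
  · funext i
    by_cases hi : i = j
    · subst hi
      simp [Function.update_of_ne hj]
    · by_cases hi' : i = j'
      · subst hi'
        simp [Function.update_of_ne hi]
      · simp [Function.update_of_ne hi, Function.update_of_ne hi']

lemma Ko_PT_38 (j : ι) (w : ZMod N → ℝ) (A : Finset (ι → ℤ)) (c : (ι → ℤ) → ℂ) :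
    Ko38 j w (PT (N := N) A c) = PT (N := N) A (fun k => c k * mu38 w (k j)) := by
  funext u
  unfold Ko38 PT mu38
  have h1 : ∀ g : ZMod N, w g * (∑ k ∈ A, c k * ch k (sv j g u)).re =
      (∑ k ∈ A, (c k * ch k u) * ((w g : ℂ) *
        (ZMod.stdAddChar ((k j : ZMod N) * g) : ℂ))).re := by
    intro g
    rw [← Complex.re_ofReal_mul, Finset.mul_sum]
    congr 1
    apply Finset.sum_congr rfl
    intro k _
    rw [ch_sv_38]
    ring
  simp_rw [h1]
  rw [← Complex.re_sum, Finset.sum_comm]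
  congr 1
  apply Finset.sum_congr rfl
  intro k _
  rw [← Finset.mul_sum]
  ring

/-- the bijection of the torus by translation -/
lemma sum_sv_38 (j : ι) (g : ZMod N) (f : Tor ι N → ℝ) : ∑ u, f (sv j g u) = ∑ u, f u := by
  have hinv : ∀ u : Tor ι N, sv j (-g) (sv j g u) = u := by
    intro u
    unfold sv
    funext i
    by_cases hi : i = j
    · subst hi
      simp
    · simp [Function.update_of_ne hi]
  have hinv' : ∀ u : Tor ι N, sv j g (sv j (-g) u) = u := by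
    intro u
    unfold sv
    funext i
    by_cases hi : i = j
    · subst hi
      simp
    · simp [Function.update_of_ne hi]
  exact Fintype.sum_equiv ⟨sv j g, sv j (-g), hinv, hinv'⟩ _ _ (fun u => rfl)

lemma S1_Ko_38 (j : ι) (w : ZMod N → ℝ) (φ : Tor ι N → ℝ) :
    S1 (Ko38 j w φ) ≤ (∑ g, |w g|) * S1 φ := by
  unfold S1 Ko38
  calc ∑ u, |∑ g, w g * φ (sv j g u)| ≤ ∑ u, ∑ g, |w g| * |φ (sv j g u)| := by
        apply Finset.sum_le_sum
        intro u _
        refine (Finset.abs_sum_le_sum_abs _ _).trans (le_of_eq ?_)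
        simp_rw [abs_mul]
    _ = ∑ g, |w g| * ∑ u, |φ (sv j g u)| := by
        rw [Finset.sum_comm]
        apply Finset.sum_congr rfl
        intro g _
        rw [Finset.mul_sum]
    _ = ∑ g, |w g| * ∑ u, |φ u| := by
        apply Finset.sum_congr rfl
        intro g _
        rw [sum_sv_38 j g (fun u => |φ u|)]
    _ = (∑ g, |w g|) * ∑ u, |φ u| := by rw [Finset.sum_mul]

lemma sup_Ko_38 (j : ι) (w : ZMod N → ℝ) (φ : Tor ι N → ℝ) (M : ℝ) (h : ∀ u, |φ u| ≤ M)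
    (u : Tor ι N) : |Ko38 j w φ u| ≤ (∑ g, |w g|) * M := by
  unfold Ko38
  refine (Finset.abs_sum_le_sum_abs _ _).trans ?_
  rw [Finset.sum_mul]
  apply Finset.sum_le_sum
  intro g _
  rw [abs_mul]
  exact mul_le_mul_of_nonneg_left (h _) (abs_nonneg _)

lemma dT_Ko_38 (j j' : ι) (h : ZMod N) (w : ZMod N → ℝ) (φ : Tor ι N → ℝ) :
    dT j' h (Ko38 j w φ) = Ko38 j w (dT j' h φ) := by
  funext u
  unfold dT Ko38
  rw [← Finset.sum_sub_distrib, Finset.sum_div]
  apply Finset.sum_congr rfl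
  intro g _
  rw [sv_comm_38 j j' g h u, sv_comm_38 j j' g (-h) u]
  ring

lemma dT_PT_38 (j : ι) (h : ZMod N) (A : Finset (ι → ℤ)) (c : (ι → ℤ) → ℂ) :
    ∃ c' : (ι → ℤ) → ℂ, dT j h (PT (N := N) A c) = PT (N := N) A c' := by
  refine ⟨fun k => c k * ((ZMod.stdAddChar ((k j : ZMod N) * h) : ℂ) -
    (ZMod.stdAddChar ((k j : ZMod N) * (-h)) : ℂ)) / 2, ?_⟩
  funext u
  unfold dT PT
  rw [← Complex.sub_re, ← Finset.sum_sub_distrib]
  have : (2 : ℝ) ≠ 0 := two_ne_zero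
  rw [div_eq_iff this, mul_comm _ (2 : ℝ), ← Complex.re_ofReal_mul, Finset.mul_sum]
  congr 1
  apply Finset.sum_congr rfl
  intro k _
  rw [ch_sv_38, ch_sv_38]
  push_cast
  ring

lemma PT_sum_38 {α : Type} (s : Finset α) (f : α → Tor ι N → ℝ) (j : ι) (h : ZMod N) :
    dT j h (fun u => ∑ a ∈ s, f a u) = fun u => ∑ a ∈ s, dT j h (f a) u := by
  funext u
  unfold dT
  rw [← Finset.sum_sub_distrib, Finset.sum_div]

lemma Ko_sum_38 {α : Type} (s : Finset α) (f : α → Tor ι N → ℝ) (j : ι) (w : ZMod N → ℝ) :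
    Ko38 j w (fun u => ∑ a ∈ s, f a u) = fun u => ∑ a ∈ s, Ko38 j w (f a) u := by
  funext u
  unfold Ko38
  rw [Finset.sum_comm]
  apply Finset.sum_congr rfl
  intro g _
  rw [Finset.mul_sum]

lemma S1_nonneg_38 (φ : Tor ι N → ℝ) : 0 ≤ S1 φ := Finset.sum_nonneg (fun _ _ => abs_nonneg _)

end base

/-! ### blocks -/

lemma mem_blk_38 {l : Fin 3 → ℕ} {k : Fin 3 → ℤ} (hk : k ∈ blk l) (j : Fin 3) :
    (2 : ℤ) ^ (2 * l j) / 2 ≤ |k j| ∧ |k j| < (2 : ℤ) ^ (2 * l j) := by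
  unfold blk at hk
  rw [Fintype.mem_piFinset] at hk
  have h := hk j
  rw [Finset.mem_filter, Finset.mem_Ioo] at h
  exact ⟨h.2, abs_lt.mpr h.1⟩

lemma pow_half_38 (s : ℕ) (hs : 1 ≤ s) : (2 : ℤ) ^ (2 * s) / 2 = (2 : ℤ) ^ (2 * s - 1) := by
  have : 2 * s = (2 * s - 1) + 1 := by omega
  rw [this, pow_succ]
  simp

lemma anti_le_38 {m : ℕ} {l : Fin 3 → ℕ} (hl : l ∈ Finset.Nat.antidiagonalTuple 3 m)
    (j : Fin 3) : l j ≤ m := by
  rw [Finset.Nat.mem_antidiagonalTuple] at hl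
  rw [← hl]
  exact Finset.single_le_sum (f := l) (fun _ _ => Nat.zero_le _) (Finset.mem_univ j)

/-- the kernel of one coordinate, `l ≥ 1` -/
lemma ker1_38 (hE : StExt) (m l : ℕ) (h1 : 1 ≤ l) (hl : l ≤ m) :
    ∃ w : ZMod (2 ^ (2 * m + 3)) → ℝ, (∑ g, |w g| ≤ 6) ∧
      ∀ l' ≤ m, ∀ t : ℤ, (2 : ℤ) ^ (2 * l') / 2 ≤ |t| → |t| < (2 : ℤ) ^ (2 * l') →
        mu38 w t = if l' = l then 1 else 0 := by
  obtain ⟨w, hw1, hw2, hw3⟩ := hE (2 * m + 3) (2 * l) (by omega) (by omega)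
  refine ⟨w, hw1, ?_⟩
  intro l' hl' t ht1 ht2
  by_cases h : l' = l
  · subst h
    rw [if_pos rfl]
    rw [pow_half_38 l' h1] at ht1
    exact hw2 t ht1 ht2
  · rw [if_neg h]
    have hbig : |t| < (2 : ℤ) ^ (2 * m) :=
      lt_of_lt_of_le ht2 (pow_le_pow_right₀ (by norm_num) (by omega))
    apply hw3 t
    · rcases lt_or_gt_of_ne h with h2 | h2
      · left
        exact lt_of_lt_of_le ht2 (pow_le_pow_right₀ (by norm_num) (by omega))
      · right
        rw [pow_half_38 l' (by omega)] at ht1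
        exact le_trans (pow_le_pow_right₀ (by norm_num) (by omega)) ht1
    · exact lt_of_lt_of_le hbig (pow_le_pow_right₀ (by norm_num) (by omega))
    · have h3 : (2 : ℤ) ^ (2 * l + 1) ≤ 2 ^ (2 * m + 1) :=
        pow_le_pow_right₀ (by norm_num) (by omega)
      have h4 : (2 : ℤ) ^ (2 * m + 3) = 8 * 2 ^ (2 * m) := by rw [pow_add]; ring
      have h5 : (2 : ℤ) ^ (2 * m + 1) = 2 * 2 ^ (2 * m) := by rw [pow_add]; ring
      have h6 : (0 : ℤ) < 2 ^ (2 * m) := by positivity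
      rw [h4]
      rw [h5] at h3
      linarith

/-- the kernel of one coordinate, `l = 0` -/
lemma ker0_38 (hV : StVP) (m : ℕ) :
    ∃ w : ZMod (2 ^ (2 * m + 3)) → ℝ, (∑ g, |w g| ≤ 6) ∧
      ∀ l' ≤ m, ∀ t : ℤ, (2 : ℤ) ^ (2 * l') / 2 ≤ |t| → |t| < (2 : ℤ) ^ (2 * l') →
        mu38 w t = if l' = 0 then 1 else 0 := by
  have hN : 4 * 1 ≤ 2 ^ (2 * m + 3) := by
    calc 4 * 1 ≤ 2 ^ 3 := by norm_num
      _ ≤ 2 ^ (2 * m + 3) := Nat.pow_le_pow_right (by norm_num) (by omega)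
  obtain ⟨w, hw1, hw2, hw3, _⟩ := hV (2 ^ (2 * m + 3)) 1 le_rfl hN
  refine ⟨w, hw1.trans (by norm_num), ?_⟩
  intro l' hl' t ht1 ht2
  by_cases h : l' = 0
  · subst h
    rw [if_pos rfl]
    have : |t| < 1 := by simpa using ht2
    exact hw2 t (by push_cast; omega)
  · rw [if_neg h]
    have hbig : |t| < (2 : ℤ) ^ (2 * m) :=
      lt_of_lt_of_le ht2 (pow_le_pow_right₀ (by norm_num) (by omega))
    apply hw3 t
    · rw [pow_half_38 l' (by omega)] at ht1
      have : (2 : ℤ) ^ 1 ≤ 2 ^ (2 * l' - 1) := pow_le_pow_right₀ (by norm_num) (by omega)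
      push_cast
      linarith
    · push_cast
      have h4 : (2 : ℤ) ^ (2 * m + 3) = 8 * 2 ^ (2 * m) := by rw [pow_add]; ring
      have h6 : (1 : ℤ) ≤ 2 ^ (2 * m) := one_le_pow₀ (by norm_num)
      rw [h4]
      linarith

/-- extraction of a block by three kernels -/
lemma extr_38 (m : ℕ) (l : Fin 3 → ℕ) (c : (Fin 3 → ℤ) → ℂ)
    (hl : l ∈ Finset.Nat.antidiagonalTuple 3 m) (w : Fin 3 → ZMod (2 ^ (2 * m + 3)) → ℝ)
    (hw : ∀ j : Fin 3, ∀ l' ≤ m, ∀ t : ℤ, (2 : ℤ) ^ (2 * l') / 2 ≤ |t| →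
      |t| < (2 : ℤ) ^ (2 * l') → mu38 (w j) t = if l' = l j then 1 else 0) :
    Ko38 0 (w 0) (Ko38 1 (w 1) (Ko38 2 (w 2) (Fm m c))) =
      PT (N := 2 ^ (2 * m + 3)) (blk l) c := by
  have h1 : Ko38 0 (w 0) (Ko38 1 (w 1) (Ko38 2 (w 2) (Fm m c))) =
      fun u => ∑ l' ∈ Finset.Nat.antidiagonalTuple 3 m,
        PT (N := 2 ^ (2 * m + 3)) (blk l') (fun k => c k * mu38 (w 2) (k 2) * mu38 (w 1) (k 1) *
          mu38 (w 0) (k 0)) u := by
    have h0 : Fm m c = fun u => ∑ l ∈ Finset.Nat.antidiagonalTuple 3 m,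
      PT (N := 2 ^ (2 * m + 3)) (blk l) c u := rfl
    rw [h0, Ko_sum_38, Ko_sum_38, Ko_sum_38]
    funext u
    apply Finset.sum_congr rfl
    intro l' _
    rw [Ko_PT_38, Ko_PT_38, Ko_PT_38]
  rw [h1]
  funext u
  rw [Finset.sum_eq_single l]
  · unfold PT
    congr 1
    apply Finset.sum_congr rfl
    intro k hk
    have e : ∀ j : Fin 3, mu38 (w j) (k j) = 1 := by
      intro j
      rw [hw j (l j) (anti_le_38 hl j) (k j) (mem_blk_38 hk j).1 (mem_blk_38 hk j).2, if_pos rfl]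
    beta_reduce
    rw [e 0, e 1, e 2]
    ring
  · intro l' hl' hne
    have hj : ∃ j, l' j ≠ l j := by
      by_contra hcon
      push Not at hcon
      exact hne (funext hcon)
    obtain ⟨j, hj⟩ := hj
    unfold PT
    rw [Finset.sum_eq_zero, Complex.zero_re]
    intro k hk
    have e : mu38 (w j) (k j) = 0 := by
      rw [hw j (l' j) (anti_le_38 hl' j) (k j) (mem_blk_38 hk j).1 (mem_blk_38 hk j).2, if_neg hj]
    beta_reduce
    fin_cases j
    · simp only [Fin.zero_eta] at e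
      rw [e]
      ring
    · simp only [Fin.mk_one] at e
      rw [e]
      ring
    · have e' : mu38 (w 2) (k 2) = 0 := e
      rw [e']
      ring
  · intro h
    exact absurd hl h

end Pool.Agent.SBT
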