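import Pool.Agent.Lib.MP_a7b2aa_an.SBT.Op38

/-!
SBT, helper38: the module PAR (orthogonality of the blocks).
-/

set_option autoImplicit false
set_option linter.unusedSectionVars false

namespace Pool.Agent.SBT

open Finset Pool.Agent.SB3

section base

variable {ι : Type} [Fintype ι] [DecidableEq ι] {N : ℕ} [NeZero N]

lemma sum_ch_38 (κ : ι → ℤ) (j : ι) (h : ((κ j : ℤ) : ZMod N) ≠ 0) :
    ∑ u : Tor ι N, ch κ u = 0 := by
  unfold ch
  have h1 := Finset.prod_univ_sum (fun _ : ι => (Finset.univ : Finset (ZMod N)))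
    (fun (i : ι) (x : ZMod N) => (ZMod.stdAddChar ((κ i : ZMod N) * x) : ℂ))
  rw [Fintype.piFinset_univ] at h1
  rw [← h1]
  apply Finset.prod_eq_zero (Finset.mem_univ j)
  have h2 := AddChar.sum_mulShift (R := ZMod N) (R' := ℂ) ((κ j : ℤ) : ZMod N)
    (ZMod.isPrimitive_stdAddChar N)
  rw [if_neg h] at h2
  calc ∑ x : ZMod N, (ZMod.stdAddChar (((κ j : ℤ) : ZMod N) * x) : ℂ) =
        ∑ x : ZMod N, (ZMod.stdAddChar (x * ((κ j : ℤ) : ZMod N)) : ℂ) := by
          simp_rw [mul_comm]
    _ = 0 := by rw [h2]; simp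

lemma ch_mul_38 (k k' : ι → ℤ) (u : Tor ι N) :
    ch k u * ch k' u = ch (fun i => k i + k' i) u := by
  unfold ch
  rw [← Finset.prod_mul_distrib]
  apply Finset.prod_congr rfl
  intro i _
  push_cast
  rw [add_mul, AddChar.map_add_eq_mul]

lemma ch_conj_38 (k : ι → ℤ) (u : Tor ι N) :
    (starRingEnd ℂ) (ch k u) = ch (fun i => - k i) u := by
  unfold ch
  rw [map_prod]
  apply Finset.prod_congr rfl
  intro i _
  push_cast
  rw [neg_mul, AddChar.map_neg_eq_conj]

lemma orth_38 (A B : Finset (ι → ℤ)) (c : (ι → ℤ) → ℂ) (j : ι)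
    (h : ∀ k ∈ A, ∀ k' ∈ B, ((k j + k' j : ℤ) : ZMod N) ≠ 0 ∧ ((k j - k' j : ℤ) : ZMod N) ≠ 0) :
    ∑ u : Tor ι N, PT (N := N) A c u * PT (N := N) B c u = 0 := by
  have h1 : ∀ u : Tor ι N, PT (N := N) A c u * PT (N := N) B c u =
      (1 / 2) * ((∑ k ∈ A, ∑ k' ∈ B, c k * c k' * ch (fun i => k i + k' i) u).re +
        (∑ k ∈ A, ∑ k' ∈ B, c k * (starRingEnd ℂ) (c k') * ch (fun i => k i - k' i) u).re) := by
    intro u
    have e1 : ∑ k ∈ A, ∑ k' ∈ B, c k * c k' * ch (fun i => k i + k' i) u =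
        (∑ k ∈ A, c k * ch k u) * (∑ k' ∈ B, c k' * ch k' u) := by
      rw [Finset.sum_mul_sum]
      apply Finset.sum_congr rfl
      intro k _
      apply Finset.sum_congr rfl
      intro k' _
      rw [← ch_mul_38]
      ring
    have e2 : ∑ k ∈ A, ∑ k' ∈ B, c k * (starRingEnd ℂ) (c k') * ch (fun i => k i - k' i) u =
        (∑ k ∈ A, c k * ch k u) * (starRingEnd ℂ) (∑ k' ∈ B, c k' * ch k' u) := by
      rw [map_sum, Finset.sum_mul_sum]
      apply Finset.sum_congr rfl
      intro k _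
      apply Finset.sum_congr rfl
      intro k' _
      rw [map_mul, ch_conj_38]
      have : ch (fun i => k i - k' i) u = ch k u * ch (fun i => - k' i) u := by
        rw [ch_mul_38]
        congr 1
      rw [this]
      ring
    rw [e1, e2]
    unfold PT
    set a := ∑ k ∈ A, c k * ch k u
    set b := ∑ k' ∈ B, c k' * ch k' u
    rw [Complex.mul_re, Complex.mul_re, Complex.conj_re, Complex.conj_im]
    ring
  simp_rw [h1]
  rw [← Finset.mul_sum, Finset.sum_add_distrib, ← Complex.re_sum, ← Complex.re_sum]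
  have z1 : ∑ u : Tor ι N, ∑ k ∈ A, ∑ k' ∈ B, c k * c k' * ch (fun i => k i + k' i) u = 0 := by
    rw [Finset.sum_comm]
    apply Finset.sum_eq_zero
    intro k hk
    rw [Finset.sum_comm]
    apply Finset.sum_eq_zero
    intro k' hk'
    rw [← Finset.mul_sum, sum_ch_38 _ j (h k hk k' hk').1, mul_zero]
  have z2 : ∑ u : Tor ι N, ∑ k ∈ A, ∑ k' ∈ B,
      c k * (starRingEnd ℂ) (c k') * ch (fun i => k i - k' i) u = 0 := by
    rw [Finset.sum_comm]
    apply Finset.sum_eq_zero
    intro k hk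
    rw [Finset.sum_comm]
    apply Finset.sum_eq_zero
    intro k' hk'
    rw [← Finset.mul_sum, sum_ch_38 _ j (h k hk k' hk').2, mul_zero]
  rw [z1, z2]
  simp

end base

/-- PAR -/
theorem par_38 : StPar := by
  intro m c
  have h0 : ∀ u, Fm m c u ^ 2 = ∑ l ∈ Finset.Nat.antidiagonalTuple 3 m,
      ∑ l' ∈ Finset.Nat.antidiagonalTuple 3 m,
        PT (N := 2 ^ (2 * m + 3)) (blk l) c u * PT (N := 2 ^ (2 * m + 3)) (blk l') c u := by
    intro u
    unfold Fm
    rw [sq, Finset.sum_mul_sum]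
  simp_rw [h0]
  conv_rhs => rw [Finset.sum_comm]
  apply Finset.sum_congr rfl
  intro l hl
  rw [Finset.sum_comm]
  rw [Finset.sum_eq_single l]
  · apply Finset.sum_congr rfl
    intro u _
    ring
  · intro l' hl' hne
    have hj : ∃ j, l j ≠ l' j := by
      by_contra hcon
      push Not at hcon
      exact hne (funext hcon).symm
    obtain ⟨j, hj⟩ := hj
    apply orth_38 (blk l) (blk l') c j
    intro k hk k' hk'
    have hk1 := mem_blk_38 hk j
    have hk2 := mem_blk_38 hk' j
    have hlj := anti_le_38 hl j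
    have hlj' := anti_le_38 hl' j
    -- absolute values are different
    have key : ∀ (a b : ℕ), a < b → b ≤ m → ∀ s t : ℤ, |s| < (2 : ℤ) ^ (2 * a) →
        (2 : ℤ) ^ (2 * b) / 2 ≤ |t| → |s| < |t| := by
      intro a b hab hb s t hs ht
      rw [pow_half_38 b (by omega)] at ht
      have : (2 : ℤ) ^ (2 * a) ≤ 2 ^ (2 * b - 1) := pow_le_pow_right₀ (by norm_num) (by omega)
      exact lt_of_lt_of_le hs (this.trans ht)
    have hdiff : |k j| ≠ |k' j| := by
      rcases lt_or_gt_of_ne hj with h | h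
      · exact ne_of_lt (key _ _ h hlj' _ _ hk1.2 hk2.1)
      · exact ne_of_gt (key _ _ h hlj _ _ hk2.2 hk1.1)
    have hb1 : |k j| < (2 : ℤ) ^ (2 * m) :=
      lt_of_lt_of_le hk1.2 (pow_le_pow_right₀ (by norm_num) (by omega))
    have hb2 : |k' j| < (2 : ℤ) ^ (2 * m) :=
      lt_of_lt_of_le hk2.2 (pow_le_pow_right₀ (by norm_num) (by omega))
    have hN : (2 : ℤ) ^ (2 * m + 3) = 8 * 2 ^ (2 * m) := by rw [pow_add]; ring
    have hpos : (0 : ℤ) < 2 ^ (2 * m) := by positivity
    have nz : ∀ t : ℤ, t ≠ 0 → |t| < (2 : ℤ) ^ (2 * m + 3) →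
        ((t : ℤ) : ZMod (2 ^ (2 * m + 3))) ≠ 0 := by
      intro t ht hlt h
      rw [ZMod.intCast_zmod_eq_zero_iff_dvd] at h
      apply ht
      apply Int.eq_zero_of_abs_lt_dvd h
      push_cast
      exact hlt
    constructor
    · apply nz
      · intro h
        apply hdiff
        have : k j = - k' j := by linarith
        rw [this, abs_neg]
      · rw [hN]
        have := abs_add_le (k j) (k' j)
        linarith
    · apply nz
      · intro h
        apply hdiff
        have : k j = k' j := by linarith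
        rw [this]
      · rw [hN]
        have := abs_sub (k j) (k' j)
        linarith
  · intro h
    exact absurd hl h

end Pool.Agent.SBT
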