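import Pool.Agent.Lib.MP_a7b2aa_an.SBT.Op38

/-!
SBT, helper38: the module BER3 (Bernstein's inequality for mixed differences of a block).
-/

set_option autoImplicit false

namespace Pool.Agent.SBT

open Finset Pool.Agent.SB3

/-- BER from BERK -/
theorem ber_of_berK_38 (hB : StBerK) : StBer := by
  intro ι _ _ a s X j A c hs hX hA
  obtain ⟨κ, hκ, heq⟩ := hB ι a s X j A c hs hX hA
  have h1 : dT j (Hs a X) (PT (N := 2 ^ a) A c) = Ko38 j κ (PT (N := 2 ^ a) A c) := by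
    funext u
    exact heq u
  rw [h1]
  exact (S1_Ko_38 j κ _).trans (mul_le_mul_of_nonneg_right hκ (S1_nonneg_38 _))

/-- BER3 -/
theorem ber3_38 (hB : StBer) : StBer3 := by
  intro a X Y' Z l c hl hX hY hZ
  have one : ∀ (j : Fin 3) (V : ℕ), V + 2 ≤ a → ∀ c' : (Fin 3 → ℤ) → ℂ,
      S1 (dT j (Hs a V) (PT (N := 2 ^ a) (blk l) c')) ≤
        32 * (1 / 2 : ℝ) ^ (V - 2 * l j) * S1 (PT (N := 2 ^ a) (blk l) c') :=
    fun j V hV c' => hB (Fin 3) a (2 * l j) V j (blk l) c' (hl j) hV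
      (fun k hk => (mem_blk_38 hk j).2)
  obtain ⟨c2, hc2⟩ := dT_PT_38 (N := 2 ^ a) (2 : Fin 3) (Hs a Z) (blk l) c
  obtain ⟨c1, hc1⟩ := dT_PT_38 (N := 2 ^ a) (1 : Fin 3) (Hs a Y') (blk l) c2
  have s2 := one 2 Z hZ c
  have s1 := one 1 Y' hY c2
  have s0 := one 0 X hX c1
  rw [hc2] at s2
  rw [hc1] at s1
  unfold D3
  rw [hc2, hc1]
  calc S1 (dT 0 (Hs a X) (PT (N := 2 ^ a) (blk l) c1)) ≤
        32 * (1 / 2 : ℝ) ^ (X - 2 * l 0) * S1 (PT (N := 2 ^ a) (blk l) c1) := s0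
    _ ≤ 32 * (1 / 2 : ℝ) ^ (X - 2 * l 0) * (32 * (1 / 2 : ℝ) ^ (Y' - 2 * l 1) *
          S1 (PT (N := 2 ^ a) (blk l) c2)) := mul_le_mul_of_nonneg_left s1 (by positivity)
    _ ≤ 32 * (1 / 2 : ℝ) ^ (X - 2 * l 0) * (32 * (1 / 2 : ℝ) ^ (Y' - 2 * l 1) *
          (32 * (1 / 2 : ℝ) ^ (Z - 2 * l 2) * S1 (PT (N := 2 ^ a) (blk l) c))) :=
        mul_le_mul_of_nonneg_left (mul_le_mul_of_nonneg_left s2 (by positivity)) (by positivity)
    _ = _ := by rw [pow_add, pow_add]; ring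

end Pool.Agent.SBT
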