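import Pool.Agent.Lib.MP_a7b2aa_an.SBT.Stmts30

/-!
SBT, helper30: FEJ, the Fejer kernel on the cyclic group.
-/

set_option autoImplicit false
set_option linter.unusedSectionVars false

namespace Pool.Agent.SBT

open Finset Pool.Agent.SB3

section fej

variable {N : ℕ} [NeZero N]

/-- the exponential sum -/
noncomputable def Sf30 (K : ℕ) (a : ℕ → ℂ) (g : ZMod N) : ℂ :=
  ∑ t ∈ range K, a t * (ZMod.stdAddChar (((t : ℤ) : ZMod N) * g) : ℂ)

lemma orth_30 (k : ℤ) : ∑ g : ZMod N, (ZMod.stdAddChar ((k : ZMod N) * g) : ℂ) =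
    if ((k : ℤ) : ZMod N) = 0 then (N : ℂ) else 0 := by
  have h := AddChar.sum_mulShift (R := ZMod N) (R' := ℂ) ((k : ℤ) : ZMod N)
    (ZMod.isPrimitive_stdAddChar N)
  rw [ZMod.card, Nat.cast_ite, Nat.cast_zero] at h
  rw [← h]
  apply Finset.sum_congr rfl
  intro g _
  rw [mul_comm]

lemma zero_iff_30 (k : ℤ) (h : |k| < N) : ((k : ℤ) : ZMod N) = 0 ↔ k = 0 := by
  rw [ZMod.intCast_zmod_eq_zero_iff_dvd]
  constructor
  · intro hd
    exact Int.eq_zero_of_abs_lt_dvd hd h
  · rintro rfl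
    exact dvd_zero _

/-- the multiplier of a square -/
lemma mult_30 (K : ℕ) (a : ℕ → ℂ) (k : ℤ) :
    ∑ g : ZMod N, ((‖Sf30 K a g‖ ^ 2 : ℝ) : ℂ) * (ZMod.stdAddChar ((k : ZMod N) * g) : ℂ) =
      ∑ t ∈ range K, ∑ t' ∈ range K, a t * (starRingEnd ℂ) (a t') *
        (if (((t : ℤ) - t' + k : ℤ) : ZMod N) = 0 then (N : ℂ) else 0) := by
  have h1 : ∀ g : ZMod N, ((‖Sf30 K a g‖ ^ 2 : ℝ) : ℂ) *
      (ZMod.stdAddChar ((k : ZMod N) * g) : ℂ) =
      ∑ t ∈ range K, ∑ t' ∈ range K, a t * (starRingEnd ℂ) (a t') *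
        (ZMod.stdAddChar ((((t : ℤ) - t' + k : ℤ) : ZMod N) * g) : ℂ) := by
    intro g
    have h2 : ((‖Sf30 K a g‖ ^ 2 : ℝ) : ℂ) = Sf30 K a g * (starRingEnd ℂ) (Sf30 K a g) := by
      rw [Complex.mul_conj, Complex.normSq_eq_norm_sq]
    rw [h2]
    unfold Sf30
    rw [map_sum, Finset.sum_mul_sum, Finset.sum_mul]
    apply Finset.sum_congr rfl
    intro t _
    rw [Finset.sum_mul]
    apply Finset.sum_congr rfl
    intro t' _
    rw [map_mul (starRingEnd ℂ), ← AddChar.map_neg_eq_conj]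
    have h3 : ((((t : ℤ) - t' + k : ℤ) : ZMod N) * g) =
        (((t : ℤ) : ZMod N) * g) + -(((t' : ℤ) : ZMod N) * g) + ((k : ZMod N) * g) := by
      push_cast
      ring
    rw [h3, AddChar.map_add_eq_mul, AddChar.map_add_eq_mul]
    ring
  rw [Finset.sum_congr rfl (fun g _ => h1 g), Finset.sum_comm]
  apply Finset.sum_congr rfl
  intro t _
  rw [Finset.sum_comm]
  apply Finset.sum_congr rfl
  intro t' _
  rw [← Finset.mul_sum, orth_30]

/-- Parseval -/
lemma pars_30 (K : ℕ) (hK : K ≤ N) (a : ℕ → ℂ) :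
    ∑ g : ZMod N, ‖Sf30 K a g‖ ^ 2 = N * ∑ t ∈ range K, ‖a t‖ ^ 2 := by
  have h := mult_30 (N := N) K a 0
  simp only [Int.cast_zero, zero_mul, AddChar.map_zero_eq_one, mul_one, add_zero] at h
  have h2 : ∀ t ∈ range K, ∑ t' ∈ range K, a t * (starRingEnd ℂ) (a t') *
      (if (((t : ℤ) - t' : ℤ) : ZMod N) = 0 then (N : ℂ) else 0) =
      ((N * ‖a t‖ ^ 2 : ℝ) : ℂ) := by
    intro t ht
    rw [Finset.sum_eq_single_of_mem t ht]
    · simp only [sub_self, Int.cast_zero, if_true]
      rw [Complex.mul_conj, Complex.normSq_eq_norm_sq]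
      push_cast
      ring
    · intro t' ht' hne
      rw [if_neg, mul_zero]
      rw [zero_iff_30]
      · omega
      · rw [Finset.mem_range] at ht ht'
        rw [abs_lt]
        constructor <;> omega
  rw [Finset.sum_congr rfl h2] at h
  have h3 : ((∑ g : ZMod N, ‖Sf30 K a g‖ ^ 2 : ℝ) : ℂ) =
      ((∑ t ∈ range K, N * ‖a t‖ ^ 2 : ℝ) : ℂ) := by
    push_cast at h ⊢
    exact h
  have h4 := Complex.ofReal_injective h3
  rw [h4, Finset.mul_sum]

lemma stdAddChar_sub_one_30 (t h : ℕ) :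
    ‖(ZMod.stdAddChar (((t : ℤ) : ZMod N) * ((h : ℕ) : ZMod N)) : ℂ) - 1‖ ≤
      2 * Real.pi * t * h / N := by
  have e : (((t : ℤ) : ZMod N) * ((h : ℕ) : ZMod N)) = (((t * h : ℤ)) : ZMod N) := by
    push_cast
    ring
  rw [e, ZMod.stdAddChar_coe]
  have e2 : (2 * Real.pi * Complex.I * ((t * h : ℤ) : ℂ) / N : ℂ) =
      Complex.I * ((2 * Real.pi * t * h / N : ℝ) : ℂ) := by
    push_cast
    ring
  rw [e2]
  refine (Real.norm_exp_I_mul_ofReal_sub_one_le).trans ?_
  rw [Real.norm_eq_abs, abs_of_nonneg]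
  positivity

lemma diff_30 (K h : ℕ) (hK : K ≤ N) :
    ∑ g : ZMod N, ‖Sf30 K (fun _ => 1) (g + (h : ZMod N)) - Sf30 K (fun _ => 1) g‖ ^ 2 ≤
      N * (K * (2 * Real.pi * K * h / N) ^ 2) := by
  have e : ∀ g : ZMod N, Sf30 K (fun _ => 1) (g + (h : ZMod N)) - Sf30 K (fun _ => 1) g =
      Sf30 K (fun t => (ZMod.stdAddChar (((t : ℤ) : ZMod N) * ((h : ℕ) : ZMod N)) : ℂ) - 1) g := by
    intro g
    unfold Sf30
    rw [← Finset.sum_sub_distrib]
    apply Finset.sum_congr rfl
    intro t _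
    rw [mul_add, AddChar.map_add_eq_mul]
    ring
  simp_rw [e]
  rw [pars_30 K hK]
  apply mul_le_mul_of_nonneg_left _ (Nat.cast_nonneg _)
  calc ∑ t ∈ range K,
        ‖(ZMod.stdAddChar (((t : ℤ) : ZMod N) * ((h : ℕ) : ZMod N)) : ℂ) - 1‖ ^ 2
      ≤ ∑ t ∈ range K, (2 * Real.pi * K * h / N) ^ 2 := by
        apply Finset.sum_le_sum
        intro t ht
        apply pow_le_pow_left₀ (norm_nonneg _)
        refine (stdAddChar_sub_one_30 t h).trans ?_
        have : (t : ℝ) ≤ K := by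
          exact_mod_cast (Finset.mem_range.mp ht).le
        have hpi := Real.pi_pos
        have hN : (0 : ℝ) < N := by exact_mod_cast Nat.pos_of_ne_zero (NeZero.ne N)
        gcongr
    _ = K * (2 * Real.pi * K * h / N) ^ 2 := by
        rw [Finset.sum_const, Finset.card_range, nsmul_eq_mul]

/-- the count -/
lemma count_30 (K : ℕ) (k : ℤ) (hk : |k| ≤ K) :
    ∑ t ∈ range K, ∑ t' ∈ range K, (if (t : ℤ) - t' + k = 0 then (1 : ℝ) else 0) =
      K - |(k : ℝ)| := by
  rcases le_or_gt 0 k with h0 | h0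
  · obtain ⟨n, rfl⟩ := Int.eq_ofNat_of_zero_le h0
    have hn : n ≤ K := by
      rw [abs_of_nonneg h0] at hk
      exact_mod_cast hk
    have h1 : ∀ t ∈ range K, ∑ t' ∈ range K,
        (if (t : ℤ) - t' + (n : ℤ) = 0 then (1 : ℝ) else 0) = if t < K - n then 1 else 0 := by
      intro t ht
      rw [Finset.mem_range] at ht
      by_cases h : t < K - n
      · rw [if_pos h, Finset.sum_eq_single_of_mem (t + n) (Finset.mem_range.mpr (by omega))]
        · rw [if_pos]
          push_cast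
          ring
        · intro b _ hb
          rw [if_neg]
          omega
      · rw [if_neg h]
        apply Finset.sum_eq_zero
        intro t' ht'
        rw [Finset.mem_range] at ht'
        rw [if_neg]
        omega
    rw [Finset.sum_congr rfl h1, ← Finset.sum_filter, Finset.sum_const, nsmul_eq_mul, mul_one]
    have h2 : (range K).filter (fun t => t < K - n) = range (K - n) := by
      ext t
      simp only [Finset.mem_filter, Finset.mem_range]
      omega
    rw [h2, Finset.card_range, Nat.cast_sub hn]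
    simp
  · obtain ⟨n, hn⟩ := Int.eq_ofNat_of_zero_le (a := -k) (by omega)
    have hk' : k = -(n : ℤ) := by omega
    subst hk'
    have hn : n ≤ K := by
      rw [abs_neg, Nat.abs_cast] at hk
      exact_mod_cast hk
    rw [Finset.sum_comm]
    have h1 : ∀ t' ∈ range K, ∑ t ∈ range K,
        (if (t : ℤ) - t' + -(n : ℤ) = 0 then (1 : ℝ) else 0) = if t' < K - n then 1 else 0 := by
      intro t ht
      rw [Finset.mem_range] at ht
      by_cases h : t < K - n
      · rw [if_pos h, Finset.sum_eq_single_of_mem (t + n) (Finset.mem_range.mpr (by omega))]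
        · rw [if_pos]
          push_cast
          ring
        · intro b _ hb
          rw [if_neg]
          omega
      · rw [if_neg h]
        apply Finset.sum_eq_zero
        intro t' ht'
        rw [Finset.mem_range] at ht'
        rw [if_neg]
        omega
    rw [Finset.sum_congr rfl h1, ← Finset.sum_filter, Finset.sum_const, nsmul_eq_mul, mul_one]
    have h2 : (range K).filter (fun t => t < K - n) = range (K - n) := by
      ext t
      simp only [Finset.mem_filter, Finset.mem_range]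
      omega
    rw [h2, Finset.card_range, Nat.cast_sub hn]
    simp

end fej

theorem fej_30 : StFej := by
  intro N K _ hK hN
  have hKR : (0 : ℝ) < (K : ℝ) := by exact_mod_cast hK
  have hNR : (0 : ℝ) < (N : ℝ) := by exact_mod_cast Nat.pos_of_ne_zero (NeZero.ne N)
  have hKC : (K : ℂ) ≠ 0 := by exact_mod_cast hKR.ne'
  have hNC : (N : ℂ) ≠ 0 := by exact_mod_cast hNR.ne'
  have hm : ∀ k : ℤ, ∑ g : ZMod N, ((‖Sf30 K (fun _ => 1) g‖ ^ 2 / (N * K) : ℝ) : ℂ) *
      (ZMod.stdAddChar ((k : ZMod N) * g) : ℂ) =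
      (∑ t ∈ range K, ∑ t' ∈ range K,
        (if (((t : ℤ) - t' + k : ℤ) : ZMod N) = 0 then (N : ℂ) else 0)) / (N * K) := by
    intro k
    have h := mult_30 (N := N) K (fun _ => 1) k
    simp only [map_one, mul_one, one_mul] at h
    rw [← h, Finset.sum_div]
    apply Finset.sum_congr rfl
    intro g _
    push_cast
    ring
  have hm1 : ∀ k : ℤ, |k| ≤ K → ∑ g : ZMod N,
      ((‖Sf30 K (fun _ => 1) g‖ ^ 2 / (N * K) : ℝ) : ℂ) *
      (ZMod.stdAddChar ((k : ZMod N) * g) : ℂ) = ((1 - |(k : ℝ)| / K : ℝ) : ℂ) := by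
    intro k hk
    rw [hm k]
    have h1 : ∀ t ∈ range K, ∀ t' ∈ range K,
        (if (((t : ℤ) - t' + k : ℤ) : ZMod N) = 0 then (N : ℂ) else 0) =
          (N : ℂ) * (((if (t : ℤ) - t' + k = 0 then (1 : ℝ) else 0) : ℝ) : ℂ) := by
      intro t ht t' ht'
      rw [Finset.mem_range] at ht ht'
      have hlt : |(t : ℤ) - t' + k| < N := by
        have h2 := abs_le.mp hk
        rw [abs_lt]
        constructor <;> omega
      by_cases h0 : (t : ℤ) - t' + k = 0
      · rw [if_pos ((zero_iff_30 _ hlt).mpr h0), if_pos h0]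
        push_cast
        ring
      · rw [if_neg (fun h => h0 ((zero_iff_30 _ hlt).mp h)), if_neg h0]
        push_cast
        ring
    rw [Finset.sum_congr rfl (fun t ht => Finset.sum_congr rfl (fun t' ht' => h1 t ht t' ht'))]
    have h3 := count_30 K k hk
    have h4 : ((∑ t ∈ range K, ∑ t' ∈ range K,
        (if (t : ℤ) - t' + k = 0 then (1 : ℝ) else 0) : ℝ) : ℂ) = ((K - |(k : ℝ)| : ℝ) : ℂ) := by
      rw [h3]
    rw [Complex.ofReal_sum] at h4
    simp_rw [Complex.ofReal_sum] at h4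
    simp_rw [← Finset.mul_sum]
    rw [h4]
    push_cast
    field_simp
  have hf0 : ∀ g : ZMod N, 0 ≤ ‖Sf30 K (fun _ => 1) g‖ ^ 2 / ((N : ℝ) * K) := by
    intro g
    positivity
  refine ⟨fun g => ‖Sf30 K (fun _ => 1) g‖ ^ 2 / (N * K), hf0, ?_, hm1, ?_, ?_⟩
  · have h := hm1 0 (by simp)
    simp only [Int.cast_zero, zero_mul, AddChar.map_zero_eq_one, mul_one, abs_zero, zero_div,
      sub_zero] at h
    rw [← Complex.ofReal_sum] at h
    exact Complex.ofReal_injective h
  · intro k hk1 hk2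
    rw [hm k, Finset.sum_eq_zero, zero_div]
    intro t ht
    apply Finset.sum_eq_zero
    intro t' ht'
    rw [Finset.mem_range] at ht ht'
    have hlt : |(t : ℤ) - t' + k| < N := by
      rw [abs_lt]
      rcases abs_cases k with ⟨h, _⟩ | ⟨h, _⟩ <;> constructor <;> omega
    rw [if_neg]
    rw [zero_iff_30 _ hlt]
    rcases abs_cases k with ⟨h, _⟩ | ⟨h, _⟩ <;> omega
  · intro h
    have hd := diff_30 (N := N) K h (by omega)
    have hp := pars_30 (N := N) K (by omega) (fun _ => 1)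
    simp only [norm_one, one_pow, Finset.sum_const, Finset.card_range, nsmul_eq_mul, mul_one] at hp
    have hp' : ∑ g : ZMod N, ‖Sf30 K (fun _ => 1) (g + (h : ZMod N))‖ ^ 2 = N * K := by
      rw [← hp]
      exact Fintype.sum_equiv (Equiv.addRight (h : ZMod N)) _ _ (fun _ => rfl)
    have h1 : ∀ g : ZMod N, |‖Sf30 K (fun _ => 1) (g + (h : ZMod N))‖ ^ 2 / ((N : ℝ) * K) -
        ‖Sf30 K (fun _ => 1) g‖ ^ 2 / (N * K)| ≤
        (‖Sf30 K (fun _ => 1) (g + (h : ZMod N)) - Sf30 K (fun _ => 1) g‖ *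
            ‖Sf30 K (fun _ => 1) (g + (h : ZMod N))‖ +
          ‖Sf30 K (fun _ => 1) (g + (h : ZMod N)) - Sf30 K (fun _ => 1) g‖ *
            ‖Sf30 K (fun _ => 1) g‖) / (N * K) := by
      intro g
      rw [← sub_div, abs_div, abs_of_pos (by positivity : (0 : ℝ) < N * K)]
      apply div_le_div_of_nonneg_right _ (by positivity)
      rw [sq_sub_sq, abs_mul, abs_of_nonneg (by positivity), ← mul_add, mul_comm]
      exact mul_le_mul_of_nonneg_right (abs_norm_sub_norm_le _ _) (by positivity)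
    have hcs : ∀ F G : ZMod N → ℝ, ∑ g, F g * G g ≤ √(∑ g, F g ^ 2) * √(∑ g, G g ^ 2) :=
      fun F G => Real.sum_mul_le_sqrt_mul_sqrt Finset.univ F G
    have hB : √(∑ g : ZMod N,
        ‖Sf30 K (fun _ => 1) (g + (h : ZMod N)) - Sf30 K (fun _ => 1) g‖ ^ 2) ≤
        √((N : ℝ) * K) * (2 * Real.pi * K * h / N) := by
      apply Real.sqrt_le_iff.mpr
      have hpi := Real.pi_pos
      refine ⟨by positivity, ?_⟩
      rw [mul_pow, Real.sq_sqrt (by positivity)]
      linarith
    have hpi := Real.pi_pos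
    calc ∑ g : ZMod N, |‖Sf30 K (fun _ => 1) (g + (h : ZMod N))‖ ^ 2 / ((N : ℝ) * K) -
          ‖Sf30 K (fun _ => 1) g‖ ^ 2 / (N * K)|
        ≤ ∑ g : ZMod N, (‖Sf30 K (fun _ => 1) (g + (h : ZMod N)) - Sf30 K (fun _ => 1) g‖ *
            ‖Sf30 K (fun _ => 1) (g + (h : ZMod N))‖ +
          ‖Sf30 K (fun _ => 1) (g + (h : ZMod N)) - Sf30 K (fun _ => 1) g‖ *
            ‖Sf30 K (fun _ => 1) g‖) / (N * K) := Finset.sum_le_sum (fun g _ => h1 g)
      _ = (∑ g : ZMod N, ‖Sf30 K (fun _ => 1) (g + (h : ZMod N)) - Sf30 K (fun _ => 1) g‖ *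
            ‖Sf30 K (fun _ => 1) (g + (h : ZMod N))‖ +
          ∑ g : ZMod N, ‖Sf30 K (fun _ => 1) (g + (h : ZMod N)) - Sf30 K (fun _ => 1) g‖ *
            ‖Sf30 K (fun _ => 1) g‖) / (N * K) := by
          rw [← Finset.sum_add_distrib, Finset.sum_div]
      _ ≤ (√((N : ℝ) * K) * (2 * Real.pi * K * h / N) * √((N : ℝ) * K) +
          √((N : ℝ) * K) * (2 * Real.pi * K * h / N) * √((N : ℝ) * K)) / (N * K) := by
          apply div_le_div_of_nonneg_right _ (by positivity)
          apply add_le_add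
          · refine (hcs _ _).trans ?_
            rw [hp']
            exact mul_le_mul_of_nonneg_right hB (Real.sqrt_nonneg _)
          · refine (hcs _ _).trans ?_
            rw [hp]
            exact mul_le_mul_of_nonneg_right hB (Real.sqrt_nonneg _)
      _ = 4 * Real.pi * K * h / N := by
          have e : √((N : ℝ) * K) * (2 * Real.pi * K * h / N) * √((N : ℝ) * K) =
              (N * K) * (2 * Real.pi * K * h / N) := by
            rw [mul_right_comm, Real.mul_self_sqrt (by positivity)]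
          rw [e]
          field_simp
          ring

end Pool.Agent.SBT
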