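import Pool.Agent.Lib.MP_a7b2aa_an.SBT.Op38

/-!
SBT, helper30: VP, EXT and BERK from FEJ.
-/

set_option autoImplicit false
set_option linter.unusedSectionVars false

namespace Pool.Agent.SBT

open Finset Pool.Agent.SB3

lemma sum_add_30 {N : ℕ} [NeZero N] (F : ZMod N → ℝ) (h : ZMod N) :
    ∑ g, F (g + h) = ∑ g, F g :=
  Fintype.sum_equiv (Equiv.addRight h) _ _ (fun _ => rfl)

theorem vp_30 (hF : StFej) : StVP := by
  intro N K _ hK hN
  obtain ⟨f1, h1a, h1b, h1c, h1d, h1e⟩ := hF N K hK (by omega)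
  obtain ⟨f2, h2a, h2b, h2c, h2d, h2e⟩ := hF N (2 * K) (by omega) (by omega)
  have hKR : (0 : ℝ) < (K : ℝ) := by exact_mod_cast hK
  have hmul : ∀ k : ℤ, ∑ g, ((2 * f2 g - f1 g : ℝ) : ℂ) *
      (ZMod.stdAddChar ((k : ZMod N) * g) : ℂ) =
      2 * (∑ g, (f2 g : ℂ) * (ZMod.stdAddChar ((k : ZMod N) * g) : ℂ)) -
        ∑ g, (f1 g : ℂ) * (ZMod.stdAddChar ((k : ZMod N) * g) : ℂ) := by
    intro k
    rw [Finset.mul_sum, ← Finset.sum_sub_distrib]
    apply Finset.sum_congr rfl
    intro g _
    push_cast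
    ring
  refine ⟨fun g => 2 * f2 g - f1 g, ?_, ?_, ?_, ?_⟩
  · calc ∑ g, |2 * f2 g - f1 g| ≤ ∑ g, (2 * f2 g + f1 g) := by
          apply Finset.sum_le_sum
          intro g _
          rw [abs_le]
          constructor
          · linarith [h1a g, h2a g]
          · linarith [h1a g, h2a g]
      _ = 3 := by
          rw [Finset.sum_add_distrib, ← Finset.mul_sum, h1b, h2b]
          norm_num
      _ ≤ 3 := le_rfl
  · intro k hk
    rw [hmul k, h1c k hk, h2c k (by push_cast; have := abs_nonneg k; omega)]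
    push_cast
    have hKC : (K : ℂ) ≠ 0 := by exact_mod_cast hKR.ne'
    field_simp
    ring
  · intro k hk1 hk2
    rw [hmul k, h1d k (by have := Int.natCast_nonneg K; omega) (by have := Int.natCast_nonneg K; omega),
      h2d k (by push_cast; exact hk1) (by push_cast; exact hk2)]
    ring
  · intro h
    calc ∑ g, |2 * f2 (g + (h : ZMod N)) - f1 (g + (h : ZMod N)) - (2 * f2 g - f1 g)|
        ≤ ∑ g, (2 * |f2 (g + (h : ZMod N)) - f2 g| + |f1 (g + (h : ZMod N)) - f1 g|) := by
          apply Finset.sum_le_sum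
          intro g _
          have e : 2 * f2 (g + (h : ZMod N)) - f1 (g + (h : ZMod N)) - (2 * f2 g - f1 g) =
            2 * (f2 (g + (h : ZMod N)) - f2 g) - (f1 (g + (h : ZMod N)) - f1 g) := by ring
          rw [e]
          refine (abs_sub _ _).trans ?_
          rw [abs_mul, abs_of_pos (by norm_num : (0 : ℝ) < 2)]
      _ ≤ 2 * (4 * Real.pi * ((2 * K : ℕ) : ℝ) * h / N) + 4 * Real.pi * K * h / N := by
          rw [Finset.sum_add_distrib, ← Finset.mul_sum]
          have := h1e h
          have := h2e h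
          linarith
      _ = 20 * Real.pi * K * h / N := by
          push_cast
          ring

theorem ext_30 (hV : StVP) : StExt := by
  intro a s hs hsa
  have hN1 : 4 * 2 ^ s ≤ 2 ^ a := by
    calc 4 * 2 ^ s = 2 ^ (s + 2) := by rw [pow_add]; ring
      _ ≤ 2 ^ a := Nat.pow_le_pow_right (by norm_num) (by omega)
  have hN2 : 4 * 2 ^ (s - 2) ≤ 2 ^ a := by
    refine le_trans ?_ hN1
    exact Nat.mul_le_mul_left 4 (Nat.pow_le_pow_right (by norm_num) (by omega))
  obtain ⟨v, hv1, hv2, hv3, -⟩ := hV (2 ^ a) (2 ^ s) Nat.one_le_two_pow hN1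
  obtain ⟨v', hv1', hv2', hv3', -⟩ := hV (2 ^ a) (2 ^ (s - 2)) Nat.one_le_two_pow hN2
  have hmul : ∀ k : ℤ, ∑ g, ((v g - v' g : ℝ) : ℂ) *
      (ZMod.stdAddChar ((k : ZMod (2 ^ a)) * g) : ℂ) =
      (∑ g, (v g : ℂ) * (ZMod.stdAddChar ((k : ZMod (2 ^ a)) * g) : ℂ)) -
        ∑ g, (v' g : ℂ) * (ZMod.stdAddChar ((k : ZMod (2 ^ a)) * g) : ℂ) := by
    intro k
    rw [← Finset.sum_sub_distrib]
    apply Finset.sum_congr rfl
    intro g _
    push_cast
    ring
  have e1 : (2 : ℤ) ^ s = 2 * 2 ^ (s - 1) := by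
    rw [← pow_succ']
    congr 1
    omega
  have e2 : (2 : ℤ) ^ (s - 1) = 2 * 2 ^ (s - 2) := by
    rw [← pow_succ']
    congr 1
    omega
  have e3 : (2 : ℤ) ^ (s + 1) = 2 * 2 ^ s := by
    rw [← pow_succ']
  have e4 : (8 : ℤ) * 2 ^ s ≤ 2 ^ a := by
    calc (8 : ℤ) * 2 ^ s = 2 ^ (s + 3) := by rw [pow_add]; ring
      _ ≤ 2 ^ a := pow_le_pow_right₀ (by norm_num) (by omega)
  have p2 : (0 : ℤ) < 2 ^ (s - 2) := by positivity
  refine ⟨fun g => v g - v' g, ?_, ?_, ?_⟩
  · calc ∑ g, |v g - v' g| ≤ ∑ g, (|v g| + |v' g|) := Finset.sum_le_sum (fun g _ => abs_sub _ _)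
      _ ≤ 6 := by
          rw [Finset.sum_add_distrib]
          linarith
  · intro k hk1 hk2
    rw [hmul k, hv2 k (by push_cast; omega), hv3' k (by push_cast; omega) (by push_cast; omega)]
    ring
  · intro k hk hk2 hk3
    rcases hk with hk | hk
    · rw [hmul k, hv2 k (by push_cast; omega), hv2' k (by push_cast; omega)]
      ring
    · rw [hmul k, hv3 k (by push_cast; omega) (by push_cast; omega),
        hv3' k (by push_cast; omega) (by push_cast; omega)]
      ring

theorem berK_30 (hV : StVP) : StBerK := by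
  intro ι _ _ a s X j A c hsa hXa hA
  classical
  have hPT : ∀ v : ZMod (2 ^ a) → ℝ, (∀ k ∈ A, mu38 v (k j) = 1) → ∀ u,
      PT (N := 2 ^ a) A c u = ∑ g, v g * PT (N := 2 ^ a) A c (sv j g u) := by
    intro v hv u
    have h0 := congrFun (Ko_PT_38 (N := 2 ^ a) j v A c) u
    unfold Ko38 at h0
    rw [h0]
    unfold PT
    congr 1
    apply Finset.sum_congr rfl
    intro k hk
    beta_reduce
    rw [hv k hk, mul_one]
  have hsvv : ∀ (g h : ZMod (2 ^ a)) (u : Tor ι (2 ^ a)), sv j g (sv j h u) = sv j (g + h) u := by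
    intro g h u
    unfold sv
    funext i
    by_cases hi : i = j
    · subst hi
      simp only [Function.update_self]
      ring
    · simp [Function.update_of_ne hi]
  rcases Nat.lt_or_ge X s with hXs | hXs
  · refine ⟨fun g => ((if g = Hs a X then 1 else 0) - (if g = -Hs a X then 1 else 0)) / 2, ?_, ?_⟩
    · calc ∑ g : ZMod (2 ^ a), |((if g = Hs a X then (1 : ℝ) else 0) -
            (if g = -Hs a X then 1 else 0)) / 2|
          ≤ ∑ g : ZMod (2 ^ a), ((if g = Hs a X then (1 : ℝ) else 0) +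
            (if g = -Hs a X then 1 else 0)) := by
            apply Finset.sum_le_sum
            intro g _
            split_ifs <;> norm_num
        _ = 2 := by
            rw [Finset.sum_add_distrib]
            simp
            norm_num
        _ ≤ 32 * (1 / 2 : ℝ) ^ (X - s) := by
            rw [Nat.sub_eq_zero_of_le hXs.le]
            norm_num
    · intro u
      unfold dT
      have e : ∀ g : ZMod (2 ^ a), ((if g = Hs a X then (1 : ℝ) else 0) -
          (if g = -Hs a X then 1 else 0)) / 2 * PT (N := 2 ^ a) A c (sv j g u) =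
          (if g = Hs a X then PT (N := 2 ^ a) A c (sv j g u) / 2 else 0) -
            (if g = -Hs a X then PT (N := 2 ^ a) A c (sv j g u) / 2 else 0) := by
        intro g
        split_ifs <;> ring
      simp_rw [e]
      rw [Finset.sum_sub_distrib]
      simp
      ring
  · have hN : 4 * 2 ^ s ≤ 2 ^ a := by
      calc 4 * 2 ^ s = 2 ^ (s + 2) := by rw [pow_add]; ring
        _ ≤ 2 ^ a := Nat.pow_le_pow_right (by norm_num) (by omega)
    obtain ⟨v, hv1, hv2, hv3, hv4⟩ := hV (2 ^ a) (2 ^ s) Nat.one_le_two_pow hN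
    have hPv := hPT v (by
      intro k hk
      exact hv2 (k j) (by push_cast; exact (hA k hk).le))
    refine ⟨fun g => (v (g - Hs a X) - v (g + Hs a X)) / 2, ?_, ?_⟩
    · have h2 : (((2 * 2 ^ (a - X - 2) : ℕ) : ℕ) : ZMod (2 ^ a)) = Hs a X + Hs a X := by
        unfold Hs
        push_cast
        ring
      have h3 := hv4 (2 * 2 ^ (a - X - 2))
      rw [h2] at h3
      have h4 : ∑ g, |(v (g - Hs a X) - v (g + Hs a X)) / 2| =
          (∑ g, |v (g + (Hs a X + Hs a X)) - v g|) / 2 := by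
        rw [← sum_add_30 (fun g => |(v (g - Hs a X) - v (g + Hs a X)) / 2|) (Hs a X),
          Finset.sum_div]
        apply Finset.sum_congr rfl
        intro g _
        rw [add_sub_cancel_right, add_assoc, abs_div, abs_of_pos (by norm_num : (0 : ℝ) < 2),
          abs_sub_comm]
      rw [h4]
      have h5 : 20 * Real.pi * ((2 ^ s : ℕ) : ℝ) * ((2 * 2 ^ (a - X - 2) : ℕ) : ℝ) /
          ((2 ^ a : ℕ) : ℝ) = 10 * Real.pi * (1 / 2 : ℝ) ^ (X - s) := by
        push_cast
        have e1 : (2 : ℝ) ^ a = 2 ^ (a - X - 2) * (2 ^ s * 2 ^ (X - s)) * 4 := by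
          rw [← pow_add, ← pow_add]
          have : (4 : ℝ) = 2 ^ 2 := by norm_num
          rw [this, ← pow_add]
          congr 1
          omega
        rw [e1, div_pow, one_pow]
        have p1 : (0 : ℝ) < 2 ^ (a - X - 2) := by positivity
        have p2 : (0 : ℝ) < 2 ^ s := by positivity
        have p3 : (0 : ℝ) < 2 ^ (X - s) := by positivity
        field_simp
        ring
      rw [h5] at h3
      have hpi : Real.pi ≤ 4 := Real.pi_le_four
      have p4 : (0 : ℝ) < (1 / 2 : ℝ) ^ (X - s) := by positivity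
      nlinarith
    · intro u
      unfold dT
      rw [hPv (sv j (Hs a X) u), hPv (sv j (-Hs a X) u)]
      simp_rw [hsvv]
      have e1 : ∑ g, v g * PT (N := 2 ^ a) A c (sv j (g + Hs a X) u) =
          ∑ g, v (g - Hs a X) * PT (N := 2 ^ a) A c (sv j g u) := by
        rw [← sum_add_30 (fun g => v (g - Hs a X) * PT (N := 2 ^ a) A c (sv j g u)) (Hs a X)]
        apply Finset.sum_congr rfl
        intro g _
        rw [add_sub_cancel_right]
      have e2 : ∑ g, v g * PT (N := 2 ^ a) A c (sv j (g + -Hs a X) u) =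
          ∑ g, v (g + Hs a X) * PT (N := 2 ^ a) A c (sv j g u) := by
        rw [← sum_add_30 (fun g => v (g + Hs a X) * PT (N := 2 ^ a) A c (sv j g u)) (-Hs a X)]
        apply Finset.sum_congr rfl
        intro g _
        rw [neg_add_cancel_right]
      rw [e1, e2, ← Finset.sum_sub_distrib, Finset.sum_div]
      apply Finset.sum_congr rfl
      intro g _
      ring

end Pool.Agent.SBT
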