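import Pool.Agent.Lib.MP_a7b2aa_an.SBT.Finals30

/-!
SBT, module FINAL (helper30): from the discrete torus to the torus, single logarithm.
-/

set_option autoImplicit false

namespace Pool.Agent.SBT

open Finset MeasureTheory

theorem final_30 (hD : StDisc) (hA : StAvg) : StFinal := by
  obtain ⟨C, hC, hD⟩ := hD
  refine ⟨1 / (2 * C), by positivity, fun m c hm => ?_⟩
  set N : ℕ := 2 ^ (2 * m + 3) with hN
  have hN1 : 1 ≤ N := Nat.one_le_two_pow
  have : NeZero N := ⟨by omega⟩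
  set A := Finset.Nat.antidiagonalTuple 3 m with hAdef
  set f : (Fin 3 → ℝ) → ℂ := fun x => ∑ l ∈ A, blockPoly c l x with hf
  set S : ℝ := ⨆ x : Fin 3 → ℝ, ‖f x‖ with hS
  -- boundedness
  have hbd : BddAbove (Set.range fun x : Fin 3 → ℝ => ‖f x‖) := by
    refine ⟨∑ l ∈ A, ∑ k ∈ blk l, ‖c k‖, ?_⟩
    rintro _ ⟨x, rfl⟩
    refine (norm_sum_le _ _).trans (sum_le_sum fun l _ => ?_)
    unfold blockPoly
    refine (norm_sum_le _ _).trans (sum_le_sum fun k _ => ?_)
    rw [norm_mul, ← Complex.ofReal_sum, mul_comm Complex.I, Complex.norm_exp_ofReal_mul_I, mul_one]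
  have hfS : ∀ x, ‖f x‖ ≤ S := fun x => le_ciSup hbd x
  have hS0 : 0 ≤ S := (norm_nonneg _).trans (hfS 0)
  -- averaging
  set φ : (Fin 3 → ℝ) → ℝ := fun x => ∑ l ∈ A, ‖blockPoly c l x‖ with hφ
  have hφc : Continuous φ := continuous_finsetSum _ fun l _ => (blockPoly_cont30 c l).norm
  obtain ⟨v, hv⟩ := hA N φ hN1 hφc (fun x j => by simp only [hφ, blockPoly_per30])
  have hnorm : ∑ l ∈ A, norm1 (blockPoly c l) = (1 / (2 * Real.pi)) ^ 3 *
      (∫ x in Set.pi Set.univ (fun _ : Fin 3 => Set.Icc (0 : ℝ) (2 * Real.pi)), φ x) := by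
    simp only [hφ, norm1]
    rw [integral_finsetSum, mul_sum]
    intro l _
    exact (blockPoly_cont30 c l).norm.continuousOn.integrableOn_compact
      (isCompact_univ_pi fun _ => isCompact_Icc)
  rw [← hnorm] at hv
  -- reindexing
  have hre : ∑ g : Fin 3 → Fin N, φ (fun j => v j + 2 * Real.pi * (g j : ℕ) / N) =
      ∑ u : Fin 3 → ZMod N, φ (fun j => v j + 2 * Real.pi * ((u j).val : ℕ) / N) := by
    symm
    refine Fintype.sum_bijective (fun u : Fin 3 → ZMod N => fun j => (⟨(u j).val, ZMod.val_lt _⟩ : Fin N))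
      ?_ _ _ (fun u => rfl)
    rw [Fintype.bijective_iff_injective_and_card]
    refine ⟨fun u u' h => ?_, by simp⟩
    funext j
    have := congrFun h j
    simp only [Fin.mk.injEq] at this
    exact ZMod.val_injective N this
  rw [hre] at hv
  -- the two applications
  have hpt : ∀ u : Fin 3 → ZMod N, φ (fun j => v j + 2 * Real.pi * ((u j).val : ℕ) / N) ≤
      ∑ l ∈ A, (|PT (blk l) (cv30 v 1 c) u| + |PT (blk l) (cv30 v (-Complex.I) c) u|) := by
    intro u
    refine sum_le_sum fun l _ => ?_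
    rw [← blockPoly_grid30, ← blockPoly_grid30]
    refine (Complex.norm_le_abs_re_add_abs_im _).trans (le_of_eq ?_)
    simp
  have hF : ∀ (w : ℂ), ‖w‖ ≤ 1 → ∀ u, |Fm m (cv30 v w c) u| ≤ S := by
    intro w hw u
    unfold Fm
    have h1 : ∑ l ∈ Finset.Nat.antidiagonalTuple 3 m, PT (blk l) (cv30 v w c) u =
        (w * f (fun j => v j + 2 * Real.pi * ((u j).val : ℕ) / N)).re := by
      simp only [hf]
      rw [mul_sum, Complex.re_sum]
      exact sum_congr rfl fun l _ => (blockPoly_grid30 _ _ _ _ _).symm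
    rw [h1]
    refine (Complex.abs_re_le_norm _).trans ?_
    rw [norm_mul]
    calc ‖w‖ * _ ≤ 1 * S := mul_le_mul hw (hfS _) (norm_nonneg _) zero_le_one
      _ = S := one_mul S
  have h1 := hD m (cv30 v 1 c) S hm (hF 1 (by simp))
  have h2 := hD m (cv30 v (-Complex.I) c) S hm (hF (-Complex.I) (by simp))
  have hsum : ∑ u : Fin 3 → ZMod N, φ (fun j => v j + 2 * Real.pi * ((u j).val : ℕ) / N) ≤
      ∑ l ∈ A, S1 (N := N) (PT (blk l) (cv30 v 1 c)) +
      ∑ l ∈ A, S1 (N := N) (PT (blk l) (cv30 v (-Complex.I) c)) := by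
    refine (sum_le_sum fun u _ => hpt u).trans (le_of_eq ?_)
    rw [sum_comm, ← sum_add_distrib]
    refine sum_congr rfl fun l _ => ?_
    rw [sum_add_distrib]
    rfl
  have hNpos : (0 : ℝ) < (N : ℝ) ^ 3 := by positivity
  have hNc : ((2 : ℝ) ^ (2 * m + 3)) ^ 3 = (N : ℝ) ^ 3 := by rw [hN]; push_cast; ring
  have h3 : (∑ l ∈ A, norm1 (blockPoly c l)) * (N : ℝ) ^ 3 ≤
      2 * (C * Real.sqrt (2 * m) * Real.log (2 * m + 1) * S) * (N : ℝ) ^ 3 := by
    refine hv.trans (hsum.trans ?_)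
    rw [hNc] at h1 h2
    linarith
  have h4 := le_of_mul_le_mul_right h3 hNpos
  have h5 : ((2 * m : ℕ) : ℝ) ^ ((1 : ℝ) / 2) = Real.sqrt (2 * m) := by
    rw [Real.sqrt_eq_rpow]
    push_cast
    rfl
  rw [h5]
  calc 1 / (2 * C) * ∑ l ∈ A, norm1 (blockPoly c l)
      ≤ 1 / (2 * C) * (2 * (C * Real.sqrt (2 * m) * Real.log (2 * m + 1) * S)) :=
        mul_le_mul_of_nonneg_left h4 (by positivity)
    _ = Real.sqrt (2 * m) * Real.log (2 * m + 1) * S := by
        field_simp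

end Pool.Agent.SBT
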