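import Pool.Agent.Lib.MP_a7b2aa_an.SBT.Cfb33

/-!
SBT, module LEV1: expansion of the leak.
-/

set_option autoImplicit false

namespace Pool.Agent.SBT

open Finset Pool.Agent.SB3

theorem Ey_swap36 {L : ℕ} (i p : ℕ) (K : Y L → Y L → ℝ) (x y : Y L) :
    Ey p (fun y' => Ey i (fun x' => K x' y') x) y = Ey i (fun x' => Ey p (fun y' => K x' y') y) x := by
  have h1 : ∀ (j : ℕ) (φ : Y L → ℝ) (u : Y L), Ey j φ u =
      ∑ u' : Y L, ((if pre j u' = pre j u then (1 : ℝ) else 0) / 2 ^ (L - j)) * φ u' := by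
    intro j φ u
    unfold Ey
    rw [Finset.sum_div]
    apply Finset.sum_congr rfl
    intro u' _
    split_ifs <;> ring
  rw [h1 p, h1 i]
  simp only [h1 i, h1 p, Finset.mul_sum]
  rw [Finset.sum_comm]
  apply Finset.sum_congr rfl
  intro a _
  apply Finset.sum_congr rfl
  intro b _
  ring

theorem tel36 {L : ℕ} (φ : Y L → ℝ) (x : Y L) (p : ℕ) (hp : p ≤ L) :
    φ x - Ey p φ x = ∑ p' ∈ Ico p L, sgr (bit x p') * Ey p' (fun x' => sgr (bit x' p') * φ x') x := by
  have h1 : ∀ k : ℕ, p + k ≤ L → Ey (p + k) φ x - Ey p φ x =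
      ∑ p' ∈ Ico p (p + k), sgr (bit x p') * Ey p' (fun x' => sgr (bit x' p') * φ x') x := by
    intro k
    induction k with
    | zero => intro _; simp
    | succ k ih =>
      intro hk
      rw [← add_assoc, Finset.sum_Ico_succ_top (by omega), ← ih (by omega),
        ← Ey_diff33 (by omega : p + k < L)]
      ring
  have h2 := h1 (L - p) (by omega)
  have h3 : p + (L - p) = L := by omega
  rw [h3, Ey_top33 le_rfl] at h2
  exact h2

/-- the expansion of the part beyond `(p, q)` -/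
theorem Dm_eq36 {L : ℕ} (φ : Y L → Y L → ℝ) (p q : ℕ) (hp : p ≤ L) (hq : q ≤ L) (y z : Y L) :
    Dm p q φ y z = ∑ p' ∈ Ico p L, ∑ q' ∈ Ico q L, sgr (bit y p') * sgr (bit z q') *
      Ey p' (fun y' => Ey q' (fun z' => sgr (bit y' p') * sgr (bit z' q') * φ y' z') z) y := by
  have h1 : Dm p q φ y z = (fun y' => φ y' z - Ey q (φ y') z) y -
      Ey p (fun y' => φ y' z - Ey q (φ y') z) y := by
    rw [Ey_sub33 p (fun y' => φ y' z) (fun y' => Ey q (φ y') z)]
    unfold Dm
    ring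
  rw [h1, tel36 (fun y' => φ y' z - Ey q (φ y') z) y p hp]
  apply Finset.sum_congr rfl
  intro p' _
  have h2 : (fun y' : Y L => sgr (bit y' p') * (φ y' z - Ey q (φ y') z)) =
      fun y' => ∑ q' ∈ Ico q L, sgr (bit z q') *
        Ey q' (fun z' => sgr (bit y' p') * sgr (bit z' q') * φ y' z') z := by
    funext y'
    rw [tel36 (φ y') z q hq, Finset.mul_sum]
    apply Finset.sum_congr rfl
    intro q' _
    have h3 : (fun z' : Y L => sgr (bit y' p') * sgr (bit z' q') * φ y' z') =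
        fun z' => sgr (bit y' p') * (sgr (bit z' q') * φ y' z') := by
      funext z'
      ring
    rw [h3, Ey_cmul33]
    ring
  rw [h2, Ey_Sum33, Finset.mul_sum]
  apply Finset.sum_congr rfl
  intro q' _
  rw [Ey_cmul33]
  ring

theorem cf_Mx36 {L : ℕ} (H : Y L → Y L → Y L → ℝ) (i p q : ℕ) (x y z : Y L) :
    Ey p (fun y' => Ey q (fun z' => sgr (bit y' p) * sgr (bit z' q) * Mx H i x y' z') z) y =
      cf H i p q x y z := by
  have h1 : ∀ y' : Y L, Ey q (fun z' => sgr (bit y' p) * sgr (bit z' q) * Mx H i x y' z') z =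
      Ey i (fun x' => Ey q (fun z' => sgr (bit x' i) * sgr (bit y' p) * sgr (bit z' q) *
        H x' y' z') z) x := by
    intro y'
    rw [← Ey_swap36 i q (fun x' z' => sgr (bit x' i) * sgr (bit y' p) * sgr (bit z' q) *
      H x' y' z')]
    congr 1
    funext z'
    unfold Mx
    rw [← Ey_cmul33]
    congr 1
    funext x'
    ring
  unfold cf
  rw [← Ey_swap36 i p (fun x' y' => Ey q (fun z' => sgr (bit x' i) * sgr (bit y' p) *
    sgr (bit z' q) * H x' y' z') z)]
  congr 1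
  funext y'
  exact h1 y'

theorem Dm_Mx36 {L : ℕ} (H : Y L → Y L → Y L → ℝ) (i p q : ℕ) (hp : p ≤ L) (hq : q ≤ L)
    (x y z : Y L) :
    Dm p q (fun y' z' => Mx H i x y' z') y z = ∑ p' ∈ Ico p L, ∑ q' ∈ Ico q L,
      sgr (bit y p') * sgr (bit z q') * cf H i p' q' x y z := by
  rw [Dm_eq36 _ p q hp hq]
  apply Finset.sum_congr rfl
  intro p' _
  apply Finset.sum_congr rfl
  intro q' _
  rw [cf_Mx36]

theorem abs_sgr36 (b : Bool) : |sgr b| = 1 := by
  cases b <;> simp [sgr]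

theorem lev1_36 : StLev1 := by
  intro L H p q x y z hpq
  set I := L - 1 - p - q with hI
  set T : ℕ → ℝ := fun i' => ∑ p' ∈ Ico p L, ∑ q' ∈ Ico q L,
    if i' = I ∧ p' = p ∧ q' = q then 0 else |cf H i' p' q' x y z| with hT
  have hT0 : ∀ i', 0 ≤ T i' := by
    intro i'
    apply Finset.sum_nonneg
    intro p' _
    apply Finset.sum_nonneg
    intro q' _
    split_ifs
    · exact le_rfl
    · exact abs_nonneg _
  have h1 : ∀ i', i' ≠ I → |Dm p q (fun y' z' => Mx H i' x y' z') y z| ≤ T i' := by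
    intro i' hi'
    rw [Dm_Mx36 H i' p q (by omega) (by omega)]
    refine (Finset.abs_sum_le_sum_abs _ _).trans ?_
    apply Finset.sum_le_sum
    intro p' _
    refine (Finset.abs_sum_le_sum_abs _ _).trans ?_
    apply Finset.sum_le_sum
    intro q' _
    rw [if_neg (fun h => hi' h.1), abs_mul, abs_mul, abs_sgr36, abs_sgr36, one_mul, one_mul]
  have h2 : |Dm p q (fun y' z' => Mx H I x y' z') y z -
      sgr (bit y p) * sgr (bit z q) * cf H I p q x y z| ≤ T I := by
    have e1 : Dm p q (fun y' z' => Mx H I x y' z') y z -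
        sgr (bit y p) * sgr (bit z q) * cf H I p q x y z =
        ∑ p' ∈ Ico p L, ∑ q' ∈ Ico q L, (if p' = p ∧ q' = q then 0 else
          sgr (bit y p') * sgr (bit z q') * cf H I p' q' x y z) := by
      have e2 : sgr (bit y p) * sgr (bit z q) * cf H I p q x y z =
          ∑ p' ∈ Ico p L, ∑ q' ∈ Ico q L, (if p' = p ∧ q' = q then
            sgr (bit y p') * sgr (bit z q') * cf H I p' q' x y z else 0) := by
        rw [Finset.sum_eq_single p]
        · rw [Finset.sum_eq_single q]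
          · rw [if_pos ⟨rfl, rfl⟩]
          · intro q' _ hq'
            rw [if_neg (fun h => hq' h.2)]
          · intro h
            exact absurd (Finset.mem_Ico.2 ⟨le_rfl, by omega⟩) h
        · intro p' _ hp'
          apply Finset.sum_eq_zero
          intro q' _
          rw [if_neg (fun h => hp' h.1)]
        · intro h
          exact absurd (Finset.mem_Ico.2 ⟨le_rfl, by omega⟩) h
      rw [e2, Dm_Mx36 H I p q (by omega) (by omega), ← Finset.sum_sub_distrib]
      apply Finset.sum_congr rfl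
      intro p' _
      rw [← Finset.sum_sub_distrib]
      apply Finset.sum_congr rfl
      intro q' _
      split_ifs <;> ring
    rw [e1]
    refine (Finset.abs_sum_le_sum_abs _ _).trans ?_
    apply Finset.sum_le_sum
    intro p' _
    refine (Finset.abs_sum_le_sum_abs _ _).trans ?_
    apply Finset.sum_le_sum
    intro q' _
    by_cases h : p' = p ∧ q' = q
    · rw [if_pos h, if_pos ⟨rfl, h⟩, abs_zero]
    · rw [if_neg h, if_neg (fun h' => h h'.2), abs_mul, abs_mul, abs_sgr36, abs_sgr36, one_mul,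
        one_mul]
  have h3 : Lk H p q x y z ≤ ∑ t ∈ range (q + 1), T (L - 1 - p - t) := by
    unfold Lk
    rw [Finset.sum_range_succ]
    apply add_le_add
    · apply Finset.sum_le_sum
      intro t ht
      rw [Finset.mem_range] at ht
      exact h1 _ (by omega)
    · exact h2
  refine h3.trans ?_
  have h4 : ∑ t ∈ range (q + 1), T (L - 1 - p - t) =
      ∑ i' ∈ (range (q + 1)).image (fun t => L - 1 - p - t), T i' := by
    rw [Finset.sum_image]
    intro a ha b hb hab
    simp only [Finset.coe_range, Set.mem_Iio] at ha hb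
    simp only at hab
    omega
  rw [h4]
  apply Finset.sum_le_sum_of_subset_of_nonneg
  · intro i' hi'
    rw [Finset.mem_image] at hi'
    obtain ⟨t, ht, rfl⟩ := hi'
    rw [Finset.mem_range] at ht
    rw [Finset.mem_Ico]
    omega
  · intro i' _ _
    exact hT0 i'

/-! ### LEV2 -/

theorem Ey_fine36 {L : ℕ} (ψ : Y L → ℝ) (hψ : ∀ x, 0 ≤ ψ x) {i i' : ℕ} (hi : i ≤ i') (hL : i' ≤ L)
    {x x' : Y L} (h : pre i x' = pre i x) : Ey i' ψ x' ≤ 2 ^ (i' - i) * Ey i ψ x := by
  have h1 : Sy33 i' ψ x' ≤ Sy33 i ψ x := by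
    unfold Sy33
    apply Finset.sum_le_sum
    intro u _
    by_cases h2 : pre i' u = pre i' x'
    · rw [if_pos h2, if_pos ((pre_mono33 hi h2).trans h)]
    · rw [if_neg h2]
      split_ifs
      · exact hψ u
      · exact le_rfl
  rw [Ey_eq33, Ey_eq33]
  have h2 : (2 : ℝ) ^ (L - i) = 2 ^ (i' - i) * 2 ^ (L - i') := by
    rw [← pow_add]
    congr 1
    omega
  rw [h2, ← mul_div_assoc, mul_div_mul_left _ _ (by positivity)]
  exact div_le_div_of_nonneg_right h1 (by positivity)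

theorem Ey_nonneg36 {L : ℕ} (i : ℕ) (ψ : Y L → ℝ) (hψ : ∀ x, 0 ≤ ψ x) (x : Y L) :
    0 ≤ Ey i ψ x := by
  have h := Ey_mono33 i (fun _ => (0 : ℝ)) ψ hψ x
  rwa [Ey_const33] at h

theorem Ey3_fine36 {L : ℕ} (ψ : Y L → Y L → Y L → ℝ) (hψ : ∀ x y z, 0 ≤ ψ x y z)
    {i i' p p' q q' : ℕ} (hi : i ≤ i') (hiL : i' ≤ L) (hp : p ≤ p') (hpL : p' ≤ L) (hq : q ≤ q')
    (hqL : q' ≤ L) {x x' y y' z z' : Y L} (hx : pre i x' = pre i x) (hy : pre p y' = pre p y)
    (hz : pre q z' = pre q z) :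
    Ey i' (fun a => Ey p' (fun b => Ey q' (fun c => ψ a b c) z') y') x' ≤
      2 ^ ((i' - i) + (p' - p) + (q' - q)) *
        Ey i (fun a => Ey p (fun b => Ey q (fun c => ψ a b c) z) y) x := by
  have h1 : ∀ a b, Ey q' (fun c => ψ a b c) z' ≤ 2 ^ (q' - q) * Ey q (fun c => ψ a b c) z :=
    fun a b => Ey_fine36 (ψ a b) (hψ a b) hq hqL hz
  have h2 : ∀ a, Ey p' (fun b => Ey q' (fun c => ψ a b c) z') y' ≤
      2 ^ (p' - p) * (2 ^ (q' - q) * Ey p (fun b => Ey q (fun c => ψ a b c) z) y) := by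
    intro a
    refine (Ey_mono33 p' _ _ (h1 a) y').trans ?_
    rw [Ey_cmul33]
    have h3 := Ey_fine36 (fun b => Ey q (fun c => ψ a b c) z)
      (fun b => Ey_nonneg36 q _ (hψ a b) z) hp hpL hy
    have h4 : (0 : ℝ) ≤ 2 ^ (q' - q) := by positivity
    have h5 := mul_le_mul_of_nonneg_left h3 h4
    calc 2 ^ (q' - q) * Ey p' (fun b => Ey q (fun c => ψ a b c) z) y' ≤
        2 ^ (q' - q) * (2 ^ (p' - p) * Ey p (fun b => Ey q (fun c => ψ a b c) z) y) := h5
      _ = 2 ^ (p' - p) * (2 ^ (q' - q) * Ey p (fun b => Ey q (fun c => ψ a b c) z) y) := by ring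
  refine (Ey_mono33 i' _ _ h2 x').trans ?_
  rw [Ey_cmul33, Ey_cmul33]
  have h3 := Ey_fine36 (fun a => Ey p (fun b => Ey q (fun c => ψ a b c) z) y)
    (fun a => Ey_nonneg36 p _ (fun b => Ey_nonneg36 q _ (hψ a b) z) y) hi hiL hx
  have h4 : (0 : ℝ) ≤ 2 ^ (p' - p) * 2 ^ (q' - q) := by positivity
  have h5 := mul_le_mul_of_nonneg_left h3 h4
  calc 2 ^ (p' - p) * (2 ^ (q' - q) *
        Ey i' (fun a => Ey p (fun b => Ey q (fun c => ψ a b c) z) y) x')
      = 2 ^ (p' - p) * 2 ^ (q' - q) *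
        Ey i' (fun a => Ey p (fun b => Ey q (fun c => ψ a b c) z) y) x' := by ring
    _ ≤ 2 ^ (p' - p) * 2 ^ (q' - q) * (2 ^ (i' - i) *
        Ey i (fun a => Ey p (fun b => Ey q (fun c => ψ a b c) z) y) x) := h5
    _ = _ := by rw [pow_add, pow_add]; ring

theorem abs_cf_le36 {L : ℕ} (H : Y L → Y L → Y L → ℝ) {i p q : ℕ} (hi : i < L) (hp : p < L)
    (hq : q < L) (x y z : Y L) : |cf H i p q x y z| ≤
      Ey i (fun a => Ey p (fun b => Ey q (fun c => |d3 H i p q a b c|) z) y) x := by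
  rw [cf_eq33 H hi hp hq]
  refine (Ey_abs33 i _ x).trans (Ey_mono33 i _ _ (fun a => ?_) x)
  refine (Ey_abs33 p _ y).trans (Ey_mono33 p _ _ (fun b => ?_) y)
  exact Ey_abs33 q _ z

theorem Ey3_sum36 {L : ℕ} (ψ : Y L → Y L → Y L → ℝ) (i p q : ℕ) :
    ∑ x, ∑ y, ∑ z, Ey i (fun a => Ey p (fun b => Ey q (fun c => ψ a b c) z) y) x =
      ∑ x, ∑ y, ∑ z, ψ x y z := by
  have h1 : ∀ (φ : Y L → ℝ) (j : ℕ), ∑ x, Ey j φ x = ∑ x, φ x := fun φ j =>
    Ey_sum33 φ L j (by omega)
  have h2 : ∀ x, ∑ y, ∑ z, Ey i (fun a => Ey p (fun b => Ey q (fun c => ψ a b c) z) y) x =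
      Ey i (fun a => ∑ y, ∑ z, Ey p (fun b => Ey q (fun c => ψ a b c) z) y) x := by
    intro x
    rw [Ey_Sum33 Finset.univ i (fun y a => ∑ z, Ey p (fun b => Ey q (fun c => ψ a b c) z) y) x]
    apply Finset.sum_congr rfl
    intro y _
    rw [Ey_Sum33 Finset.univ i (fun z a => Ey p (fun b => Ey q (fun c => ψ a b c) z) y) x]
  rw [Finset.sum_congr rfl (fun x _ => h2 x), h1]
  apply Finset.sum_congr rfl
  intro x _
  have h3 : ∀ y, ∑ z, Ey p (fun b => Ey q (fun c => ψ x b c) z) y =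
      Ey p (fun b => ∑ z, Ey q (fun c => ψ x b c) z) y := by
    intro y
    rw [Ey_Sum33 Finset.univ p (fun z b => Ey q (fun c => ψ x b c) z) y]
  rw [Finset.sum_congr rfl (fun y _ => h3 y), h1]
  apply Finset.sum_congr rfl
  intro y _
  exact h1 _ _

theorem lev2_36 : StLev2 := by
  intro L H p q hpq
  set I := L - 1 - p - q with hI
  refine ⟨fun x y z => ∑ i' ∈ Ico I L, ∑ p' ∈ Ico p L, ∑ q' ∈ Ico q L,
    if i' = I ∧ p' = p ∧ q' = q then 0 else 2 ^ ((i' - I) + (p' - p) + (q' - q)) *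
      Ey I (fun a => Ey p (fun b => Ey q (fun c => |d3 H i' p' q' a b c|) z) y) x, ?_, ?_⟩
  · intro x y z x' y' z' hx hy hz
    refine (lev1_36 L H p q x' y' z' hpq).trans ?_
    apply Finset.sum_le_sum
    intro i' hi'
    apply Finset.sum_le_sum
    intro p' hp'
    apply Finset.sum_le_sum
    intro q' hq'
    rw [Finset.mem_Ico] at hi' hp' hq'
    split_ifs with h
    · exact le_rfl
    · exact (abs_cf_le36 H hi'.2 hp'.2 hq'.2 x' y' z').trans
        (Ey3_fine36 (fun a b c => |d3 H i' p' q' a b c|) (fun _ _ _ => abs_nonneg _) hi'.1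
          hi'.2.le hp'.1 hp'.2.le hq'.1 hq'.2.le hx hy hz)
  · have h1 : ∀ x y, ∑ z, ∑ i' ∈ Ico I L, ∑ p' ∈ Ico p L, ∑ q' ∈ Ico q L,
        (if i' = I ∧ p' = p ∧ q' = q then (0 : ℝ) else 2 ^ ((i' - I) + (p' - p) + (q' - q)) *
          Ey I (fun a => Ey p (fun b => Ey q (fun c => |d3 H i' p' q' a b c|) z) y) x) =
        ∑ i' ∈ Ico I L, ∑ p' ∈ Ico p L, ∑ q' ∈ Ico q L,
        (if i' = I ∧ p' = p ∧ q' = q then (0 : ℝ) else 2 ^ ((i' - I) + (p' - p) + (q' - q)) *
          ∑ z, Ey I (fun a => Ey p (fun b => Ey q (fun c => |d3 H i' p' q' a b c|) z) y) x) := by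
      intro x y
      rw [Finset.sum_comm]
      apply Finset.sum_congr rfl
      intro i' _
      rw [Finset.sum_comm]
      apply Finset.sum_congr rfl
      intro p' _
      rw [Finset.sum_comm]
      apply Finset.sum_congr rfl
      intro q' _
      split_ifs with h
      · exact Finset.sum_const_zero
      · rw [Finset.mul_sum]
    have h2 : ∀ x, ∑ y, ∑ i' ∈ Ico I L, ∑ p' ∈ Ico p L, ∑ q' ∈ Ico q L,
        (if i' = I ∧ p' = p ∧ q' = q then (0 : ℝ) else 2 ^ ((i' - I) + (p' - p) + (q' - q)) *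
          ∑ z, Ey I (fun a => Ey p (fun b => Ey q (fun c => |d3 H i' p' q' a b c|) z) y) x) =
        ∑ i' ∈ Ico I L, ∑ p' ∈ Ico p L, ∑ q' ∈ Ico q L,
        (if i' = I ∧ p' = p ∧ q' = q then (0 : ℝ) else 2 ^ ((i' - I) + (p' - p) + (q' - q)) *
          ∑ y, ∑ z, Ey I (fun a => Ey p (fun b => Ey q (fun c => |d3 H i' p' q' a b c|) z) y)
            x) := by
      intro x
      rw [Finset.sum_comm]
      apply Finset.sum_congr rfl
      intro i' _
      rw [Finset.sum_comm]
      apply Finset.sum_congr rfl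
      intro p' _
      rw [Finset.sum_comm]
      apply Finset.sum_congr rfl
      intro q' _
      split_ifs with h
      · exact Finset.sum_const_zero
      · rw [Finset.mul_sum]
    have h3 : ∑ x, ∑ i' ∈ Ico I L, ∑ p' ∈ Ico p L, ∑ q' ∈ Ico q L,
        (if i' = I ∧ p' = p ∧ q' = q then (0 : ℝ) else 2 ^ ((i' - I) + (p' - p) + (q' - q)) *
          ∑ y, ∑ z, Ey I (fun a => Ey p (fun b => Ey q (fun c => |d3 H i' p' q' a b c|) z) y)
            x) =
        ∑ i' ∈ Ico I L, ∑ p' ∈ Ico p L, ∑ q' ∈ Ico q L,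
        (if i' = I ∧ p' = p ∧ q' = q then (0 : ℝ) else 2 ^ ((i' - I) + (p' - p) + (q' - q)) *
          ∑ x, ∑ y, ∑ z, Ey I (fun a => Ey p (fun b => Ey q
            (fun c => |d3 H i' p' q' a b c|) z) y) x) := by
      rw [Finset.sum_comm]
      apply Finset.sum_congr rfl
      intro i' _
      rw [Finset.sum_comm]
      apply Finset.sum_congr rfl
      intro p' _
      rw [Finset.sum_comm]
      apply Finset.sum_congr rfl
      intro q' _
      split_ifs with h
      · exact Finset.sum_const_zero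
      · rw [Finset.mul_sum]
    simp only [h1, h2]
    rw [h3]
    apply le_of_eq
    unfold B3
    rw [Finset.mul_sum]
    apply Finset.sum_congr rfl
    intro i' _
    rw [Finset.mul_sum]
    apply Finset.sum_congr rfl
    intro p' _
    rw [Finset.mul_sum]
    apply Finset.sum_congr rfl
    intro q' _
    split_ifs with h
    · rw [mul_zero]
    · rw [Ey3_sum36 (fun a b c => |d3 H i' p' q' a b c|)]
      unfold A3
      have h8 : (8 : ℝ) ^ L ≠ 0 := by positivity
      field_simp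

end Pool.Agent.SBT
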