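import Pool.Agent.Lib.MP_a7b2aa_an.SBT.Cfb33
import Pool.Agent.Lib.MP_a7b2aa_an.SBT.Lev1_36

/-!
SBT, module LEV3 (helper36): the mean of `|cf|` from below.
-/

set_option autoImplicit false

namespace Pool.Agent.SBT

open Finset Pool.Agent.SB3

/-- mean deviation from the average in one variable -/
theorem devm36 {L : ℕ} (φ : Y L → ℝ) (i : ℕ) (hi : i < L) (h0 : ∀ x, d1 i φ x = 0) :
    ∑ x, |φ x - Ey i φ x| ≤ ∑ i' ∈ Ico (i + 1) L, ∑ x, |d1 i' φ x| := by
  have h1 : ∀ x, |φ x - Ey i φ x| ≤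
      ∑ i' ∈ Ico i L, |Ey i' (fun x' => sgr (bit x' i') * φ x') x| := by
    intro x
    rw [tel36 φ x i hi.le]
    refine le_trans (Finset.abs_sum_le_sum_abs _ _) ?_
    refine Finset.sum_le_sum ?_
    intro i' _
    rw [abs_mul, abs_sgr36, one_mul]
  refine le_trans (Finset.sum_le_sum (fun x _ => h1 x)) ?_
  rw [Finset.sum_comm, Finset.sum_eq_sum_Ico_succ_bot hi]
  have h2 : ∑ x, |Ey i (fun x' => sgr (bit x' i) * φ x') x| = 0 := by
    apply Finset.sum_eq_zero
    intro x _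
    rw [Ey_d133 hi φ x]
    have : d1 i φ = fun _ => 0 := funext h0
    rw [this]
    unfold Ey
    simp
  rw [h2, zero_add]
  refine Finset.sum_le_sum ?_
  intro i' hi'
  rw [Finset.mem_Ico] at hi'
  calc ∑ x, |Ey i' (fun x' => sgr (bit x' i') * φ x') x|
      ≤ ∑ x, Ey i' (fun x' => |d1 i' φ x'|) x := by
        refine Finset.sum_le_sum ?_
        intro x _
        rw [Ey_d133 hi'.2 φ x]
        exact Ey_abs33 i' (d1 i' φ) x
    _ = ∑ x, |d1 i' φ x| := Ey_sum33 (fun x' => |d1 i' φ x'|) L i' (by omega)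

/-- L1 contraction of `Ey` -/
theorem Ey_L136 {L : ℕ} (i : ℕ) (φ : Y L → ℝ) : ∑ x, |Ey i φ x| ≤ ∑ x, |φ x| := by
  refine le_trans (Finset.sum_le_sum (fun x _ => Ey_abs33 i φ x)) ?_
  rw [Ey_sum33 (fun x' => |φ x'|) L i (by omega)]

theorem A3_nonneg36 {L : ℕ} (H : Y L → Y L → Y L → ℝ) (i p q : ℕ) : 0 ≤ A3 H i p q := by
  unfold A3
  positivity

theorem B3_ge36 {L : ℕ} (H : Y L → Y L → Y L → ℝ) {i p q : ℕ} (hi : i < L) (hp : p < L)
    (hq : q < L) :
    ∑ j ∈ Ico (i + 1) L, A3 H j p q + ∑ j ∈ Ico (p + 1) L, A3 H i j q +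
      ∑ j ∈ Ico (q + 1) L, A3 H i p j ≤ B3 H i p q := by
  unfold B3
  set f : ℕ → ℕ → ℕ → ℝ := fun i' p' q' => if i' = i ∧ p' = p ∧ q' = q then 0
    else 2 ^ ((i' - i) + (p' - p) + (q' - q)) * A3 H i' p' q' with hf
  have f0 : ∀ a b c, 0 ≤ f a b c := by
    intro a b c
    simp only [hf]
    split_ifs
    · exact le_rfl
    · exact mul_nonneg (by positivity) (A3_nonneg36 H a b c)
  have f1 : ∀ a b c, (a ≠ i ∨ b ≠ p ∨ c ≠ q) → A3 H a b c ≤ f a b c := by
    intro a b c h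
    simp only [hf]
    rw [if_neg (by tauto)]
    have h1 : (1 : ℝ) ≤ 2 ^ ((a - i) + (b - p) + (c - q)) := one_le_pow₀ (by norm_num)
    have h2 := A3_nonneg36 H a b c
    nlinarith
  change _ ≤ ∑ i' ∈ Ico i L, ∑ p' ∈ Ico p L, ∑ q' ∈ Ico q L, f i' p' q'
  have g1 : ∑ j ∈ Ico (i + 1) L, A3 H j p q ≤
      ∑ i' ∈ Ico (i + 1) L, ∑ p' ∈ Ico p L, ∑ q' ∈ Ico q L, f i' p' q' := by
    refine Finset.sum_le_sum (fun j hj => ?_)
    rw [Finset.mem_Ico] at hj
    refine le_trans (f1 j p q (Or.inl (by omega))) ?_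
    refine le_trans ?_ (Finset.single_le_sum (f := fun p' => ∑ q' ∈ Ico q L, f j p' q')
      (fun b _ => Finset.sum_nonneg (fun c _ => f0 j b c)) (Finset.mem_Ico.mpr ⟨le_rfl, hp⟩))
    exact Finset.single_le_sum (f := fun q' => f j p q') (fun c _ => f0 j p c)
      (Finset.mem_Ico.mpr ⟨le_rfl, hq⟩)
  have g2 : ∑ j ∈ Ico (p + 1) L, A3 H i j q ≤
      ∑ p' ∈ Ico (p + 1) L, ∑ q' ∈ Ico q L, f i p' q' := by
    refine Finset.sum_le_sum (fun j hj => ?_)
    rw [Finset.mem_Ico] at hj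
    refine le_trans (f1 i j q (Or.inr (Or.inl (by omega)))) ?_
    exact Finset.single_le_sum (f := fun q' => f i j q') (fun c _ => f0 i j c)
      (Finset.mem_Ico.mpr ⟨le_rfl, hq⟩)
  have g3 : ∑ j ∈ Ico (q + 1) L, A3 H i p j ≤ ∑ q' ∈ Ico (q + 1) L, f i p q' := by
    refine Finset.sum_le_sum (fun j hj => ?_)
    rw [Finset.mem_Ico] at hj
    exact f1 i p j (Or.inr (Or.inr (by omega)))
  rw [Finset.sum_eq_sum_Ico_succ_bot hi, Finset.sum_eq_sum_Ico_succ_bot hp,
    Finset.sum_eq_sum_Ico_succ_bot hq]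
  have := f0 i p q
  linarith

theorem lev3_36 : StLev3 := by
  intro L H i p q hi hp hq
  have hx : ∀ y z, ∑ x, |d3 H i p q x y z - Ey i (fun a => d3 H i p q a y z) x| ≤
      ∑ j ∈ Ico (i + 1) L, ∑ x, |d3 H j p q x y z| := by
    intro y z
    refine le_trans (devm36 (fun a => d3 H i p q a y z) i hi (fun x => d3x0_33 H i p q x y z)) ?_
    refine Finset.sum_le_sum ?_
    intro j hj
    rw [Finset.mem_Ico] at hj
    have e : (fun x => |d1 j (fun a => d3 H i p q a y z) x|) =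
        fun x => |d1 i (fun a => d3 H j p q a y z) x| := by
      funext x
      rw [d3x_33 H i p q j (by omega)]
    rw [e]
    exact d1_sum33 hi _
  have hy : ∀ x z, ∑ y, |d3 H i p q x y z - Ey p (fun b => d3 H i p q x b z) y| ≤
      ∑ j ∈ Ico (p + 1) L, ∑ y, |d3 H i j q x y z| := by
    intro x z
    refine le_trans (devm36 (fun b => d3 H i p q x b z) p hp (fun y => d3y0_33 H i p q x y z)) ?_
    refine Finset.sum_le_sum ?_
    intro j hj
    rw [Finset.mem_Ico] at hj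
    have e : (fun y => |d1 j (fun b => d3 H i p q x b z) y|) =
        fun y => |d1 p (fun b => d3 H i j q x b z) y| := by
      funext y
      rw [d3y_33 H i p q j (by omega)]
    rw [e]
    exact d1_sum33 hp _
  have hz : ∀ x y, ∑ z, |d3 H i p q x y z - Ey q (fun c => d3 H i p q x y c) z| ≤
      ∑ j ∈ Ico (q + 1) L, ∑ z, |d3 H i p j x y z| := by
    intro x y
    refine le_trans (devm36 (fun c => d3 H i p q x y c) q hq (fun z => d3z0_33 H i p q x y z)) ?_
    refine Finset.sum_le_sum ?_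
    intro j hj
    rw [Finset.mem_Ico] at hj
    have e : (fun z => |d1 j (fun c => d3 H i p q x y c) z|) =
        fun z => |d1 q (fun c => d3 H i p j x y c) z| := by
      funext z
      rw [d3z_33 H i p q j (by omega)]
    rw [e]
    exact d1_sum33 hq _
  -- the three pieces, summed
  set T : Y L → Y L → Y L → ℝ := d3 H i p q with hT
  have s1 : ∑ x, ∑ y, ∑ z, |T x y z - Ey i (fun a => T a y z) x| ≤
      ∑ j ∈ Ico (i + 1) L, 8 ^ L * A3 H j p q := by
    have h8 : (0 : ℝ) < 8 ^ L := by positivity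
    calc ∑ x, ∑ y, ∑ z, |T x y z - Ey i (fun a => T a y z) x|
        = ∑ y, ∑ z, ∑ x, |T x y z - Ey i (fun a => T a y z) x| := by
          rw [Finset.sum_comm]
          refine Finset.sum_congr rfl (fun y _ => ?_)
          rw [Finset.sum_comm]
      _ ≤ ∑ y, ∑ z, ∑ j ∈ Ico (i + 1) L, ∑ x, |d3 H j p q x y z| :=
          Finset.sum_le_sum (fun y _ => Finset.sum_le_sum (fun z _ => hx y z))
      _ = ∑ j ∈ Ico (i + 1) L, ∑ x, ∑ y, ∑ z, |d3 H j p q x y z| := by
          have : ∀ y, ∑ z, ∑ j ∈ Ico (i + 1) L, ∑ x, |d3 H j p q x y z| =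
              ∑ j ∈ Ico (i + 1) L, ∑ z, ∑ x, |d3 H j p q x y z| := fun y => Finset.sum_comm
          rw [Finset.sum_congr rfl (fun y _ => this y), Finset.sum_comm]
          refine Finset.sum_congr rfl (fun j _ => ?_)
          rw [Finset.sum_comm (f := fun x y => ∑ z, |d3 H j p q x y z|)]
          refine Finset.sum_congr rfl (fun y _ => ?_)
          rw [Finset.sum_comm]
      _ = ∑ j ∈ Ico (i + 1) L, 8 ^ L * A3 H j p q := by
          refine Finset.sum_congr rfl (fun j _ => ?_)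
          unfold A3
          field_simp
  have s2 : ∑ x, ∑ y, ∑ z, |T x y z - Ey p (fun b => T x b z) y| ≤
      ∑ j ∈ Ico (p + 1) L, 8 ^ L * A3 H i j q := by
    have h8 : (0 : ℝ) < 8 ^ L := by positivity
    calc ∑ x, ∑ y, ∑ z, |T x y z - Ey p (fun b => T x b z) y|
        = ∑ x, ∑ z, ∑ y, |T x y z - Ey p (fun b => T x b z) y| := by
          refine Finset.sum_congr rfl (fun x _ => ?_)
          rw [Finset.sum_comm]
      _ ≤ ∑ x, ∑ z, ∑ j ∈ Ico (p + 1) L, ∑ y, |d3 H i j q x y z| :=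
          Finset.sum_le_sum (fun x _ => Finset.sum_le_sum (fun z _ => hy x z))
      _ = ∑ j ∈ Ico (p + 1) L, ∑ x, ∑ y, ∑ z, |d3 H i j q x y z| := by
          have : ∀ x, ∑ z, ∑ j ∈ Ico (p + 1) L, ∑ y, |d3 H i j q x y z| =
              ∑ j ∈ Ico (p + 1) L, ∑ z, ∑ y, |d3 H i j q x y z| := fun x => Finset.sum_comm
          rw [Finset.sum_congr rfl (fun x _ => this x), Finset.sum_comm]
          refine Finset.sum_congr rfl (fun j _ => ?_)
          refine Finset.sum_congr rfl (fun x _ => ?_)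
          rw [Finset.sum_comm]
      _ = ∑ j ∈ Ico (p + 1) L, 8 ^ L * A3 H i j q := by
          refine Finset.sum_congr rfl (fun j _ => ?_)
          unfold A3
          field_simp
  have s3 : ∑ x, ∑ y, ∑ z, |T x y z - Ey q (fun c => T x y c) z| ≤
      ∑ j ∈ Ico (q + 1) L, 8 ^ L * A3 H i p j := by
    have h8 : (0 : ℝ) < 8 ^ L := by positivity
    calc ∑ x, ∑ y, ∑ z, |T x y z - Ey q (fun c => T x y c) z|
        ≤ ∑ x, ∑ y, ∑ j ∈ Ico (q + 1) L, ∑ z, |d3 H i p j x y z| :=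
          Finset.sum_le_sum (fun x _ => Finset.sum_le_sum (fun y _ => hz x y))
      _ = ∑ j ∈ Ico (q + 1) L, ∑ x, ∑ y, ∑ z, |d3 H i p j x y z| := by
          have : ∀ x, ∑ y, ∑ j ∈ Ico (q + 1) L, ∑ z, |d3 H i p j x y z| =
              ∑ j ∈ Ico (q + 1) L, ∑ y, ∑ z, |d3 H i p j x y z| := fun x => Finset.sum_comm
          rw [Finset.sum_congr rfl (fun x _ => this x), Finset.sum_comm]
      _ = ∑ j ∈ Ico (q + 1) L, 8 ^ L * A3 H i p j := by
          refine Finset.sum_congr rfl (fun j _ => ?_)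
          unfold A3
          field_simp
  -- pointwise decomposition
  have dec : ∀ x y z, |T x y z| ≤ |cf H i p q x y z| +
      |T x y z - Ey i (fun a => T a y z) x| +
      |Ey i (fun a => T a y z - Ey p (fun b => T a b z) y) x| +
      |Ey i (fun a => Ey p (fun b => T a b z - Ey q (fun c => T a b c) z) y) x| := by
    intro x y z
    have e1 : T x y z = cf H i p q x y z +
      (T x y z - Ey i (fun a => T a y z) x) +
      Ey i (fun a => T a y z - Ey p (fun b => T a b z) y) x +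
      Ey i (fun a => Ey p (fun b => T a b z - Ey q (fun c => T a b c) z) y) x := by
      rw [cf_eq33 H hi hp hq, ← hT]
      have h1 : (fun a => Ey p (fun b => T a b z - Ey q (fun c => T a b c) z) y) =
          fun a => Ey p (fun b => T a b z) y - Ey p (fun b => Ey q (fun c => T a b c) z) y := by
        funext a
        rw [Ey_sub33 p (fun b => T a b z) (fun b => Ey q (fun c => T a b c) z)]
      rw [h1, Ey_sub33 i (fun a => T a y z) (fun a => Ey p (fun b => T a b z) y),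
        Ey_sub33 i (fun a => Ey p (fun b => T a b z) y)
          (fun a => Ey p (fun b => Ey q (fun c => T a b c) z) y)]
      ring
    have b1 := abs_add_le (cf H i p q x y z + (T x y z - Ey i (fun a => T a y z) x) +
      Ey i (fun a => T a y z - Ey p (fun b => T a b z) y) x)
      (Ey i (fun a => Ey p (fun b => T a b z - Ey q (fun c => T a b c) z) y) x)
    have b2 := abs_add_le (cf H i p q x y z + (T x y z - Ey i (fun a => T a y z) x))
      (Ey i (fun a => T a y z - Ey p (fun b => T a b z) y) x)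
    have b3 := abs_add_le (cf H i p q x y z) (T x y z - Ey i (fun a => T a y z) x)
    rw [← e1] at b1
    linarith
  have t2 : ∑ x, ∑ y, ∑ z, |Ey i (fun a => T a y z - Ey p (fun b => T a b z) y) x| ≤
      ∑ x, ∑ y, ∑ z, |T x y z - Ey p (fun b => T x b z) y| := by
    have e : ∀ F : Y L → Y L → Y L → ℝ, ∑ x, ∑ y, ∑ z, F x y z = ∑ y, ∑ z, ∑ x, F x y z := by
      intro F
      rw [Finset.sum_comm]
      refine Finset.sum_congr rfl (fun y _ => ?_)
      rw [Finset.sum_comm]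
    rw [e, e (fun x y z => |T x y z - Ey p (fun b => T x b z) y|)]
    refine Finset.sum_le_sum (fun y _ => Finset.sum_le_sum (fun z _ => ?_))
    exact Ey_L136 i (fun a => T a y z - Ey p (fun b => T a b z) y)
  have t3 : ∑ x, ∑ y, ∑ z, |Ey i (fun a => Ey p (fun b => T a b z -
      Ey q (fun c => T a b c) z) y) x| ≤
      ∑ x, ∑ y, ∑ z, |T x y z - Ey q (fun c => T x y c) z| := by
    have e : ∀ F : Y L → Y L → Y L → ℝ, ∑ x, ∑ y, ∑ z, F x y z = ∑ y, ∑ z, ∑ x, F x y z := by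
      intro F
      rw [Finset.sum_comm]
      refine Finset.sum_congr rfl (fun y _ => ?_)
      rw [Finset.sum_comm]
    calc ∑ x, ∑ y, ∑ z, |Ey i (fun a => Ey p (fun b => T a b z -
      Ey q (fun c => T a b c) z) y) x|
        ≤ ∑ x, ∑ y, ∑ z, |Ey p (fun b => T x b z - Ey q (fun c => T x b c) z) y| := by
          rw [e, e (fun x y z => |Ey p (fun b => T x b z - Ey q (fun c => T x b c) z) y|)]
          refine Finset.sum_le_sum (fun y _ => Finset.sum_le_sum (fun z _ => ?_))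
          exact Ey_L136 i (fun a => Ey p (fun b => T a b z - Ey q (fun c => T a b c) z) y)
      _ ≤ ∑ x, ∑ y, ∑ z, |T x y z - Ey q (fun c => T x y c) z| := by
          refine Finset.sum_le_sum (fun x _ => ?_)
          rw [Finset.sum_comm, Finset.sum_comm (f := fun y z => |T x y z - Ey q (fun c => T x y c) z|)]
          refine Finset.sum_le_sum (fun z _ => ?_)
          exact Ey_L136 p (fun b => T x b z - Ey q (fun c => T x b c) z)
  have tot : ∑ x, ∑ y, ∑ z, |T x y z| ≤ ∑ x, ∑ y, ∑ z, |cf H i p q x y z| +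
      ∑ x, ∑ y, ∑ z, |T x y z - Ey i (fun a => T a y z) x| +
      ∑ x, ∑ y, ∑ z, |Ey i (fun a => T a y z - Ey p (fun b => T a b z) y) x| +
      ∑ x, ∑ y, ∑ z, |Ey i (fun a => Ey p (fun b => T a b z -
        Ey q (fun c => T a b c) z) y) x| := by
    simp only [← Finset.sum_add_distrib]
    exact Finset.sum_le_sum (fun x _ => Finset.sum_le_sum (fun y _ =>
      Finset.sum_le_sum (fun z _ => dec x y z)))
  have hA : ∑ x, ∑ y, ∑ z, |T x y z| = 8 ^ L * A3 H i p q := by
    unfold A3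
    have h8 : (8 : ℝ) ^ L ≠ 0 := by positivity
    rw [mul_div_cancel₀ _ h8]
  -- comparison with `B3`
  have hB : ∑ j ∈ Ico (i + 1) L, A3 H j p q + ∑ j ∈ Ico (p + 1) L, A3 H i j q +
      ∑ j ∈ Ico (q + 1) L, A3 H i p j ≤ B3 H i p q := B3_ge36 H hi hp hq
  have hfin : 8 ^ L * (A3 H i p q - (∑ j ∈ Ico (i + 1) L, A3 H j p q +
      ∑ j ∈ Ico (p + 1) L, A3 H i j q + ∑ j ∈ Ico (q + 1) L, A3 H i p j)) ≤
      ∑ x, ∑ y, ∑ z, |cf H i p q x y z| := by
    rw [← Finset.mul_sum] at s1 s2 s3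
    have := tot
    rw [hA] at this
    nlinarith [this, s1, s2, s3, t2, t3]
  refine le_trans ?_ hfin
  have h8 : (0 : ℝ) < 8 ^ L := by positivity
  exact mul_le_mul_of_nonneg_left (by linarith) h8.le

end Pool.Agent.SBT
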