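import Pool.Agent.Lib.MP_a7b2aa_an.SBT.Cfb33

/-!
SBT, helper38: the module LEV4 (summation over the levels).
-/

set_option autoImplicit false

namespace Pool.Agent.SBT

open Finset Pool.Agent.SB3

lemma sgr_abs_38 (b : Bool) : |sgr b| = 1 := by cases b <;> simp [sgr]

lemma cf_le_38 {L : ℕ} (H : Y L → Y L → Y L → ℝ) (M : ℝ) (hM : ∀ x y z, |H x y z| ≤ M)
    (i p q : ℕ) (x y z : Y L) : |cf H i p q x y z| ≤ M := by
  unfold cf
  apply Ey_le33
  intro x'
  apply Ey_le33
  intro y'
  apply Ey_le33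
  intro z'
  rw [abs_mul, abs_mul, abs_mul, sgr_abs_38, sgr_abs_38, sgr_abs_38]
  simpa using hM x' y' z'

lemma Lk_nonneg_38 {L : ℕ} (H : Y L → Y L → Y L → ℝ) (p q : ℕ) (x y z : Y L) :
    0 ≤ Lk H p q x y z := by
  unfold Lk
  exact add_nonneg (Finset.sum_nonneg (fun _ _ => abs_nonneg _)) (abs_nonneg _)

lemma A3_nonneg_38 {L : ℕ} (H : Y L → Y L → Y L → ℝ) (i p q : ℕ) : 0 ≤ A3 H i p q := by
  unfold A3
  exact div_nonneg (Finset.sum_nonneg (fun _ _ => Finset.sum_nonneg (fun _ _ =>
    Finset.sum_nonneg (fun _ _ => abs_nonneg _)))) (by positivity)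

lemma B3_nonneg_38 {L : ℕ} (H : Y L → Y L → Y L → ℝ) (i p q : ℕ) : 0 ≤ B3 H i p q := by
  unfold B3
  apply Finset.sum_nonneg; intro i' _
  apply Finset.sum_nonneg; intro p' _
  apply Finset.sum_nonneg; intro q' _
  split_ifs
  · exact le_rfl
  · exact mul_nonneg (by positivity) (A3_nonneg_38 H _ _ _)

lemma level_38 (K : ℕ) (M c : ℝ) (hM : 0 < M) (hc : c ≤ M) (hcK : M / 2 ^ K ≤ c) :
    ∃ k ∈ Finset.Icc 1 (K + 1), M / 2 ^ k ≤ c ∧ c ≤ 2 * (M / 2 ^ k) := by
  induction K with
  | zero =>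
    refine ⟨1, by simp, ?_, ?_⟩
    · simp only [pow_zero, div_one] at hcK
      rw [pow_one]
      linarith
    · rw [pow_one]
      linarith
  | succ K ih =>
    by_cases h : M / 2 ^ K ≤ c
    · obtain ⟨k, hk, h1, h2⟩ := ih h
      refine ⟨k, ?_, h1, h2⟩
      rw [Finset.mem_Icc] at hk ⊢
      omega
    · refine ⟨K + 1, by simp, hcK, ?_⟩
      have : 2 * (M / 2 ^ (K + 1)) = M / 2 ^ K := by
        rw [pow_succ]
        field_simp
      rw [this]
      exact (not_le.mp h).le

/-- LEV4 -/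
theorem lev4_38 : StLev4 := by
  intro hA h2 h3
  obtain ⟨δ, hδ, C0, hC0, hA⟩ := hA
  refine ⟨3 + 2 / δ + 18 * C0, by positivity, ?_⟩
  intro L H M hL hM
  classical
  have hM0 : 0 ≤ M := (abs_nonneg _).trans (hM (fun _ => false) (fun _ => false) (fun _ => false))
  have hLr : (1 : ℝ) ≤ L := by exact_mod_cast hL
  have hlog : (1 / 2 : ℝ) ≤ Real.log (L + 1) := by
    have h1 : Real.log 2 ≤ Real.log (L + 1) := Real.log_le_log (by norm_num) (by linarith)
    have h2 := Real.log_two_gt_d9
    linarith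
  have hsq : 1 ≤ Real.sqrt L := Real.one_le_sqrt.mpr hLr
  -- number of levels
  set K : ℕ := 2 * (Nat.log 2 L + 1) with hKdef
  have hK2 : (L : ℝ) ^ 2 ≤ 2 ^ K := by
    have h1 : L < 2 ^ (Nat.log 2 L + 1) := Nat.lt_pow_succ_log_self (by norm_num) L
    have h2 : (L : ℝ) ≤ 2 ^ (Nat.log 2 L + 1) := by exact_mod_cast h1.le
    calc (L : ℝ) ^ 2 ≤ (2 ^ (Nat.log 2 L + 1)) ^ 2 := pow_le_pow_left₀ (by positivity) h2 2
      _ = 2 ^ K := by rw [← pow_mul, hKdef, mul_comm]
  have hKlog : ((K + 1 : ℕ) : ℝ) ≤ 7 * (2 * Real.log (L + 1)) / 2 + 1 := by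
    have h1 : (Nat.log 2 L : ℝ) * Real.log 2 ≤ Real.log L := by
      have h2 : 2 ^ Nat.log 2 L ≤ L := Nat.pow_log_le_self 2 (by omega)
      have h3 : ((2 : ℝ) ^ Nat.log 2 L) ≤ L := by exact_mod_cast h2
      have h4 := Real.log_le_log (by positivity) h3
      rwa [Real.log_pow] at h4
    have h5 : Real.log L ≤ Real.log (L + 1) := Real.log_le_log (by linarith) (by linarith)
    have h6 := Real.log_two_gt_d9
    have h7 : Real.log 2 ≤ Real.log (L + 1) := Real.log_le_log (by norm_num) (by linarith)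
    have h8 : (Nat.log 2 L : ℝ) + 1 ≤ 3 * Real.log (L + 1) := by
      have h9 : ((Nat.log 2 L : ℝ) + 1) * Real.log 2 ≤ 2 * Real.log (L + 1) := by linarith
      nlinarith
    push_cast [hKdef]
    linarith
  have hK7 : ((K + 1 : ℕ) : ℝ) ≤ 9 * Real.log (L + 1) := by linarith
  -- one pair
  have pair : ∀ p q, p < L → q < L - p →
      8 ^ L * A3 H (L - 1 - p - q) p q ≤
        2 * ∑ k ∈ Finset.Icc 1 (K + 1), (M / 2 ^ k) * (∑ x : Y L, ∑ y : Y L, ∑ z : Y L,
          (if Gd H δ (M / 2 ^ k) p q x y z then (1 : ℝ) else 0)) +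
        8 ^ L * (M / 2 ^ K) + (1 + 2 / δ) * (8 ^ L * B3 H (L - 1 - p - q) p q) := by
    intro p q hp hq
    obtain ⟨V, hV1, hV2⟩ := h2 L H p q (by omega)
    have h4 := h3 L H (L - 1 - p - q) p q (by omega) hp (by omega)
    have hpt : ∀ x y z : Y L, |cf H (L - 1 - p - q) p q x y z| ≤
        2 * ∑ k ∈ Finset.Icc 1 (K + 1), (M / 2 ^ k) *
          (if Gd H δ (M / 2 ^ k) p q x y z then (1 : ℝ) else 0) + M / 2 ^ K +
          2 / δ * V x y z := by
      intro x y z
      have hVn : 0 ≤ V x y z := (Lk_nonneg_38 H p q x y z).trans (hV1 x y z x y z rfl rfl rfl)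
      have hs : 0 ≤ ∑ k ∈ Finset.Icc 1 (K + 1), (M / 2 ^ k) *
          (if Gd H δ (M / 2 ^ k) p q x y z then (1 : ℝ) else 0) := by
        apply Finset.sum_nonneg
        intro k _
        split_ifs <;> positivity
      have hw : 0 ≤ M / 2 ^ K := by positivity
      have hv' : 0 ≤ 2 / δ * V x y z := by positivity
      set c := |cf H (L - 1 - p - q) p q x y z| with hcdef
      by_cases hcK : c < M / 2 ^ K
      · linarith
      · have hcK' : M / 2 ^ K ≤ c := not_lt.mp hcK
        rcases hM0.eq_or_lt with hM00 | hMpos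
        · have : c ≤ M := cf_le_38 H M hM _ p q x y z
          rw [← hM00] at this
          linarith
        obtain ⟨k, hk, hk1, hk2⟩ := level_38 K M c hMpos (cf_le_38 H M hM _ p q x y z) hcK'
        by_cases hVk : V x y z ≤ δ * (M / 2 ^ k)
        · have hG : Gd H δ (M / 2 ^ k) p q x y z :=
            ⟨hk1, fun x' y' z' hx hy hz => (hV1 x y z x' y' z' hx hy hz).trans hVk⟩
          have hle : (M / 2 ^ k) * (if Gd H δ (M / 2 ^ k) p q x y z then (1 : ℝ) else 0) ≤
              ∑ k ∈ Finset.Icc 1 (K + 1), (M / 2 ^ k) *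
                (if Gd H δ (M / 2 ^ k) p q x y z then (1 : ℝ) else 0) :=
            Finset.single_le_sum (f := fun k => (M / 2 ^ k) *
              (if Gd H δ (M / 2 ^ k) p q x y z then (1 : ℝ) else 0))
              (fun k _ => by split_ifs <;> positivity) hk
          rw [if_pos hG, mul_one] at hle
          linarith
        · have h5 : M / 2 ^ k ≤ V x y z / δ := by
            rw [le_div_iff₀ hδ]
            linarith [not_le.mp hVk]
          have h6 : 2 / δ * V x y z = 2 * (V x y z / δ) := by ring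
          rw [h6]
          linarith
    have hsum : ∑ x, ∑ y, ∑ z, |cf H (L - 1 - p - q) p q x y z| ≤
        2 * ∑ k ∈ Finset.Icc 1 (K + 1), (M / 2 ^ k) * (∑ x : Y L, ∑ y : Y L, ∑ z : Y L,
          (if Gd H δ (M / 2 ^ k) p q x y z then (1 : ℝ) else 0)) +
        8 ^ L * (M / 2 ^ K) + 2 / δ * ∑ x, ∑ y, ∑ z, V x y z := by
      calc _ ≤ ∑ x : Y L, ∑ y : Y L, ∑ z : Y L, (2 * ∑ k ∈ Finset.Icc 1 (K + 1), (M / 2 ^ k) *
          (if Gd H δ (M / 2 ^ k) p q x y z then (1 : ℝ) else 0) + M / 2 ^ K +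
          2 / δ * V x y z) := by
            apply Finset.sum_le_sum; intro x _
            apply Finset.sum_le_sum; intro y _
            apply Finset.sum_le_sum; intro z _
            exact hpt x y z
        _ = _ := by
            simp only [Finset.sum_add_distrib]
            congr 1
            · congr 1
              · simp only [← Finset.mul_sum]
                congr 1
                rw [Finset.sum_congr rfl (fun x _ => Finset.sum_congr rfl (fun y _ =>
                  Finset.sum_comm))]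
                rw [Finset.sum_congr rfl (fun x _ => Finset.sum_comm)]
                rw [Finset.sum_comm]
                apply Finset.sum_congr rfl
                intro k _
                simp only [Finset.mul_sum]
              · simp only [Finset.sum_const, Finset.card_univ, Fintype.card_pi,
                  Fintype.card_bool, Finset.prod_const, Fintype.card_fin, nsmul_eq_mul]
                push_cast
                rw [show (8 : ℝ) ^ L = 2 ^ L * 2 ^ L * 2 ^ L by
                  rw [← mul_pow, ← mul_pow]; norm_num]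
                ring
            · simp only [← Finset.mul_sum]
    have h7 : 2 / δ * ∑ x, ∑ y, ∑ z, V x y z ≤
        2 / δ * (8 ^ L * B3 H (L - 1 - p - q) p q) :=
      mul_le_mul_of_nonneg_left hV2 (by positivity)
    nlinarith
  -- sum over the pairs
  have hab : ∀ k, (M / 2 ^ k) * ∑ p ∈ range L, ∑ q ∈ range (L - p), (∑ x : Y L, ∑ y : Y L,
      ∑ z : Y L, (if Gd H δ (M / 2 ^ k) p q x y z then (1 : ℝ) else 0)) ≤
      C0 * Real.sqrt L * M * 8 ^ L := by
    intro k
    rcases hM0.eq_or_lt with hM00 | hMpos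
    · rw [← hM00]
      simp
    · exact hA L H M (M / 2 ^ k) hL (by positivity) hM
  have h8 : (0 : ℝ) < 8 ^ L := by positivity
  have total : 8 ^ L * ∑ p ∈ range L, ∑ q ∈ range (L - p), A3 H (L - 1 - p - q) p q ≤
      2 * ((K + 1 : ℕ) * (C0 * Real.sqrt L * M * 8 ^ L)) + 8 ^ L * M +
        (1 + 2 / δ) * (8 ^ L * ∑ p ∈ range L, ∑ q ∈ range (L - p),
          B3 H (L - 1 - p - q) p q) := by
    have e1 : 8 ^ L * ∑ p ∈ range L, ∑ q ∈ range (L - p), A3 H (L - 1 - p - q) p q ≤
        ∑ p ∈ range L, ∑ q ∈ range (L - p),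
        (2 * ∑ k ∈ Finset.Icc 1 (K + 1), (M / 2 ^ k) * (∑ x : Y L, ∑ y : Y L, ∑ z : Y L,
          (if Gd H δ (M / 2 ^ k) p q x y z then (1 : ℝ) else 0)) +
        8 ^ L * (M / 2 ^ K) + (1 + 2 / δ) * (8 ^ L * B3 H (L - 1 - p - q) p q)) := by
      rw [Finset.mul_sum]
      apply Finset.sum_le_sum
      intro p hp
      rw [Finset.mul_sum]
      apply Finset.sum_le_sum
      intro q hq
      exact pair p q (Finset.mem_range.mp hp) (Finset.mem_range.mp hq)
    refine e1.trans ?_
    simp only [Finset.sum_add_distrib]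
    apply add_le_add
    · apply add_le_add
      · have e2 : ∑ p ∈ range L, ∑ q ∈ range (L - p),
            (2 * ∑ k ∈ Finset.Icc 1 (K + 1), (M / 2 ^ k) * (∑ x : Y L, ∑ y : Y L, ∑ z : Y L,
              (if Gd H δ (M / 2 ^ k) p q x y z then (1 : ℝ) else 0))) =
            2 * ∑ k ∈ Finset.Icc 1 (K + 1), (M / 2 ^ k) * ∑ p ∈ range L, ∑ q ∈ range (L - p),
              (∑ x : Y L, ∑ y : Y L, ∑ z : Y L,
              (if Gd H δ (M / 2 ^ k) p q x y z then (1 : ℝ) else 0)) := by
          simp only [← Finset.mul_sum]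
          congr 1
          rw [Finset.sum_congr rfl (fun p _ => Finset.sum_comm)]
          rw [Finset.sum_comm]
          apply Finset.sum_congr rfl
          intro k _
          simp only [Finset.mul_sum]
        rw [e2]
        apply mul_le_mul_of_nonneg_left _ (by norm_num)
        calc _ ≤ ∑ k ∈ Finset.Icc 1 (K + 1), C0 * Real.sqrt L * M * 8 ^ L :=
              Finset.sum_le_sum (fun k _ => hab k)
          _ = _ := by
              rw [Finset.sum_const, Nat.card_Icc, nsmul_eq_mul]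
              norm_num
      · have e3 : ∑ p ∈ range L, ∑ q ∈ range (L - p), (8 : ℝ) ^ L * (M / 2 ^ K) ≤
            ∑ p ∈ range L, ∑ q ∈ range L, (8 : ℝ) ^ L * (M / 2 ^ K) := by
          apply Finset.sum_le_sum
          intro p _
          apply Finset.sum_le_sum_of_subset_of_nonneg
          · intro q hq
            rw [Finset.mem_range] at hq ⊢
            omega
          · intro _ _ _
            positivity
        refine e3.trans ?_
        simp only [Finset.sum_const, Finset.card_range, nsmul_eq_mul]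
        have e4 : (L : ℝ) * (L * (8 ^ L * (M / 2 ^ K))) = 8 ^ L * (M * ((L : ℝ) ^ 2 / 2 ^ K)) := by
          ring
        rw [e4]
        apply mul_le_mul_of_nonneg_left _ h8.le
        have e5 : (L : ℝ) ^ 2 / 2 ^ K ≤ 1 := by
          rw [div_le_one (by positivity)]
          exact hK2
        calc M * ((L : ℝ) ^ 2 / 2 ^ K) ≤ M * 1 := mul_le_mul_of_nonneg_left e5 hM0
          _ = M := mul_one M
    · simp only [← Finset.mul_sum]
      exact le_rfl
  have fin1 : ∑ p ∈ range L, ∑ q ∈ range (L - p), A3 H (L - 1 - p - q) p q ≤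
      2 * ((K + 1 : ℕ) * (C0 * Real.sqrt L * M)) + M +
        (1 + 2 / δ) * ∑ p ∈ range L, ∑ q ∈ range (L - p), B3 H (L - 1 - p - q) p q := by
    have e : 2 * ((K + 1 : ℕ) * (C0 * Real.sqrt L * M * 8 ^ L)) + 8 ^ L * M +
        (1 + 2 / δ) * (8 ^ L * ∑ p ∈ range L, ∑ q ∈ range (L - p),
          B3 H (L - 1 - p - q) p q) = 8 ^ L * (2 * ((K + 1 : ℕ) * (C0 * Real.sqrt L * M)) + M +
        (1 + 2 / δ) * ∑ p ∈ range L, ∑ q ∈ range (L - p), B3 H (L - 1 - p - q) p q) := by
      ring
    rw [e] at total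
    exact le_of_mul_le_mul_left total h8
  have hBn : 0 ≤ ∑ p ∈ range L, ∑ q ∈ range (L - p), B3 H (L - 1 - p - q) p q :=
    Finset.sum_nonneg (fun _ _ => Finset.sum_nonneg (fun _ _ => B3_nonneg_38 H _ _ _))
  have g1 : 2 * (((K + 1 : ℕ) : ℝ) * (C0 * Real.sqrt L * M)) ≤
      18 * C0 * (Real.sqrt L * Real.log (L + 1) * M) := by
    have : ((K + 1 : ℕ) : ℝ) * (C0 * Real.sqrt L * M) ≤
        (9 * Real.log (L + 1)) * (C0 * Real.sqrt L * M) :=
      mul_le_mul_of_nonneg_right hK7 (by positivity)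
    linarith
  have g2 : M ≤ 2 * (Real.sqrt L * Real.log (L + 1) * M) := by
    have h9 : (1 / 2 : ℝ) ≤ Real.sqrt L * Real.log (L + 1) := by nlinarith
    nlinarith
  have hX : 0 ≤ Real.sqrt L * Real.log (L + 1) * M := by
    have : 0 ≤ Real.log (L + 1) := by linarith
    positivity
  have hd : 0 ≤ 2 / δ := by positivity
  calc ∑ p ∈ range L, ∑ q ∈ range (L - p), A3 H (L - 1 - p - q) p q ≤
        (18 * C0 + 2) * (Real.sqrt L * Real.log (L + 1) * M) +
        (1 + 2 / δ) * ∑ p ∈ range L, ∑ q ∈ range (L - p), B3 H (L - 1 - p - q) p q := by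
        linarith
    _ ≤ (3 + 2 / δ + 18 * C0) * (Real.sqrt L * Real.log (L + 1) * M) +
        (3 + 2 / δ + 18 * C0) *
          ∑ p ∈ range L, ∑ q ∈ range (L - p), B3 H (L - 1 - p - q) p q := by
        apply add_le_add
        · exact mul_le_mul_of_nonneg_right (by linarith) hX
        · exact mul_le_mul_of_nonneg_right (by linarith) hBn
    _ = _ := by ring

end Pool.Agent.SBT
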