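import Pool.Agent.Lib.MP_a7b2aa_an.SBT.Op38

/-!
SBT, modules TRA and TRAP (helper70): the difference of the shifted function is the mixed
difference on the discrete torus at a shifted point.
-/

set_option autoImplicit false

namespace Pool.Agent.SBT

open Finset Pool.Agent.SB3

namespace Tra70

/-- the shift without coordinate `i` -/
def sh0 (a b X : ℕ) {L : ℕ} (i : ℕ) (x : Y L) : ZMod (2 ^ a) :=
  ∑ j ∈ (range L).erase i, (if bit x j then Hs a (X + b * j) else - Hs a (X + b * j))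

theorem bit_upb {L : ℕ} {i : ℕ} (hi : i < L) (x : Y L) (v : Bool) (j : ℕ) :
    bit (upb x i v) j = if j = i then v else bit x j := by
  unfold bit upb
  by_cases hj : j < L
  · simp only [dif_pos hj]
  · have hne : j ≠ i := fun h => hj (h ▸ hi)
    simp only [dif_neg hj, if_neg hne]

theorem shf_upb (a b X : ℕ) {L i : ℕ} (hi : i < L) (x : Y L) (v : Bool) :
    shf a b X (upb x i v) =
      (if v then Hs a (X + b * i) else - Hs a (X + b * i)) + sh0 a b X i x := by
  unfold shf sh0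
  rw [← Finset.add_sum_erase (range L) _ (mem_range.mpr hi)]
  congr 1
  · rw [bit_upb hi, if_pos rfl]
  · refine sum_congr rfl fun j hj => ?_
    rw [bit_upb hi, if_neg (ne_of_mem_erase hj)]

theorem sv_sv {ι : Type} [DecidableEq ι] {N : ℕ} (j : ι) (g h : ZMod N) (u : Tor ι N) :
    sv j g (sv j h u) = sv j (g + h) u := by
  unfold sv
  funext i
  by_cases hi : i = j
  · subst hi
    simp only [Function.update_self]
    ring
  · simp [Function.update_of_ne hi]

theorem d1_comp (a b X : ℕ) {L i : ℕ} (hi : i < L) (φ : ZMod (2 ^ a) → ℝ) (x : Y L) :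
    d1 i (fun x' => φ (shf a b X x')) x =
      (φ (Hs a (X + b * i) + sh0 a b X i x) - φ (-Hs a (X + b * i) + sh0 a b X i x)) / 2 := by
  unfold d1
  beta_reduce
  rw [shf_upb a b X hi, shf_upb a b X hi]
  simp

/-- the base point of the difference -/
def bp (a b X Y' Z : ℕ) {L : ℕ} (u : Tor (Fin 3) (2 ^ a)) (i p q : ℕ) (x y z : Y L) :
    Tor (Fin 3) (2 ^ a) :=
  sv 0 (sh0 a b X i x) (sv 1 (sh0 a b Y' p y) (sv 2 (sh0 a b Z q z) u))

theorem d3_eq (a b X Y' Z L : ℕ) (F : Tor (Fin 3) (2 ^ a) → ℝ) (i p q : ℕ)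
    (hi : i < L) (hp : p < L) (hq : q < L) (u : Tor (Fin 3) (2 ^ a)) (x y z : Y L) :
    d3 (Hu a b X Y' Z F u) i p q x y z =
      D3 a (X + b * i) (Y' + b * p) (Z + b * q) F (bp a b X Y' Z u i p q x y z) := by
  have hz : ∀ (s t : ZMod (2 ^ a)),
      d1 q (fun z' : Y L => F (sv 0 s (sv 1 t (sv 2 (shf a b Z z') u)))) z =
        dT 2 (Hs a (Z + b * q)) F (sv 0 s (sv 1 t (sv 2 (sh0 a b Z q z) u))) := by
    intro s t
    rw [d1_comp a b Z hq (fun r => F (sv 0 s (sv 1 t (sv 2 r u)))) z]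
    unfold dT
    rw [sv_comm_38 2 0, sv_comm_38 2 1, sv_comm_38 2 0, sv_comm_38 2 1, sv_sv, sv_sv]
  have hy : ∀ (s : ZMod (2 ^ a)),
      d1 p (fun y' : Y L => d1 q (fun z' : Y L =>
        F (sv 0 s (sv 1 (shf a b Y' y') (sv 2 (shf a b Z z') u)))) z) y =
        dT 1 (Hs a (Y' + b * p)) (dT 2 (Hs a (Z + b * q)) F)
          (sv 0 s (sv 1 (sh0 a b Y' p y) (sv 2 (sh0 a b Z q z) u))) := by
    intro s
    simp only [hz]
    rw [d1_comp a b Y' hp (fun r => dT 2 (Hs a (Z + b * q)) F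
      (sv 0 s (sv 1 r (sv 2 (sh0 a b Z q z) u)))) y]
    conv_rhs => unfold dT
    rw [sv_comm_38 1 0, sv_comm_38 1 0, sv_sv, sv_sv]
    rfl
  unfold d3 Hu
  simp only [hy]
  rw [d1_comp a b X hi (fun r => dT 1 (Hs a (Y' + b * p)) (dT 2 (Hs a (Z + b * q)) F)
      (sv 0 r (sv 1 (sh0 a b Y' p y) (sv 2 (sh0 a b Z q z) u)))) x]
  unfold D3 bp
  conv_rhs => unfold dT
  rw [sv_sv, sv_sv]
  rfl

end Tra70

open Tra70

/-- TRAP -/
theorem trap_70 : StTrap := fun a b X Y' Z L F i p q hi hp hq u x y z =>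
  ⟨_, d3_eq a b X Y' Z L F i p q hi hp hq u x y z⟩

/-- TRA -/
theorem tra_70 : StTra := by
  intro a b X Y' Z L F i p q hi hp hq
  unfold A3
  rw [← Finset.sum_div]
  rw [div_eq_iff (by positivity)]
  have h1 : ∀ x y z : Y L, ∑ u, |d3 (Hu a b X Y' Z F u) i p q x y z| =
      S1 (D3 a (X + b * i) (Y' + b * p) (Z + b * q) F) := by
    intro x y z
    have h2 : ∀ u, |d3 (Hu a b X Y' Z F u) i p q x y z| =
        |D3 a (X + b * i) (Y' + b * p) (Z + b * q) F (bp a b X Y' Z u i p q x y z)| :=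
      fun u => by rw [d3_eq a b X Y' Z L F i p q hi hp hq]
    simp_rw [h2]
    unfold bp
    have e2 := sum_sv_38 (2 : Fin 3) (sh0 a b Z q z) (fun u =>
      |D3 a (X + b * i) (Y' + b * p) (Z + b * q) F (sv 0 (sh0 a b X i x)
        (sv 1 (sh0 a b Y' p y) u))|)
    have e1 := sum_sv_38 (1 : Fin 3) (sh0 a b Y' p y) (fun u =>
      |D3 a (X + b * i) (Y' + b * p) (Z + b * q) F (sv 0 (sh0 a b X i x) u)|)
    have e0 := sum_sv_38 (0 : Fin 3) (sh0 a b X i x) (fun u =>
      |D3 a (X + b * i) (Y' + b * p) (Z + b * q) F u|)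
    exact (e2.trans e1).trans e0
  have hcard : (Fintype.card (Y L) : ℝ) = 2 ^ L := by
    simp [Fintype.card_bool]
  calc ∑ u, ∑ x : Y L, ∑ y : Y L, ∑ z : Y L, |d3 (Hu a b X Y' Z F u) i p q x y z|
      = ∑ x : Y L, ∑ y : Y L, ∑ z : Y L, ∑ u, |d3 (Hu a b X Y' Z F u) i p q x y z| := by
        rw [sum_comm]
        refine sum_congr rfl fun x _ => ?_
        rw [sum_comm]
        refine sum_congr rfl fun y _ => ?_
        rw [sum_comm]
    _ = ∑ x : Y L, ∑ y : Y L, ∑ z : Y L,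
          S1 (D3 a (X + b * i) (Y' + b * p) (Z + b * q) F) := by
        simp_rw [h1]
    _ = S1 (D3 a (X + b * i) (Y' + b * p) (Z + b * q) F) * 8 ^ L := by
        simp only [sum_const, card_univ, nsmul_eq_mul, hcard]
        have h8 : (8 : ℝ) ^ L = 2 ^ L * (2 ^ L * 2 ^ L) := by
          rw [← mul_pow, ← mul_pow]
          norm_num
        rw [h8]
        ring

end Pool.Agent.SBT
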