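import Pool.Agent.Lib.MP_a7b2aa_an.SBT.Stmts30

/-!
SBT (chair: helper30): leak free version (gap `b = 2 β`, `β` of size `log n`): statements of the
modules which replace NUM, DISC, FINAL, LEV1, LEV2, LEV4, TLT1, TLT2, TLT3 of `Stmts30.lean`.
-/

set_option autoImplicit false

namespace Pool.Agent.SBT

open Finset Pool.Agent.SB3

/-- AH: the abstract theorem without finer terms (from Theorem B of 46 / 7) -/
def StAH : Prop := ∃ C : ℝ, 0 < C ∧ ∀ (L : ℕ) (H : Y L → Y L → Y L → ℝ) (M : ℝ), 1 ≤ L →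
    (∀ x y z, |H x y z| ≤ M) →
    (∀ i p q, i < L → p < L → q < L → L ≤ i + p + q → ∀ x y z, cf H i p q x y z = 0) →
    ∑ p ∈ range L, ∑ q ∈ range (L - p), ∑ x : Y L, ∑ y : Y L, ∑ z : Y L,
      |cf H (L - 1 - p - q) p q x y z| ≤ C * Real.sqrt L * Real.log (L + 1) * M * 8 ^ L

/-- MAINS: small finer terms are subtracted -/
def StMainS : Prop := ∃ C : ℝ, 0 < C ∧ ∀ (L : ℕ) (H : Y L → Y L → Y L → ℝ) (M η : ℝ), 1 ≤ L →
    0 ≤ η → (∀ x y z, |H x y z| ≤ M) →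
    (∀ i p q, i < L → p < L → q < L → L ≤ i + p + q → ∀ x y z, |d3 H i p q x y z| ≤ η) →
    ∑ p ∈ range L, ∑ q ∈ range (L - p), A3 H (L - 1 - p - q) p q ≤
      C * Real.sqrt L * Real.log (L + 1) * (M + L ^ 3 * η)

/-- CFO: orthogonality of the components -/
def StCfo : Prop := ∀ (L : ℕ) (H : Y L → Y L → Y L → ℝ) (i p q i' p' q' : ℕ) (x y z : Y L),
    i < L → p < L → q < L → i' < L → p' < L → q' < L →
    cf (fun x y z => sgr (bit x i') * sgr (bit y p') * sgr (bit z q') * cf H i' p' q' x y z)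
      i p q x y z = if i' = i ∧ p' = p ∧ q' = q then cf H i p q x y z else 0

/-- CFB: `|cf|` is at most the maximum of `|d3|`, and `d3 - cf` is controlled by finer `d3` -/
def StCfb : Prop := ∀ (L : ℕ) (H : Y L → Y L → Y L → ℝ) (i p q : ℕ) (η : ℝ),
    i < L → p < L → q < L →
    ((∀ x y z, |d3 H i p q x y z| ≤ η) → ∀ x y z, |cf H i p q x y z| ≤ η) ∧
    ((∀ i' p' q', i ≤ i' → p ≤ p' → q ≤ q' → i' < L → p' < L → q' < L →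
        (i' ≠ i ∨ p' ≠ p ∨ q' ≠ q) → ∀ x y z, |d3 H i' p' q' x y z| ≤ η) →
      ∀ x y z, |d3 H i p q x y z - cf H i p q x y z| ≤ 3 * L * η)

/-- BERK: Bernstein's inequality for differences, as a kernel, one direction -/
def StBerK : Prop := ∀ (ι : Type) [Fintype ι] [DecidableEq ι] (a s X : ℕ) (j : ι)
    (A : Finset (ι → ℤ)) (c : (ι → ℤ) → ℂ), s + 2 ≤ a → X + 2 ≤ a →
    (∀ k ∈ A, |k j| < (2 : ℤ) ^ s) →
    ∃ κ : ZMod (2 ^ a) → ℝ, (∑ g, |κ g| ≤ 32 * (1 / 2 : ℝ) ^ (X - s)) ∧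
      ∀ u, dT j (Hs a X) (PT (N := 2 ^ a) A c) u = ∑ g, κ g * PT (N := 2 ^ a) A c (sv j g u)

/-- SUPB: blocks are bounded by the whole sum -/
def StSupb : Prop := ∀ (m : ℕ) (l : Fin 3 → ℕ) (c : (Fin 3 → ℤ) → ℂ) (M : ℝ),
    l ∈ Finset.Nat.antidiagonalTuple 3 m → (∀ u, |Fm m c u| ≤ M) →
    ∀ u, |PT (N := 2 ^ (2 * m + 3)) (blk l) c u| ≤ 216 * M

/-- SMALL: finer differences are small (`excess ≥ e`) -/
def StSmall : Prop := ∀ (m : ℕ) (c : (Fin 3 → ℤ) → ℂ) (M : ℝ) (X Y' Z e : ℕ),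
    (∀ u, |Fm m c u| ≤ M) → X ≤ 2 * m → Y' ≤ 2 * m → Z ≤ 2 * m → 2 * m + e ≤ X + Y' + Z →
    ∀ u, |D3 (2 * m + 3) X Y' Z (Fm m c) u| ≤
      (m + 1) ^ 2 * (32 ^ 3 * 216) * (1 / 2 : ℝ) ^ e * M

/-- TRAP: pointwise form of TRA -/
def StTrap : Prop := ∀ (a b X Y' Z L : ℕ) (F : Tor (Fin 3) (2 ^ a) → ℝ) (i p q : ℕ),
    i < L → p < L → q < L → ∀ (u : Tor (Fin 3) (2 ^ a)) (x y z : Y L),
    ∃ u', d3 (Hu a b X Y' Z F u) i p q x y z = D3 a (X + b * i) (Y' + b * p) (Z + b * q) F u'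

/-- DISCS: the theorem on the discrete torus -/
def StDiscS : Prop := ∃ C : ℝ, 0 < C ∧ ∀ (m : ℕ) (c : (Fin 3 → ℤ) → ℂ) (M : ℝ), 1 ≤ m →
    (∀ u, |Fm m c u| ≤ M) →
    ∑ l ∈ Finset.Nat.antidiagonalTuple 3 m, S1 (PT (N := 2 ^ (2 * m + 3)) (blk l) c) ≤
      C * Real.sqrt (2 * m) * Real.log (2 * m + 1) ^ ((5 : ℝ) / 2) * M * (2 ^ (2 * m + 3)) ^ 3

/-- FINALS: the theorem -/
def StFinalS : Prop := ∃ C : ℝ, 0 < C ∧ ∀ (m : ℕ) (c : (Fin 3 → ℤ) → ℂ), 1 ≤ m →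
    C * ∑ l ∈ Finset.Nat.antidiagonalTuple 3 m, norm1 (blockPoly c l) ≤
      ((2 * m : ℕ) : ℝ) ^ ((1 : ℝ) / 2) * Real.log (2 * m + 1) ^ ((5 : ℝ) / 2) *
        ⨆ x : Fin 3 → ℝ, ‖∑ l ∈ Finset.Nat.antidiagonalTuple 3 m, blockPoly c l x‖

end Pool.Agent.SBT
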