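import Pool.Agent.Lib.MP_a7b2aa_an.SBT.Stmts30
import Pool.Agent.Lib.SBW.TopC46

/-!
SBT, helper30: TLT3 without TLT1: the level inequality ABS from Theorem W with leaks and TLT2
(Gibbs law and exponential martingale, after helper46).
-/

set_option autoImplicit false

namespace Pool.Agent.SBT

open Finset Pool.Agent.SB3 Pool.Agent.SBW.T46

open Classical in
/-- the number of good pairs -/
noncomputable def Nq30 {L : ℕ} (w : ℕ → ℕ → Y L → Y L → Prop) (y z : Y L) : ℝ :=
  ∑ p ∈ range L, ∑ q ∈ range (L - p), if w p q y z then (1 : ℝ) else 0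

/-- exponential form of W -/
theorem expoW_30 (hW : StW) : ∃ δ : ℝ, 0 < δ ∧ ∃ C : ℝ, 0 < C ∧ ∀ (L : ℕ)
    (G : ℕ → Y L → Y L → ℝ) (g : ℕ → ℕ → Y L → Y L → ℝ) (t : ℕ → ℕ → ℕ → Y L → Y L → ℝ)
    (c : ℕ → ℕ → Y L → Y L → ℝ) (w : ℕ → ℕ → Y L → Y L → Prop), 1 ≤ L → StrW L δ G g t c w →
    ∑ y : Y L, ∑ z : Y L, Real.exp (Nq30 w y z / (C * L)) *
      ∏ j ∈ range L, (1 / Real.cosh (G j y z / Real.sqrt L)) ≤ 4 ^ L := by
  classical
  obtain ⟨δ, hδ, C, hC, hW⟩ := hW
  refine ⟨δ, hδ, 4 * C, by positivity, ?_⟩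
  intro K G g t c w hK hStr
  have hKpos : (0 : ℝ) < K := by exact_mod_cast hK
  -- the exponent
  set Ys : Y K × Y K → ℝ := fun s =>
    ∑ j ∈ range K, Real.log (Real.cosh (G j s.1 s.2 / Real.sqrt K)) with hYs
  set f : Y K × Y K → ℝ := fun s => Nq30 w s.1 s.2 / (4 * C * K) - Ys s with hf
  have hterm : ∀ y z : Y K, Real.exp (Nq30 w y z / (4 * C * K)) *
      ∏ j ∈ range K, (1 / Real.cosh (G j y z / Real.sqrt K)) = Real.exp (f (y, z)) := by
    intro y z
    rw [hf]
    simp only
    rw [Real.exp_sub, hYs]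
    simp only
    rw [Real.exp_sum]
    have : ∏ j ∈ range K, Real.exp (Real.log (Real.cosh (G j y z / Real.sqrt K))) =
        ∏ j ∈ range K, Real.cosh (G j y z / Real.sqrt K) := by
      apply Finset.prod_congr rfl
      intro j _
      rw [Real.exp_log (Real.cosh_pos _)]
    rw [this, div_eq_mul_inv (Real.exp _), ← Finset.prod_inv_distrib]
    simp only [one_div]
  have hsum : ∑ y : Y K, ∑ z : Y K, Real.exp (Nq30 w y z / (4 * C * K)) *
      ∏ j ∈ range K, (1 / Real.cosh (G j y z / Real.sqrt K)) =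
      ∑ s : Y K × Y K, Real.exp (f s) := by
    rw [Fintype.sum_prod_type]
    apply Finset.sum_congr rfl
    intro y _
    apply Finset.sum_congr rfl
    intro z _
    exact hterm y z
  rw [hsum]
  set Z : ℝ := ∑ s : Y K × Y K, Real.exp (f s) with hZ
  have hne : Nonempty (Y K × Y K) := ⟨(fun _ => true, fun _ => true)⟩
  have hZpos : 0 < Z := Finset.sum_pos (fun s _ => Real.exp_pos _) univ_nonempty
  -- the Gibbs law
  set ρ : Y K × Y K → ℝ := fun s => Real.exp (f s) / Z with hρdef
  have hρ : Pool.Agent.SBW.Law ρ := by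
    refine ⟨fun s => div_pos (Real.exp_pos _) hZpos, ?_⟩
    rw [hρdef]
    simp only
    rw [← Finset.sum_div]
    exact div_self hZpos.ne'
  have hkl : Pool.Agent.SBW.kl ρ = (∑ s, ρ s * f s) - Real.log (Z / 4 ^ K) := by
    unfold Pool.Agent.SBW.kl
    have h1 : ∀ s : Y K × Y K, ρ s * Real.log (4 ^ K * ρ s) =
        ρ s * f s - ρ s * Real.log (Z / 4 ^ K) := by
      intro s
      rw [← mul_sub]
      congr 1
      rw [hρdef]
      simp only
      rw [Real.log_mul (by positivity) (div_pos (Real.exp_pos _) hZpos).ne',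
        Real.log_div (Real.exp_pos _).ne' hZpos.ne', Real.log_exp,
        Real.log_div hZpos.ne' (by positivity)]
      ring
    rw [Finset.sum_congr rfl (fun s _ => h1 s), Finset.sum_sub_distrib, ← Finset.sum_mul, hρ.sum,
      one_mul]
  have hmain := hW K G g t c w (fun y z => ρ (y, z)) hK hStr (fun y z => (hρ.pos _).le) (by
    have h1 := hρ.sum
    rw [Fintype.sum_prod_type] at h1
    exact h1)
  have hkl' : ∑ y : Y K, ∑ z : Y K, ρ (y, z) * Real.log (4 ^ K * ρ (y, z)) =
      Pool.Agent.SBW.kl ρ := by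
    unfold Pool.Agent.SBW.kl
    rw [Fintype.sum_prod_type]
  rw [hkl'] at hmain
  have hN : ∑ p ∈ range K, ∑ q ∈ range (K - p), ∑ y : Y K, ∑ z : Y K,
        (if w p q y z then ρ (y, z) else 0) = ∑ s, ρ s * Nq30 w s.1 s.2 := by
    have h1 : ∀ s : Y K × Y K, ρ s * Nq30 w s.1 s.2 =
        ∑ p ∈ range K, ∑ q ∈ range (K - p), if w p q s.1 s.2 then ρ s else 0 := by
      intro s
      unfold Nq30
      rw [Finset.mul_sum]
      apply Finset.sum_congr rfl
      intro p _
      rw [Finset.mul_sum]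
      apply Finset.sum_congr rfl
      intro q _
      split_ifs <;> simp
    rw [Finset.sum_congr rfl (fun s _ => h1 s), Finset.sum_comm (s := (univ : Finset (Y K × Y K)))]
    apply Finset.sum_congr rfl
    intro p _
    rw [Finset.sum_comm (s := (univ : Finset (Y K × Y K)))]
    apply Finset.sum_congr rfl
    intro q _
    rw [Fintype.sum_prod_type]
  rw [hN] at hmain
  have hcost : ∑ j ∈ range K, ∑ y : Y K, ∑ z : Y K, ρ (y, z) *
        min (G j y z ^ 2 / K) (|G j y z| / Real.sqrt K) ≤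
      4 * ∑ s, ρ s * Ys s := by
    have h0 : ∑ j ∈ range K, ∑ y : Y K, ∑ z : Y K, ρ (y, z) *
        min (G j y z ^ 2 / K) (|G j y z| / Real.sqrt K) =
        ∑ j ∈ range K, ∑ s : Y K × Y K, ρ s *
          min ((G j s.1 s.2 / Real.sqrt K) ^ 2) |G j s.1 s.2 / Real.sqrt K| := by
      apply Finset.sum_congr rfl
      intro j _
      rw [Fintype.sum_prod_type]
      apply Finset.sum_congr rfl
      intro y _
      apply Finset.sum_congr rfl
      intro z _
      dsimp only
      rw [div_pow, Real.sq_sqrt hKpos.le, abs_div, abs_of_nonneg (Real.sqrt_nonneg (K : ℝ))]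
    rw [h0, Finset.sum_comm, Finset.mul_sum]
    apply Finset.sum_le_sum
    intro s _
    rw [← Finset.mul_sum, hYs]
    simp only
    have h1 : ∑ j ∈ range K, min ((G j s.1 s.2 / Real.sqrt K) ^ 2)
        |G j s.1 s.2 / Real.sqrt K| ≤
        4 * ∑ j ∈ range K, Real.log (Real.cosh (G j s.1 s.2 / Real.sqrt K)) := by
      rw [Finset.mul_sum]
      apply Finset.sum_le_sum
      intro j _
      exact logcosh46 _
    have h2 := mul_le_mul_of_nonneg_left h1 (hρ.pos s).le
    linarith
  have hkl0 := kl_nonneg46 ρ hρ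
  have hCK : 0 < C * K := mul_pos hC hKpos
  have h1 : ∑ s, ρ s * Nq30 w s.1 s.2 ≤
      C * K * (4 * (Pool.Agent.SBW.kl ρ + ∑ s, ρ s * Ys s)) := by
    refine le_trans hmain ?_
    apply mul_le_mul_of_nonneg_left _ hCK.le
    linarith
  have h2 : ∑ s, ρ s * f s ≤ Pool.Agent.SBW.kl ρ := by
    have h3 : ∑ s, ρ s * f s = (∑ s, ρ s * Nq30 w s.1 s.2) / (4 * C * K) - ∑ s, ρ s * Ys s := by
      rw [Finset.sum_div, ← Finset.sum_sub_distrib]
      apply Finset.sum_congr rfl
      intro s _
      rw [hf]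
      simp only
      ring
    rw [h3]
    have h4 : (∑ s, ρ s * Nq30 w s.1 s.2) / (4 * C * K) ≤
        Pool.Agent.SBW.kl ρ + ∑ s, ρ s * Ys s := by
      rw [div_le_iff₀ (by positivity)]
      linarith
    linarith
  have h3 : Real.log (Z / 4 ^ K) ≤ 0 := by
    rw [hkl] at h2
    linarith
  have h4 : Z / 4 ^ K ≤ 1 := by
    by_contra hcon
    push Not at hcon
    exact absurd (Real.log_pos hcon) (not_lt.mpr h3)
  rw [div_le_one (by positivity)] at h4
  exact h4

theorem sum_rot_30 {α : Type} [Fintype α] (F : α → α → α → ℝ) :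
    ∑ y, ∑ z, ∑ x, F x y z = ∑ x, ∑ y, ∑ z, F x y z := by
  have h1 : ∀ y : α, ∑ z, ∑ x, F x y z = ∑ x, ∑ z, F x y z := by
    intro y
    exact Finset.sum_comm
  rw [Finset.sum_congr rfl (fun y _ => h1 y)]
  exact Finset.sum_comm

/-- ABS from W and TLT2 -/
theorem absw_30 (hW : StW) (hT : StTlt2) : StAbsW := by
  classical
  obtain ⟨δ, hδ, C, hC, hE⟩ := expoW_30 hW
  refine ⟨δ, hδ, 2 * C, by positivity, ?_⟩
  intro L H M w0 hL hw0 hM
  have hLpos : (0 : ℝ) < L := by exact_mod_cast hL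
  have hsq : 0 < Real.sqrt L := Real.sqrt_pos.mpr hLpos
  set σ : ℝ := w0 * Real.sqrt L with hσ
  have hσpos : 0 < σ := mul_pos hw0 hsq
  set c1 : ℝ := σ / (C * L) with hc1
  have hc1pos : 0 < c1 := by positivity
  set N : Y L → Y L → Y L → ℝ := fun x y z => Ngd H δ w0 x y z with hNdef
  set H' : Y L → Y L → Y L → ℝ := fun x y z => H x y z + c1 * N x y z with hH'
  -- the exponential inequality for fixed `x`
  have hexp : ∀ x : Y L, ∑ y : Y L, ∑ z : Y L, Real.exp (N x y z / (C * L)) *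
      ∏ i ∈ range L, (1 / Real.cosh (Mx H' i x y z / σ)) ≤ 4 ^ L := by
    intro x
    obtain ⟨g, t, hStr⟩ := hT L H δ w0 c1 x hw0
    have h1 := hE L _ _ _ _ _ hL hStr
    refine le_trans (le_of_eq ?_) h1
    apply Finset.sum_congr rfl
    intro y _
    apply Finset.sum_congr rfl
    intro z _
    congr 1
    have h3 : ∏ j ∈ range L, (1 / Real.cosh (Mx H' (L - 1 - j) x y z / w0 / Real.sqrt L)) =
        ∏ j ∈ range L, (1 / Real.cosh (Mx H' (L - 1 - j) x y z / σ)) := by
      apply Finset.prod_congr rfl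
      intro j _
      rw [div_div]
    refine Eq.trans ?_ h3.symm
    exact (Finset.prod_range_reflect (fun i => 1 / Real.cosh (Mx H' i x y z / σ)) L).symm
  -- the martingale identity for fixed `y, z`
  have hmart : ∀ y z : Y L, ∑ x : Y L, Real.exp (H' x y z / σ) *
      ∏ i ∈ range L, (1 / Real.cosh (Mx H' i x y z / σ)) =
      ∑ x : Y L, Real.exp (Ey 0 (fun x' => σ⁻¹ * H' x' y z) x) := by
    intro y z
    have h1 := mart46 (fun x => σ⁻¹ * H' x y z)
    have h3 : ∀ (i : ℕ) (x : Y L), Ey i (fun x' => sgr (bit x' i) * (σ⁻¹ * H' x' y z)) x =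
        Mx H' i x y z / σ := by
      intro i x
      unfold Mx
      rw [div_eq_inv_mul, ← Ey_smul46]
      apply Ey_congr46
      intro x'
      ring
    rw [← h1]
    apply Finset.sum_congr rfl
    intro x _
    have h5 : H' x y z / σ = σ⁻¹ * H' x y z := div_eq_inv_mul _ _
    rw [h5]
    congr 1
    apply Finset.prod_congr rfl
    intro i _
    rw [h3]
  -- lower bound of the mean
  have hmean : ∀ y z x : Y L, -(M / σ) + Ey 0 (fun x' => c1 / σ * N x' y z) x ≤
      Ey 0 (fun x' => σ⁻¹ * H' x' y z) x := by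
    intro y z x
    have h1 : (fun x' => σ⁻¹ * H' x' y z) =
        fun x' => σ⁻¹ * H x' y z + 1 * (c1 / σ * N x' y z) := by
      funext x'
      rw [hH']
      simp only
      field_simp
    rw [h1, Ey_add46, one_mul, Ey_smul46 0 (fun x' => H x' y z) σ⁻¹ x]
    have h2 := Ey_le46 0 (fun x' => H x' y z) M (fun x' => hM x' y z) x
    have h3 : -(M / σ) ≤ σ⁻¹ * Ey 0 (fun x' => H x' y z) x := by
      have h4 := (abs_le.mp h2).1
      have h5 : σ⁻¹ * -M ≤ σ⁻¹ * Ey 0 (fun x' => H x' y z) x :=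
        mul_le_mul_of_nonneg_left h4 (by positivity)
      have h6 : σ⁻¹ * -M = -(M / σ) := by ring
      linarith
    linarith
  -- lower bound
  set S : ℝ := ∑ x : Y L, ∑ y : Y L, ∑ z : Y L, N x y z with hS
  set a : ℝ := c1 / σ * S / 8 ^ L with ha
  have hcard2 : (Fintype.card (Y L) : ℝ) = 2 ^ L := by
    simp only [Fintype.card_pi, Fintype.card_bool, Finset.prod_const, Finset.card_univ,
      Fintype.card_fin]
    push_cast
    rfl
  have h8 : (8 : ℝ) ^ L = 2 ^ L * (2 ^ L * 2 ^ L) := by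
    rw [← mul_pow, ← mul_pow]
    norm_num
  have h4' : (4 : ℝ) ^ L = 2 ^ L * 2 ^ L := by
    rw [← mul_pow]
    norm_num
  have hlow : Real.exp (-(M / σ)) * (Real.exp a * 8 ^ L) ≤
      ∑ y : Y L, ∑ z : Y L, ∑ x : Y L, Real.exp (Ey 0 (fun x' => σ⁻¹ * H' x' y z) x) := by
    have h1 : ∀ t : ℝ, Real.exp a * (1 + t - a) ≤ Real.exp t := by
      intro t
      have h2 := Real.add_one_le_exp (t - a)
      have h3 : Real.exp t = Real.exp a * Real.exp (t - a) := by
        rw [← Real.exp_add]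
        congr 1
        ring
      rw [h3]
      apply mul_le_mul_of_nonneg_left _ (Real.exp_pos a).le
      linarith
    have h2 : ∑ y : Y L, ∑ z : Y L, ∑ x : Y L, Real.exp (-(M / σ)) *
        (Real.exp a * (1 + Ey 0 (fun x' => c1 / σ * N x' y z) x - a)) ≤
        ∑ y : Y L, ∑ z : Y L, ∑ x : Y L, Real.exp (Ey 0 (fun x' => σ⁻¹ * H' x' y z) x) := by
      apply Finset.sum_le_sum
      intro y _
      apply Finset.sum_le_sum
      intro z _
      apply Finset.sum_le_sum
      intro x _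
      refine le_trans (mul_le_mul_of_nonneg_left (h1 _) (Real.exp_pos _).le) ?_
      rw [← Real.exp_add]
      exact Real.exp_le_exp.mpr (hmean y z x)
    refine le_trans (le_of_eq ?_) h2
    have h3 : ∀ y z : Y L, ∑ x : Y L, Real.exp (-(M / σ)) *
        (Real.exp a * (1 + Ey 0 (fun x' => c1 / σ * N x' y z) x - a)) =
        Real.exp (-(M / σ)) *
          (Real.exp a * (2 ^ L * (1 - a) + c1 / σ * ∑ x : Y L, N x y z)) := by
      intro y z
      rw [← Finset.mul_sum, ← Finset.mul_sum]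
      congr 2
      rw [Finset.sum_sub_distrib, Finset.sum_add_distrib, (eyb_33 L 0 (fun x' => c1 / σ *
        N x' y z) (fun _ => 0)).2.2.2.2.2.2.2.1, ← Finset.mul_sum, Finset.sum_const,
        Finset.sum_const, Finset.card_univ, nsmul_eq_mul, nsmul_eq_mul, hcard2]
      ring
    rw [Finset.sum_congr rfl (fun y _ => Finset.sum_congr rfl (fun z _ => h3 y z))]
    have h4 : ∑ y : Y L, ∑ z : Y L, Real.exp (-(M / σ)) *
        (Real.exp a * (2 ^ L * (1 - a) + c1 / σ * ∑ x : Y L, N x y z)) =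
        Real.exp (-(M / σ)) * (Real.exp a * (8 ^ L * (1 - a) + c1 / σ * S)) := by
      have h5 : ∑ y : Y L, ∑ z : Y L, ∑ x : Y L, N x y z = S :=
        sum_rot_30 (fun x y z => N x y z)
      rw [← h5]
      simp only [← Finset.mul_sum, Finset.sum_add_distrib, Finset.sum_const, Finset.card_univ,
        nsmul_eq_mul, hcard2]
      rw [h8]
      ring
    rw [h4]
    have h6 : c1 / σ * S = a * 8 ^ L := by
      rw [ha]
      field_simp
    rw [h6]
    ring
  -- upper bound
  have hup : ∑ y : Y L, ∑ z : Y L, ∑ x : Y L,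
      Real.exp (Ey 0 (fun x' => σ⁻¹ * H' x' y z) x) ≤ Real.exp (M / σ) * 8 ^ L := by
    rw [Finset.sum_congr rfl (fun y _ => Finset.sum_congr rfl (fun z _ => (hmart y z).symm)),
      sum_rot_30 (fun x y z => Real.exp (H' x y z / σ) *
        ∏ i ∈ range L, (1 / Real.cosh (Mx H' i x y z / σ)))]
    have h1 : ∀ x y z : Y L, Real.exp (H' x y z / σ) *
        ∏ i ∈ range L, (1 / Real.cosh (Mx H' i x y z / σ)) ≤
        Real.exp (M / σ) * (Real.exp (N x y z / (C * L)) *
        ∏ i ∈ range L, (1 / Real.cosh (Mx H' i x y z / σ))) := by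
      intro x y z
      rw [← mul_assoc]
      apply mul_le_mul_of_nonneg_right
      · rw [← Real.exp_add]
        apply Real.exp_le_exp.mpr
        have h2 := (abs_le.mp (hM x y z)).2
        have h3 : H' x y z / σ = H x y z / σ + N x y z / (C * L) := by
          rw [hH']
          simp only
          rw [hc1]
          field_simp
        rw [h3]
        have h4 : H x y z / σ ≤ M / σ := div_le_div_of_nonneg_right h2 hσpos.le
        linarith
      · apply Finset.prod_nonneg
        intro i _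
        exact div_nonneg zero_le_one (Real.cosh_pos _).le
    have h2 : ∑ x : Y L, ∑ y : Y L, ∑ z : Y L, Real.exp (H' x y z / σ) *
        ∏ i ∈ range L, (1 / Real.cosh (Mx H' i x y z / σ)) ≤
        ∑ x : Y L, Real.exp (M / σ) * 4 ^ L := by
      apply Finset.sum_le_sum
      intro x _
      refine le_trans (Finset.sum_le_sum (fun y _ => Finset.sum_le_sum (fun z _ => h1 x y z))) ?_
      simp only [← Finset.mul_sum]
      exact mul_le_mul_of_nonneg_left (hexp x) (Real.exp_pos _).le
    refine le_trans h2 (le_of_eq ?_)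
    rw [Finset.sum_const, Finset.card_univ, nsmul_eq_mul, hcard2, h8, h4']
    ring
  have h1 : Real.exp (-(M / σ) + a) ≤ Real.exp (M / σ) := by
    have h2 := le_trans hlow hup
    rw [← mul_assoc, ← Real.exp_add] at h2
    exact le_of_mul_le_mul_right h2 (by positivity)
  have h2 : a ≤ 2 * M / σ := by
    have h3 := Real.exp_le_exp.mp h1
    have h4 : 2 * M / σ = M / σ + M / σ := by ring
    linarith
  have h3 : c1 * S ≤ 2 * M * 8 ^ L := by
    rw [ha] at h2
    have h4 : c1 / σ * S / 8 ^ L = c1 * S / 8 ^ L / σ := by ring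
    rw [h4, div_le_div_iff_of_pos_right hσpos, div_le_iff₀ (by positivity)] at h2
    exact h2
  have h4 : w0 * S = C * Real.sqrt L * (c1 * S) := by
    rw [hc1, hσ]
    field_simp
    rw [Real.sq_sqrt hLpos.le]
  have h6 : w0 * S ≤ 2 * C * Real.sqrt L * M * 8 ^ L := by
    rw [h4]
    have h5 : C * Real.sqrt L * (c1 * S) ≤ C * Real.sqrt L * (2 * M * 8 ^ L) :=
      mul_le_mul_of_nonneg_left h3 (by positivity)
    linarith
  have h7 : ∑ p ∈ range L, ∑ q ∈ range (L - p), ∑ x : Y L, ∑ y : Y L, ∑ z : Y L,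
        (if Gd H δ w0 p q x y z then (1 : ℝ) else 0) = S := by
    rw [hS, hNdef]
    simp only
    unfold Ngd
    have e1 : ∀ F : ℕ → ℕ → Y L → Y L → Y L → ℝ,
        ∑ p ∈ range L, ∑ q ∈ range (L - p), ∑ x : Y L, ∑ y : Y L, ∑ z : Y L, F p q x y z =
        ∑ x : Y L, ∑ y : Y L, ∑ z : Y L, ∑ p ∈ range L, ∑ q ∈ range (L - p), F p q x y z := by
      intro F
      have e2 : ∀ p, ∑ q ∈ range (L - p), ∑ x : Y L, ∑ y : Y L, ∑ z : Y L, F p q x y z =
          ∑ x : Y L, ∑ y : Y L, ∑ z : Y L, ∑ q ∈ range (L - p), F p q x y z := by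
        intro p
        rw [Finset.sum_comm]
        apply Finset.sum_congr rfl
        intro x _
        rw [Finset.sum_comm]
        apply Finset.sum_congr rfl
        intro y _
        rw [Finset.sum_comm]
      rw [Finset.sum_congr rfl (fun p _ => e2 p), Finset.sum_comm]
      apply Finset.sum_congr rfl
      intro x _
      rw [Finset.sum_comm]
      apply Finset.sum_congr rfl
      intro y _
      rw [Finset.sum_comm]
    exact e1 (fun p q x y z => if Gd H δ w0 p q x y z then (1 : ℝ) else 0)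
  rw [h7]
  exact h6

end Pool.Agent.SBT
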