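import Pool.Agent.Lib.MP_a7b2aa_an.SBT.Op38

/-!
SBT (helper76): INV, the inverse inequality for frequencies in a dyadic block (Jackson kernel with
`8 K` nodes).
-/

set_option autoImplicit false
set_option linter.unusedSectionVars false

namespace Pool.Agent.SBT

open Finset Pool.Agent.SB3

namespace I76

/-- the root of unity of order `n` -/
noncomputable def zt (n : ℕ) : ℂ := Complex.exp (2 * Real.pi * Complex.I / n)

lemma zt_ne (n : ℕ) : zt n ≠ 0 := Complex.exp_ne_zero _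

lemma zt_zpow (n : ℕ) (m : ℤ) : zt n ^ m = Complex.exp (2 * Real.pi * Complex.I * m / n) := by
  unfold zt
  rw [← Complex.exp_int_mul]
  congr 1
  ring

lemma zt_norm (n : ℕ) (m : ℤ) : ‖zt n ^ m‖ = 1 := by
  rw [zt_zpow]
  have : (2 * (Real.pi : ℂ) * Complex.I * m / n) = ((2 * Real.pi * m / n : ℝ) : ℂ) * Complex.I := by
    push_cast
    ring
  rw [this, Complex.norm_exp_ofReal_mul_I]

lemma zt_conj (n : ℕ) (m : ℤ) : (starRingEnd ℂ) (zt n ^ m) = zt n ^ (-m) := by
  have h1 : zt n ^ m * (starRingEnd ℂ) (zt n ^ m) = 1 := by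
    rw [Complex.mul_conj, Complex.normSq_eq_norm_sq, zt_norm]
    simp
  rw [zpow_neg]
  exact eq_inv_of_mul_eq_one_right h1

/-- geometric sum -/
lemma geo (n : ℕ) (hn : 0 < n) (m : ℤ) (h0 : m ≠ 0) (h1 : |m| < n) :
    ∑ j ∈ range n, (zt n ^ m) ^ j = 0 := by
  have hne : zt n ^ m ≠ 1 := by
    rw [zt_zpow]
    intro h
    rw [Complex.exp_eq_one_iff] at h
    obtain ⟨r, hr⟩ := h
    have hn' : (n : ℂ) ≠ 0 := by exact_mod_cast hn.ne'
    have hpi : (2 * (Real.pi : ℂ) * Complex.I) ≠ 0 := Complex.two_pi_I_ne_zero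
    have h2 : (m : ℂ) = r * n := by
      have h3 : (2 * (Real.pi : ℂ) * Complex.I) * (m / n) = (2 * (Real.pi : ℂ) * Complex.I) * r := by
        rw [← mul_div_assoc, hr]
        ring
      have h4 := mul_left_cancel₀ hpi h3
      rw [div_eq_iff hn'] at h4
      exact h4
    have h5 : m = r * n := by exact_mod_cast h2
    have h6 : r = 0 := by
      by_contra hr0
      have : (1 : ℤ) ≤ |r| := Int.one_le_abs hr0
      have h7 : |m| = |r| * n := by rw [h5, abs_mul, Nat.abs_cast]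
      have h8 : (0 : ℤ) < n := by exact_mod_cast hn
      nlinarith
    rw [h6] at h5
    exact h0 (by simpa using h5)
  have hpow : (zt n ^ m) ^ n = 1 := by
    rw [← zpow_natCast, ← zpow_mul, zt_zpow, Complex.exp_eq_one_iff]
    refine ⟨m, ?_⟩
    have hn' : (n : ℂ) ≠ 0 := by exact_mod_cast hn.ne'
    push_cast
    field_simp
  have h9 := geom_sum_mul (zt n ^ m) n
  rw [hpow, sub_self] at h9
  exact (mul_eq_zero.mp h9).resolve_right (sub_ne_zero.mpr hne)

/-- the Dirichlet sum -/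
noncomputable def dA (n K j : ℕ) : ℂ := ∑ t ∈ range K, (zt n ^ (t : ℤ)) ^ j

/-- its conjugate -/
noncomputable def dB (n K j : ℕ) : ℂ := ∑ t ∈ range K, (zt n ^ (-(t : ℤ))) ^ j

lemma conj_dA (n K j : ℕ) : (starRingEnd ℂ) (dA n K j) = dB n K j := by
  unfold dA dB
  rw [map_sum]
  apply Finset.sum_congr rfl
  intro t _
  rw [map_pow, zt_conj]

lemma stepA (n K : ℕ) (Φ : ℕ → ℂ) (m : ℤ)
    (h : ∀ t < K, ∑ j ∈ range n, (zt n ^ (m + t)) ^ j * Φ j = 0) :
    ∑ j ∈ range n, (zt n ^ m) ^ j * (dA n K j * Φ j) = 0 := by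
  have h1 : ∀ j, (zt n ^ m) ^ j * (dA n K j * Φ j) =
      ∑ t ∈ range K, (zt n ^ (m + t)) ^ j * Φ j := by
    intro j
    unfold dA
    rw [Finset.sum_mul, Finset.mul_sum]
    apply Finset.sum_congr rfl
    intro t _
    rw [zpow_add₀ (zt_ne n), mul_pow]
    ring
  simp_rw [h1]
  rw [Finset.sum_comm]
  apply Finset.sum_eq_zero
  intro t ht
  exact h t (Finset.mem_range.mp ht)

lemma stepB (n K : ℕ) (Φ : ℕ → ℂ) (m : ℤ)
    (h : ∀ t < K, ∑ j ∈ range n, (zt n ^ (m - t)) ^ j * Φ j = 0) :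
    ∑ j ∈ range n, (zt n ^ m) ^ j * (dB n K j * Φ j) = 0 := by
  have h1 : ∀ j, (zt n ^ m) ^ j * (dB n K j * Φ j) =
      ∑ t ∈ range K, (zt n ^ (m - t)) ^ j * Φ j := by
    intro j
    unfold dB
    rw [Finset.sum_mul, Finset.mul_sum]
    apply Finset.sum_congr rfl
    intro t _
    rw [sub_eq_add_neg, zpow_add₀ (zt_ne n), mul_pow]
    ring
  simp_rw [h1]
  rw [Finset.sum_comm]
  apply Finset.sum_eq_zero
  intro t ht
  exact h t (Finset.mem_range.mp ht)

/-- the weights -/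
noncomputable def gw (n K j : ℕ) : ℝ := ‖dA n K j‖ ^ 4

lemma gw_cast (n K j : ℕ) : (gw n K j : ℂ) = dA n K j * (dA n K j * (dB n K j * (dB n K j * 1))) := by
  have h1 : dA n K j * dB n K j = ((‖dA n K j‖ ^ 2 : ℝ) : ℂ) := by
    rw [← conj_dA, Complex.mul_conj, Complex.normSq_eq_norm_sq]
  have h2 : dA n K j * (dA n K j * (dB n K j * (dB n K j * 1))) =
      (dA n K j * dB n K j) * (dA n K j * dB n K j) := by ring
  rw [h2, h1]
  unfold gw
  push_cast
  ring

lemma vanish (K : ℕ) (hK : 0 < K) (k : ℤ) (h1 : 2 * (K : ℤ) ≤ |k|) (h2 : |k| < 4 * K) :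
    ∑ j ∈ range (8 * K), (zt (8 * K) ^ k) ^ j * (gw (8 * K) K j : ℂ) = 0 := by
  simp_rw [gw_cast]
  apply stepA
  intro t1 ht1
  apply stepA
  intro t2 ht2
  apply stepB
  intro t3 ht3
  apply stepB
  intro t4 ht4
  simp_rw [mul_one]
  apply geo _ (by omega)
  · intro h
    rcases abs_cases k with hk | hk <;> omega
  · rw [abs_lt]
    push_cast
    rcases abs_cases k with hk | hk <;> constructor <;> omega

lemma gw_nonneg (n K j : ℕ) : 0 ≤ gw n K j := by unfold gw; positivity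

lemma gw_zero (n K : ℕ) : gw n K 0 = (K : ℝ) ^ 4 := by
  unfold gw dA
  simp

/-- distance to the multiples of `n` -/
def dst (n j : ℕ) : ℕ := min j (n - j)

lemma sin_low (n j : ℕ) (hn : 0 < n) (hj : j < n) :
    2 * (dst n j : ℝ) / n ≤ Real.sin (Real.pi * j / n) := by
  have hn' : (0 : ℝ) < n := by exact_mod_cast hn
  have key : ∀ i : ℕ, 2 * i ≤ n → 2 * (i : ℝ) / n ≤ Real.sin (Real.pi * i / n) := by
    intro i hi
    have hi' : 2 * (i : ℝ) ≤ n := by exact_mod_cast hi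
    have h1 : 0 ≤ Real.pi * i / n := by positivity
    have h2 : Real.pi * i / n ≤ Real.pi / 2 := by
      rw [div_le_div_iff₀ hn' (by norm_num)]
      have := Real.pi_pos
      nlinarith
    have h3 := Real.mul_le_sin h1 h2
    refine le_trans (le_of_eq ?_) h3
    have := Real.pi_pos.ne'
    field_simp
  rcases le_or_gt (2 * j) n with h | h
  · have : dst n j = j := by unfold dst; omega
    rw [this]
    exact key j h
  · have h1 : dst n j = n - j := by unfold dst; omega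
    rw [h1]
    have h2 := key (n - j) (by omega)
    refine h2.trans (le_of_eq ?_)
    rw [Nat.cast_sub hj.le]
    have : Real.pi * ((n : ℝ) - j) / n = Real.pi - Real.pi * j / n := by
      field_simp
    rw [this, Real.sin_pi_sub]

lemma norm_sub_one (n j : ℕ) (hn : 0 < n) (hj : j < n) :
    4 * (dst n j : ℝ) / n ≤ ‖(zt n ^ (j : ℤ)) - 1‖ := by
  have h1 : (zt n ^ (j : ℤ)) = Complex.exp (Complex.I * ((2 * Real.pi * j / n : ℝ) : ℂ)) := by
    rw [zt_zpow]
    congr 1
    push_cast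
    ring
  rw [h1, Complex.norm_exp_I_mul_ofReal_sub_one]
  have h2 : (2 * Real.pi * (j : ℝ) / n) / 2 = Real.pi * j / n := by ring
  rw [h2, norm_mul, Real.norm_eq_abs, Real.norm_eq_abs]
  have h3 := sin_low n j hn hj
  have h4 : 4 * (dst n j : ℝ) / n = 2 * (2 * (dst n j : ℝ) / n) := by ring
  rw [h4, abs_of_pos (by norm_num : (0 : ℝ) < 2)]
  exact mul_le_mul_of_nonneg_left (h3.trans (le_abs_self _)) (by norm_num)

lemma dA_bound (n K j : ℕ) (hn : 0 < n) (hj : j < n) (hj0 : 0 < j) :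
    ‖dA n K j‖ ≤ n / (2 * (dst n j : ℝ)) := by
  have hd : 0 < dst n j := by unfold dst; omega
  have hd' : (0 : ℝ) < dst n j := by exact_mod_cast hd
  have hn' : (0 : ℝ) < n := by exact_mod_cast hn
  have h1 : dA n K j = ∑ t ∈ range K, (zt n ^ (j : ℤ)) ^ t := by
    unfold dA
    apply Finset.sum_congr rfl
    intro t _
    rw [zpow_natCast, zpow_natCast, ← pow_mul, ← pow_mul, mul_comm]
  have h2 : ‖dA n K j‖ * ‖(zt n ^ (j : ℤ)) - 1‖ ≤ 2 := by
    rw [← norm_mul, h1, geom_sum_mul]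
    refine (norm_sub_le _ _).trans ?_
    rw [norm_pow, zt_norm]
    norm_num
  have h3 := norm_sub_one n j hn hj
  rw [le_div_iff₀ (by positivity)]
  have h4 : ‖dA n K j‖ * (4 * (dst n j : ℝ) / n) ≤ 2 :=
    (mul_le_mul_of_nonneg_left h3 (norm_nonneg _)).trans h2
  have h5 : ‖dA n K j‖ * (4 * (dst n j : ℝ) / n) = (‖dA n K j‖ * (2 * (dst n j : ℝ))) * (2 / n) := by
    ring
  rw [h5] at h4
  have h6 : (‖dA n K j‖ * (2 * (dst n j : ℝ))) * (2 / n) ≤ n * (2 / n) := by
    refine h4.trans (le_of_eq ?_)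
    field_simp
  exact le_of_mul_le_mul_right h6 (by positivity)

lemma gw_bound (n K j : ℕ) (hn : 0 < n) (hj : j < n) (hj0 : 0 < j) :
    gw n K j * (dst n j : ℝ) ≤ n ^ 4 / 16 * (1 / (j : ℝ) ^ 3 + 1 / ((n - j : ℕ) : ℝ) ^ 3) := by
  have hd : 0 < dst n j := by unfold dst; omega
  have hd' : (0 : ℝ) < dst n j := by exact_mod_cast hd
  have h1 := dA_bound n K j hn hj hj0
  have h2 : gw n K j ≤ (n / (2 * (dst n j : ℝ))) ^ 4 :=
    pow_le_pow_left₀ (norm_nonneg _) h1 4
  have h3 : gw n K j * (dst n j : ℝ) ≤ (n / (2 * (dst n j : ℝ))) ^ 4 * dst n j :=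
    mul_le_mul_of_nonneg_right h2 hd'.le
  refine h3.trans ?_
  have h4 : (n / (2 * (dst n j : ℝ))) ^ 4 * dst n j = n ^ 4 / 16 * (1 / (dst n j : ℝ) ^ 3) := by
    field_simp
    norm_num
  rw [h4]
  apply mul_le_mul_of_nonneg_left _ (by positivity)
  have hj' : (0 : ℝ) < j := by exact_mod_cast hj0
  have hnj : (0 : ℝ) < ((n - j : ℕ) : ℝ) := by
    have : 0 < n - j := by omega
    exact_mod_cast this
  unfold dst
  rcases le_total j (n - j) with h | h
  · rw [min_eq_left h]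
    have : 0 ≤ 1 / ((n - j : ℕ) : ℝ) ^ 3 := by positivity
    linarith
  · rw [min_eq_right h]
    have : 0 ≤ 1 / (j : ℝ) ^ 3 := by positivity
    linarith

lemma cub_sum (m : ℕ) : ∑ i ∈ range m, 1 / ((i : ℝ) + 1) ^ 3 ≤ 2 - 2 / ((m : ℝ) + 1) := by
  induction m with
  | zero => simp
  | succ m ih =>
    rw [Finset.sum_range_succ]
    push_cast
    have hm : (0 : ℝ) ≤ m := Nat.cast_nonneg m
    have h1 : 1 / ((m : ℝ) + 1) ^ 3 ≤ 2 / ((m : ℝ) + 1) - 2 / ((m : ℝ) + 1 + 1) := by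
      rw [div_sub_div _ _ (by positivity) (by positivity), div_le_div_iff₀ (by positivity)
        (by positivity)]
      nlinarith [mul_nonneg hm hm, mul_nonneg (mul_nonneg hm hm) hm]
    linarith

lemma mom (n K : ℕ) (hn : 0 < n) :
    ∑ j ∈ range n, gw n K j * (dst n j : ℝ) ≤ (n : ℝ) ^ 4 / 4 := by
  obtain ⟨m, rfl⟩ : ∃ m, n = m + 1 := ⟨n - 1, by omega⟩
  rw [Finset.sum_range_succ']
  have h0 : gw (m + 1) K 0 * (dst (m + 1) 0 : ℝ) = 0 := by
    simp [dst]
  rw [h0, add_zero]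
  have h1 : ∑ j ∈ range m, gw (m + 1) K (j + 1) * (dst (m + 1) (j + 1) : ℝ) ≤
      ∑ j ∈ range m, ((m + 1 : ℕ) : ℝ) ^ 4 / 16 *
        (1 / ((j : ℝ) + 1) ^ 3 + 1 / ((m - 1 - j : ℕ) + 1 : ℝ) ^ 3) := by
    apply Finset.sum_le_sum
    intro j hj
    rw [Finset.mem_range] at hj
    have := gw_bound (m + 1) K (j + 1) (by omega) (by omega) (by omega)
    refine this.trans (le_of_eq ?_)
    have h2 : m + 1 - (j + 1) = (m - 1 - j) + 1 := by omega
    rw [h2]
    push_cast
    rfl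
  refine h1.trans ?_
  rw [← Finset.mul_sum, Finset.sum_add_distrib,
    Finset.sum_range_reflect (fun j => 1 / ((j : ℝ) + 1) ^ 3) m]
  have h2 := cub_sum m
  have h3 : (0 : ℝ) ≤ 2 / ((m : ℝ) + 1) := by positivity
  have h4 : (∑ j ∈ range m, 1 / ((j : ℝ) + 1) ^ 3) + ∑ j ∈ range m, 1 / ((j : ℝ) + 1) ^ 3 ≤ 4 := by
    linarith
  have h5 : (0 : ℝ) ≤ ((m + 1 : ℕ) : ℝ) ^ 4 / 16 := by positivity
  have h6 := mul_le_mul_of_nonneg_left h4 h5
  refine h6.trans (le_of_eq ?_)
  ring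

section trans

variable {ι : Type} [Fintype ι] [DecidableEq ι] {N : ℕ} [NeZero N]

lemma sv_add (j : ι) (g h : ZMod N) (u : Tor ι N) : sv j g (sv j h u) = sv j (g + h) u := by
  unfold sv
  funext i
  by_cases hi : i = j
  · subst hi
    simp only [Function.update_self]
    ring
  · simp [Function.update_of_ne hi]

lemma sv_zero (j : ι) (u : Tor ι N) : sv j 0 u = u := by
  unfold sv
  simp

/-- first difference of double step -/
lemma two_step (j : ι) (h : ZMod N) (φ : Tor ι N → ℝ) :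
    ∑ u, |φ (sv j (h + h) u) - φ u| = 2 * S1 (dT j h φ) := by
  rw [← sum_sv_38 j (-h) (fun u => |φ (sv j (h + h) u) - φ u|)]
  unfold S1 dT
  rw [Finset.mul_sum]
  apply Finset.sum_congr rfl
  intro u _
  rw [sv_add]
  have : h + h + -h = h := by ring
  rw [this, abs_div, abs_of_pos (by norm_num : (0 : ℝ) < 2)]
  ring

/-- telescoping -/
lemma tele (j : ι) (h : ZMod N) (φ : Tor ι N → ℝ) (m : ℕ) :
    ∑ u, |φ (sv j ((m : ZMod N) * h) u) - φ u| ≤ m * ∑ u, |φ (sv j h u) - φ u| := by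
  induction m with
  | zero =>
    simp [sv_zero]
  | succ m ih =>
    have h1 : ∀ u, |φ (sv j (((m + 1 : ℕ) : ZMod N) * h) u) - φ u| ≤
        |φ (sv j h (sv j ((m : ZMod N) * h) u)) - φ (sv j ((m : ZMod N) * h) u)| +
          |φ (sv j ((m : ZMod N) * h) u) - φ u| := by
      intro u
      rw [sv_add]
      have h2 : ((m + 1 : ℕ) : ZMod N) * h = h + (m : ZMod N) * h := by
        push_cast
        ring
      rw [h2]
      exact abs_sub_le _ _ _
    refine (Finset.sum_le_sum (fun u _ => h1 u)).trans ?_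
    rw [Finset.sum_add_distrib, sum_sv_38 j ((m : ZMod N) * h) (fun u => |φ (sv j h u) - φ u|)]
    push_cast
    linarith

/-- the two sides -/
lemma both (j : ι) (h : ZMod N) (φ : Tor ι N → ℝ) (n m : ℕ) (hm : m ≤ n)
    (hn : (n : ZMod N) * h = 0) :
    ∑ u, |φ (sv j ((m : ZMod N) * h) u) - φ u| ≤ (dst n m : ℝ) * ∑ u, |φ (sv j h u) - φ u| := by
  unfold dst
  rcases le_total m (n - m) with h1 | h1
  · rw [min_eq_left h1]
    exact tele j h φ m
  · rw [min_eq_right h1]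
    have h2 := tele j h φ (n - m)
    refine le_trans (le_of_eq ?_) h2
    rw [← sum_sv_38 j ((m : ZMod N) * h) (fun u => |φ (sv j (((n - m : ℕ) : ZMod N) * h) u) - φ u|)]
    apply Finset.sum_congr rfl
    intro u _
    rw [sv_add]
    have h3 : ((n - m : ℕ) : ZMod N) * h + (m : ZMod N) * h = 0 := by
      rw [← add_mul, ← Nat.cast_add, Nat.sub_add_cancel hm, hn]
    rw [h3, sv_zero, abs_sub_comm]

end trans

end I76

/-- INV -/
theorem inv_76 : StInv := by
  refine ⟨2048, by norm_num, ?_⟩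
  intro ι _ _ a s j A c hs hsa hA
  obtain ⟨r, rfl⟩ : ∃ r, s = r + 2 := ⟨s - 2, by omega⟩
  obtain ⟨b, rfl⟩ : ∃ b, a = r + 2 + 2 + b := ⟨a - (r + 2 + 2), by omega⟩
  set N : ℕ := 2 ^ (r + 2 + 2 + b) with hN
  set K : ℕ := 2 ^ r with hK
  have hK0 : 0 < K := by positivity
  set P : Tor ι N → ℝ := PT (N := N) A c with hP
  set h : ZMod N := Hs (r + 2 + 2 + b) (r + 2) with hh
  have hh' : h + h = ((2 ^ (b + 1) : ℕ) : ZMod N) := by
    rw [hh]
    unfold Hs
    have : r + 2 + 2 + b - (r + 2) - 2 = b := by omega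
    rw [this, pow_succ]
    push_cast
    ring
  have hnh : ((8 * K : ℕ) : ZMod N) * (h + h) = 0 := by
    rw [hh', ← Nat.cast_mul]
    have : 8 * K * 2 ^ (b + 1) = N := by
      rw [hK, hN, pow_add, pow_add, pow_add, pow_succ]
      ring
    rw [this]
    simp
  -- the character
  have hchar : ∀ (k : ℤ) (i : ℕ), (ZMod.stdAddChar ((k : ZMod N) * ((i : ZMod N) * (h + h))) : ℂ) =
      (I76.zt (8 * K) ^ k) ^ i := by
    intro k i
    have h1 : (k : ZMod N) * ((i : ZMod N) * (h + h)) = ((k * i * 2 ^ (b + 1) : ℤ) : ZMod N) := by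
      rw [hh']
      push_cast
      ring
    rw [h1, ZMod.stdAddChar_coe, I76.zt_zpow, ← Complex.exp_nat_mul]
    congr 1
    have hK' : (K : ℂ) ≠ 0 := by exact_mod_cast hK0.ne'
    have hNK : (N : ℂ) = 8 * K * 2 ^ (b + 1) := by
      rw [hK, hN]
      push_cast
      rw [pow_add, pow_add, pow_add, pow_succ]
      ring
    rw [hNK]
    push_cast
    field_simp
  set G : ℝ := ∑ i ∈ range (8 * K), I76.gw (8 * K) K i with hG
  have hG0 : (K : ℝ) ^ 4 ≤ G := by
    rw [← I76.gw_zero (8 * K) K]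
    exact Finset.single_le_sum (f := fun i => I76.gw (8 * K) K i)
      (fun i _ => I76.gw_nonneg _ _ i) (Finset.mem_range.mpr (by omega))
  have hKp : (0 : ℝ) < K := by exact_mod_cast hK0
  have hGp : 0 < G := lt_of_lt_of_le (by positivity) hG0
  -- the kernel kills P
  have hkill : ∀ u, ∑ i ∈ range (8 * K), I76.gw (8 * K) K i *
      P (sv j ((i : ZMod N) * (h + h)) u) = 0 := by
    intro u
    rw [hP]
    unfold PT
    have h1 : ∀ i : ℕ, I76.gw (8 * K) K i *
        (∑ k ∈ A, c k * ch k (sv j ((i : ZMod N) * (h + h)) u)).re =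
        (∑ k ∈ A, (c k * ch k u) * ((I76.zt (8 * K) ^ (k j)) ^ i *
          (I76.gw (8 * K) K i : ℂ))).re := by
      intro i
      rw [← Complex.re_ofReal_mul, Finset.mul_sum]
      congr 1
      apply Finset.sum_congr rfl
      intro k _
      rw [ch_sv_38, hchar]
      ring
    simp_rw [h1]
    rw [← Complex.re_sum, Finset.sum_comm]
    have h2 : ∑ k ∈ A, ∑ i ∈ range (8 * K), (c k * ch k u) * ((I76.zt (8 * K) ^ (k j)) ^ i *
          (I76.gw (8 * K) K i : ℂ)) = 0 := by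
      apply Finset.sum_eq_zero
      intro k hk
      rw [← Finset.mul_sum]
      obtain ⟨hk1, hk2⟩ := hA k hk
      have hk1' : 2 * (K : ℤ) ≤ |k j| := by
        refine le_trans (le_of_eq ?_) hk1
        have : r + 2 - 1 = r + 1 := by omega
        rw [this, hK, pow_succ]
        push_cast
        ring
      have hk2' : |k j| < 4 * K := by
        refine lt_of_lt_of_le hk2 (le_of_eq ?_)
        rw [hK, pow_add]
        push_cast
        ring
      rw [I76.vanish K hK0 (k j) hk1' hk2', mul_zero]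
    rw [h2, Complex.zero_re]
  -- the representation
  have hrep : ∀ u, G * |P u| ≤ ∑ i ∈ range (8 * K), I76.gw (8 * K) K i *
      |P (sv j ((i : ZMod N) * (h + h)) u) - P u| := by
    intro u
    have h1 : G * P u = - ∑ i ∈ range (8 * K), I76.gw (8 * K) K i *
        (P (sv j ((i : ZMod N) * (h + h)) u) - P u) := by
      simp_rw [mul_sub]
      rw [Finset.sum_sub_distrib, hkill u, hG, Finset.sum_mul]
      ring
    calc G * |P u| = |G * P u| := by rw [abs_mul, abs_of_pos hGp]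
      _ ≤ _ := by
        rw [h1, abs_neg]
        refine (Finset.abs_sum_le_sum_abs _ _).trans (le_of_eq ?_)
        apply Finset.sum_congr rfl
        intro i _
        rw [abs_mul, abs_of_nonneg (I76.gw_nonneg _ _ _)]
  have hsum : G * S1 P ≤ ∑ i ∈ range (8 * K), I76.gw (8 * K) K i *
      ((I76.dst (8 * K) i : ℝ) * (2 * S1 (dT j h P))) := by
    unfold S1
    rw [Finset.mul_sum]
    refine (Finset.sum_le_sum (fun u _ => hrep u)).trans ?_
    rw [Finset.sum_comm]
    apply Finset.sum_le_sum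
    intro i hi
    rw [Finset.mem_range] at hi
    rw [← Finset.mul_sum]
    apply mul_le_mul_of_nonneg_left _ (I76.gw_nonneg _ _ _)
    have h1 := I76.both j (h + h) P (8 * K) i hi.le hnh
    rw [I76.two_step] at h1
    exact h1
  have hmom := I76.mom (8 * K) K (by omega)
  have hS0 : 0 ≤ S1 (dT j h P) := S1_nonneg_38 _
  have h1 : ∑ i ∈ range (8 * K), I76.gw (8 * K) K i *
      ((I76.dst (8 * K) i : ℝ) * (2 * S1 (dT j h P))) =
      (∑ i ∈ range (8 * K), I76.gw (8 * K) K i * (I76.dst (8 * K) i : ℝ)) *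
        (2 * S1 (dT j h P)) := by
    rw [Finset.sum_mul]
    apply Finset.sum_congr rfl
    intro i _
    ring
  rw [h1] at hsum
  have h2 : G * S1 P ≤ (((8 * K : ℕ) : ℝ) ^ 4 / 4) * (2 * S1 (dT j h P)) :=
    hsum.trans (mul_le_mul_of_nonneg_right hmom (by positivity))
  have h3 : (((8 * K : ℕ) : ℝ) ^ 4 / 4) * (2 * S1 (dT j h P)) =
      (K : ℝ) ^ 4 * (2048 * S1 (dT j h P)) := by
    push_cast
    ring
  rw [h3] at h2
  have h4 : (K : ℝ) ^ 4 * (2048 * S1 (dT j h P)) ≤ G * (2048 * S1 (dT j h P)) :=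
    mul_le_mul_of_nonneg_right hG0 (by positivity)
  exact le_of_mul_le_mul_left (h2.trans h4) hGp

end Pool.Agent.SBT
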