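import Pool.Agent.Lib.MP_a7b2aa_an.SBT.Op38

/-!
SBT, helper38: the modules LOW, SUPB, SMALL.
-/

set_option autoImplicit false

namespace Pool.Agent.SBT

open Finset Pool.Agent.SB3

/-- LOW -/
theorem low_38 (hE : StExt) (hI : StInv) : StLow := by
  obtain ⟨C, hC, hI⟩ := hI
  refine ⟨C ^ 3 * 216, by positivity, ?_⟩
  intro m l c hl h1
  have hle := anti_le_38 hl
  choose w hw1 hw2 using fun j : Fin 3 => ker1_38 hE m (l j) (h1 j) (hle j)
  have hex := extr_38 m l c hl w hw2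
  -- inverse inequality, three times
  have inv : ∀ (j : Fin 3) (c' : (Fin 3 → ℤ) → ℂ),
      S1 (PT (N := 2 ^ (2 * m + 3)) (blk l) c') ≤
        C * S1 (dT j (Hs (2 * m + 3) (2 * l j)) (PT (N := 2 ^ (2 * m + 3)) (blk l) c')) := by
    intro j c'
    apply hI (Fin 3) (2 * m + 3) (2 * l j) j (blk l) c'
    · have := h1 j
      omega
    · have := hle j
      omega
    · intro k hk
      have h := mem_blk_38 hk j
      rw [pow_half_38 (l j) (h1 j)] at h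
      exact h
  obtain ⟨c2, hc2⟩ := dT_PT_38 (N := 2 ^ (2 * m + 3)) (2 : Fin 3) (Hs (2 * m + 3) (2 * l 2))
    (blk l) c
  obtain ⟨c1, hc1⟩ := dT_PT_38 (N := 2 ^ (2 * m + 3)) (1 : Fin 3) (Hs (2 * m + 3) (2 * l 1))
    (blk l) c2
  have e1 : S1 (PT (N := 2 ^ (2 * m + 3)) (blk l) c) ≤ C ^ 3 *
      S1 (D3 (2 * m + 3) (2 * l 0) (2 * l 1) (2 * l 2)
        (PT (N := 2 ^ (2 * m + 3)) (blk l) c)) := by
    have i2 := inv 2 c
    have i1 := inv 1 c2
    have i0 := inv 0 c1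
    rw [hc2] at i2
    rw [hc1] at i1
    unfold D3
    rw [hc2, hc1]
    calc S1 (PT (N := 2 ^ (2 * m + 3)) (blk l) c) ≤ C * S1 (PT (N := 2 ^ (2 * m + 3)) (blk l) c2) := i2
      _ ≤ C * (C * S1 (PT (N := 2 ^ (2 * m + 3)) (blk l) c1)) :=
          mul_le_mul_of_nonneg_left i1 hC.le
      _ ≤ C * (C * (C * S1 (dT 0 (Hs (2 * m + 3) (2 * l 0))
            (PT (N := 2 ^ (2 * m + 3)) (blk l) c1)))) :=
          mul_le_mul_of_nonneg_left (mul_le_mul_of_nonneg_left i0 hC.le) hC.le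
      _ = _ := by ring
  have e2 : D3 (2 * m + 3) (2 * l 0) (2 * l 1) (2 * l 2)
      (PT (N := 2 ^ (2 * m + 3)) (blk l) c) =
      Ko38 0 (w 0) (Ko38 1 (w 1) (Ko38 2 (w 2)
        (D3 (2 * m + 3) (2 * l 0) (2 * l 1) (2 * l 2) (Fm m c)))) := by
    rw [← hex]
    unfold D3
    simp only [dT_Ko_38]
  have e3 : S1 (D3 (2 * m + 3) (2 * l 0) (2 * l 1) (2 * l 2)
      (PT (N := 2 ^ (2 * m + 3)) (blk l) c)) ≤
      216 * S1 (D3 (2 * m + 3) (2 * l 0) (2 * l 1) (2 * l 2) (Fm m c)) := by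
    rw [e2]
    have st : ∀ (j : Fin 3) (φ : Tor (Fin 3) (2 ^ (2 * m + 3)) → ℝ),
        S1 (Ko38 j (w j) φ) ≤ 6 * S1 φ := fun j φ =>
      (S1_Ko_38 j (w j) φ).trans (mul_le_mul_of_nonneg_right (hw1 j) (S1_nonneg_38 φ))
    set D := D3 (2 * m + 3) (2 * l 0) (2 * l 1) (2 * l 2) (Fm m c)
    have a0 := st 0 (Ko38 1 (w 1) (Ko38 2 (w 2) D))
    have a1 := st 1 (Ko38 2 (w 2) D)
    have a2 := st 2 D
    linarith
  calc S1 (PT (N := 2 ^ (2 * m + 3)) (blk l) c) ≤ _ := e1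
    _ ≤ C ^ 3 * (216 * S1 (D3 (2 * m + 3) (2 * l 0) (2 * l 1) (2 * l 2) (Fm m c))) :=
        mul_le_mul_of_nonneg_left e3 (by positivity)
    _ = _ := by ring

/-- SUPB -/
theorem supb_38 (hE : StExt) (hV : StVP) : StSupb := by
  intro m l c M hl hM u
  have hle := anti_le_38 hl
  have hk : ∀ j : Fin 3, ∃ w : ZMod (2 ^ (2 * m + 3)) → ℝ, (∑ g, |w g| ≤ 6) ∧
      ∀ l' ≤ m, ∀ t : ℤ, (2 : ℤ) ^ (2 * l') / 2 ≤ |t| → |t| < (2 : ℤ) ^ (2 * l') →
        mu38 w t = if l' = l j then 1 else 0 := by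
    intro j
    rcases Nat.eq_zero_or_pos (l j) with h | h
    · rw [h]
      exact ker0_38 hV m
    · exact ker1_38 hE m (l j) h (hle j)
  choose w hw1 hw2 using hk
  have hex := extr_38 m l c hl w hw2
  have hM0 : 0 ≤ M := (abs_nonneg _).trans (hM 0)
  rw [← hex]
  have st : ∀ (j : Fin 3) (φ : Tor (Fin 3) (2 ^ (2 * m + 3)) → ℝ) (B : ℝ), 0 ≤ B →
      (∀ u, |φ u| ≤ B) → ∀ u, |Ko38 j (w j) φ u| ≤ 6 * B := fun j φ B hB h u =>
    (sup_Ko_38 j (w j) φ B h u).trans (mul_le_mul_of_nonneg_right (hw1 j) hB)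
  have a2 := st 2 _ M hM0 hM
  have a1 := st 1 _ _ (by positivity) a2
  have a0 := st 0 _ _ (by positivity) a1 u
  linarith

/-- SMALL -/
theorem small_38 (hB : StBerK) (hS : StSupb) : StSmall := by
  intro m c M X Y' Z e hM hX hY hZ he u
  have hM0 : 0 ≤ M := (abs_nonneg _).trans (hM 0)
  -- one direction
  have one : ∀ (l : Fin 3 → ℕ) (hl : l ∈ Finset.Nat.antidiagonalTuple 3 m) (j : Fin 3) (V : ℕ)
      (hV : V ≤ 2 * m) (c' : (Fin 3 → ℤ) → ℂ) (B : ℝ), 0 ≤ B →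
      (∀ u, |PT (N := 2 ^ (2 * m + 3)) (blk l) c' u| ≤ B) →
      ∀ u, |dT j (Hs (2 * m + 3) V) (PT (N := 2 ^ (2 * m + 3)) (blk l) c') u| ≤
        32 * (1 / 2 : ℝ) ^ (V - 2 * l j) * B := by
    intro l hl j V hV c' B hB0 hb u
    have hle := anti_le_38 hl j
    obtain ⟨κ, hκ, heq⟩ := hB (Fin 3) (2 * m + 3) (2 * l j) V j (blk l) c' (by omega) (by omega)
      (fun k hk => (mem_blk_38 hk j).2)
    rw [heq u]
    have := sup_Ko_38 j κ (PT (N := 2 ^ (2 * m + 3)) (blk l) c') B hb u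
    unfold Ko38 at this
    exact this.trans (mul_le_mul_of_nonneg_right hκ hB0)
  have blkb : ∀ l ∈ Finset.Nat.antidiagonalTuple 3 m,
      |D3 (2 * m + 3) X Y' Z (PT (N := 2 ^ (2 * m + 3)) (blk l) c) u| ≤
        (32 ^ 3 * 216) * (1 / 2 : ℝ) ^ e * M := by
    intro l hl
    have h0 := hS m l c M hl hM
    obtain ⟨c2, hc2⟩ := dT_PT_38 (N := 2 ^ (2 * m + 3)) (2 : Fin 3) (Hs (2 * m + 3) Z)
      (blk l) c
    obtain ⟨c1, hc1⟩ := dT_PT_38 (N := 2 ^ (2 * m + 3)) (1 : Fin 3) (Hs (2 * m + 3) Y')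
      (blk l) c2
    have s2 := one l hl 2 Z hZ c (216 * M) (by positivity) h0
    rw [hc2] at s2
    have s1 := one l hl 1 Y' hY c2 _ (by positivity) s2
    rw [hc1] at s1
    have s0 := one l hl 0 X hX c1 _ (by positivity) s1 u
    unfold D3
    rw [hc2, hc1]
    refine s0.trans ?_
    have hsum : l 0 + l 1 + l 2 = m := by
      rw [Finset.Nat.mem_antidiagonalTuple, Fin.sum_univ_three] at hl
      exact hl
    have hexp : e ≤ (X - 2 * l 0) + ((Y' - 2 * l 1) + (Z - 2 * l 2)) := by omega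
    have hp : (1 / 2 : ℝ) ^ (X - 2 * l 0) * ((1 / 2 : ℝ) ^ (Y' - 2 * l 1) *
        (1 / 2 : ℝ) ^ (Z - 2 * l 2)) ≤ (1 / 2 : ℝ) ^ e := by
      rw [← pow_add, ← pow_add]
      exact pow_le_pow_of_le_one (by norm_num) (by norm_num) hexp
    calc 32 * (1 / 2 : ℝ) ^ (X - 2 * l 0) * (32 * (1 / 2 : ℝ) ^ (Y' - 2 * l 1) *
          (32 * (1 / 2 : ℝ) ^ (Z - 2 * l 2) * (216 * M)))
        = ((1 / 2 : ℝ) ^ (X - 2 * l 0) * ((1 / 2 : ℝ) ^ (Y' - 2 * l 1) *
          (1 / 2 : ℝ) ^ (Z - 2 * l 2))) * ((32 ^ 3 * 216) * M) := by ring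
      _ ≤ (1 / 2 : ℝ) ^ e * ((32 ^ 3 * 216) * M) :=
          mul_le_mul_of_nonneg_right hp (by positivity)
      _ = _ := by ring
  have hsplit : D3 (2 * m + 3) X Y' Z (Fm m c) u =
      ∑ l ∈ Finset.Nat.antidiagonalTuple 3 m,
        D3 (2 * m + 3) X Y' Z (PT (N := 2 ^ (2 * m + 3)) (blk l) c) u := by
    have h0 : Fm m c = fun u => ∑ l ∈ Finset.Nat.antidiagonalTuple 3 m,
      PT (N := 2 ^ (2 * m + 3)) (blk l) c u := rfl
    unfold D3
    rw [h0, PT_sum_38, PT_sum_38, PT_sum_38]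
  have hcard : (((Finset.Nat.antidiagonalTuple 3 m).card : ℕ) : ℝ) ≤ ((m : ℝ) + 1) ^ 2 := by
    have h1 : (Finset.Nat.antidiagonalTuple 3 m).card ≤
        (Finset.range (m + 1) ×ˢ Finset.range (m + 1)).card := by
      apply Finset.card_le_card_of_injOn (fun l => (l 0, l 1))
      · intro l hl
        have hl' := anti_le_38 (Finset.mem_coe.mp hl)
        simp only [Finset.coe_product, Set.mem_prod, Finset.coe_range, Set.mem_Iio]
        exact ⟨Nat.lt_succ_of_le (hl' 0), Nat.lt_succ_of_le (hl' 1)⟩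
      · intro l hl l' hl' h
        have e1 := Finset.mem_coe.mp hl
        have e2 := Finset.mem_coe.mp hl'
        rw [Finset.Nat.mem_antidiagonalTuple, Fin.sum_univ_three] at e1 e2
        simp only [Prod.mk.injEq] at h
        funext j
        fin_cases j
        · exact h.1
        · exact h.2
        · show l 2 = l' 2
          omega
    rw [Finset.card_product, Finset.card_range] at h1
    calc (((Finset.Nat.antidiagonalTuple 3 m).card : ℕ) : ℝ) ≤ (((m + 1) * (m + 1) : ℕ) : ℝ) := by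
          exact_mod_cast h1
      _ = _ := by push_cast; ring
  rw [hsplit]
  calc |∑ l ∈ Finset.Nat.antidiagonalTuple 3 m,
        D3 (2 * m + 3) X Y' Z (PT (N := 2 ^ (2 * m + 3)) (blk l) c) u| ≤
      ∑ l ∈ Finset.Nat.antidiagonalTuple 3 m,
        |D3 (2 * m + 3) X Y' Z (PT (N := 2 ^ (2 * m + 3)) (blk l) c) u| :=
        Finset.abs_sum_le_sum_abs _ _
    _ ≤ ∑ l ∈ Finset.Nat.antidiagonalTuple 3 m, (32 ^ 3 * 216) * (1 / 2 : ℝ) ^ e * M :=
        Finset.sum_le_sum blkb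
    _ = ((Finset.Nat.antidiagonalTuple 3 m).card : ℝ) * ((32 ^ 3 * 216) * (1 / 2 : ℝ) ^ e * M) := by
        rw [Finset.sum_const, nsmul_eq_mul]
    _ ≤ ((m : ℝ) + 1) ^ 2 * ((32 ^ 3 * 216) * (1 / 2 : ℝ) ^ e * M) :=
        mul_le_mul_of_nonneg_right hcard (by positivity)
    _ = _ := by ring

end Pool.Agent.SBT
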