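import Pool.Agent.Lib.MP_a7b2aa_an.SBT.Op38

/-!
SBT, helper38: the module NUM (the sum of the leaks).
-/

set_option autoImplicit false

namespace Pool.Agent.SBT

open Finset Pool.Agent.SB3

lemma geo_38 (n : ℕ) (b : ℤ) :
    ∑ x ∈ range n, (1 / 2 : ℝ) ^ (((x : ℕ) : ℤ) - b).natAbs ≤ 4 := by
  rw [← Finset.sum_filter_add_sum_filter_not (range n) (fun x : ℕ => b ≤ (x : ℤ))]
  have half : ∀ (S : Finset ℕ), Set.InjOn (fun x : ℕ => (((x : ℕ) : ℤ) - b).natAbs) S →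
      ∑ x ∈ S, (1 / 2 : ℝ) ^ (((x : ℕ) : ℤ) - b).natAbs ≤ 2 := by
    intro S hS
    rw [← Finset.sum_image (f := fun k : ℕ => (1 / 2 : ℝ) ^ k)
      (g := fun x : ℕ => (((x : ℕ) : ℤ) - b).natAbs) hS]
    have hsub : S.image (fun x : ℕ => (((x : ℕ) : ℤ) - b).natAbs) ⊆
        range ((S.image (fun x : ℕ => (((x : ℕ) : ℤ) - b).natAbs)).sup id + 1) := by
      intro k hk
      rw [Finset.mem_range]
      have := Finset.le_sup (f := id) hk
      simp only [id] at this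
      exact Nat.lt_succ_of_le this
    refine (Finset.sum_le_sum_of_subset_of_nonneg hsub (fun _ _ _ => by positivity)).trans ?_
    exact sum_geometric_two_le _
  have h1 := half ((range n).filter (fun x : ℕ => b ≤ (x : ℤ))) (by
    intro x hx y hy hxy
    have hx' := (Finset.mem_filter.mp (Finset.mem_coe.mp hx)).2
    have hy' := (Finset.mem_filter.mp (Finset.mem_coe.mp hy)).2
    simp only at hxy
    omega)
  have h2 := half ((range n).filter (fun x : ℕ => ¬ b ≤ (x : ℤ))) (by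
    intro x hx y hy hxy
    have hx' := (Finset.mem_filter.mp (Finset.mem_coe.mp hx)).2
    have hy' := (Finset.mem_filter.mp (Finset.mem_coe.mp hy)).2
    simp only at hxy
    omega)
  linarith

/-- NUM -/
theorem num_38 : StNum := by
  refine ⟨128, by norm_num, ?_⟩
  intro β m T l' hβ hl'
  rw [Finset.Nat.mem_antidiagonalTuple, Fin.sum_univ_three] at hl'
  -- pointwise bound
  have hpt : ∀ l ∈ Finset.Nat.antidiagonalTuple 3 m,
      ∀ t ∈ Fintype.piFinset (fun _ : Fin 3 => range T),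
      (if t = 0 then (0 : ℝ) else 2 ^ (t 0 + t 1 + t 2) *
        (1 / 2 : ℝ) ^ ((2 * l 0 + 2 * β * t 0 - 2 * l' 0) + (2 * l 1 + 2 * β * t 1 - 2 * l' 1) +
          (2 * l 2 + 2 * β * t 2 - 2 * l' 2))) ≤
      (1 / 2 : ℝ) ^ (β / 2) * (((1 / 2 : ℝ) ^ t 0 * (1 / 2 : ℝ) ^ t 1 * (1 / 2 : ℝ) ^ t 2) *
        ((1 / 2 : ℝ) ^ (((l 0 : ℕ) : ℤ) - ((l' 0 : ℤ) - β * t 0)).natAbs *
        (1 / 2 : ℝ) ^ (((l 1 : ℕ) : ℤ) - ((l' 1 : ℤ) - β * t 1)).natAbs)) := by
    intro l hl t _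
    rw [Finset.Nat.mem_antidiagonalTuple, Fin.sum_univ_three] at hl
    split_ifs with ht
    · positivity
    · have hs : 1 ≤ t 0 + t 1 + t 2 := by
        by_contra hcon
        apply ht
        funext j
        fin_cases j
        · show t 0 = 0
          omega
        · show t 1 = 0
          omega
        · show t 2 = 0
          omega
      set s := t 0 + t 1 + t 2 with hsdef
      have hE : (2 * l 0 + 2 * β * t 0 - 2 * l' 0) + (2 * l 1 + 2 * β * t 1 - 2 * l' 1) +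
          (2 * l 2 + 2 * β * t 2 - 2 * l' 2) ≥ β * s +
          ((((l 0 : ℕ) : ℤ) - ((l' 0 : ℤ) - β * t 0)).natAbs +
          (((l 1 : ℕ) : ℤ) - ((l' 1 : ℤ) - β * t 1)).natAbs) := by
        have e0 : 2 * β * t 0 = 2 * (β * t 0) := by ring
        have e1 : 2 * β * t 1 = 2 * (β * t 1) := by ring
        have e2 : 2 * β * t 2 = 2 * (β * t 2) := by ring
        have e3 : β * s = β * t 0 + β * t 1 + β * t 2 := by rw [hsdef]; ring
        rw [e0, e1, e2, e3]
        have c0 : (β : ℤ) * (t 0 : ℤ) = ((β * t 0 : ℕ) : ℤ) := by push_cast; ring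
        have c1 : (β : ℤ) * (t 1 : ℤ) = ((β * t 1 : ℕ) : ℤ) := by push_cast; ring
        rw [c0, c1]
        generalize β * t 0 = u0
        generalize β * t 1 = u1
        generalize β * t 2 = u2
        omega
      have hpow : 2 * s + β / 2 ≤ β * s := by
        obtain ⟨s', hs'⟩ : ∃ s', s = s' + 1 := ⟨s - 1, by omega⟩
        rw [hs']
        have : β * (s' + 1) = β * s' + β := by ring
        rw [this]
        have h2 : 2 * s' ≤ β * s' := Nat.mul_le_mul_right _ (by omega)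
        omega
      calc (2 : ℝ) ^ s * (1 / 2 : ℝ) ^ ((2 * l 0 + 2 * β * t 0 - 2 * l' 0) +
            (2 * l 1 + 2 * β * t 1 - 2 * l' 1) + (2 * l 2 + 2 * β * t 2 - 2 * l' 2)) ≤
          (2 : ℝ) ^ s * (1 / 2 : ℝ) ^ (β * s +
          ((((l 0 : ℕ) : ℤ) - ((l' 0 : ℤ) - β * t 0)).natAbs +
          (((l 1 : ℕ) : ℤ) - ((l' 1 : ℤ) - β * t 1)).natAbs)) :=
            mul_le_mul_of_nonneg_left
              (pow_le_pow_of_le_one (by norm_num) (by norm_num) hE) (by positivity)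
        _ = (2 : ℝ) ^ s * ((1 / 2 : ℝ) ^ (β * s) *
            ((1 / 2 : ℝ) ^ (((l 0 : ℕ) : ℤ) - ((l' 0 : ℤ) - β * t 0)).natAbs *
            (1 / 2 : ℝ) ^ (((l 1 : ℕ) : ℤ) - ((l' 1 : ℤ) - β * t 1)).natAbs)) := by
            congr 1
            rw [pow_add, pow_add]
        _ ≤ (2 : ℝ) ^ s * ((1 / 2 : ℝ) ^ (2 * s + β / 2) *
            ((1 / 2 : ℝ) ^ (((l 0 : ℕ) : ℤ) - ((l' 0 : ℤ) - β * t 0)).natAbs *
            (1 / 2 : ℝ) ^ (((l 1 : ℕ) : ℤ) - ((l' 1 : ℤ) - β * t 1)).natAbs)) := by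
            apply mul_le_mul_of_nonneg_left _ (by positivity)
            apply mul_le_mul_of_nonneg_right _ (by positivity)
            exact pow_le_pow_of_le_one (by norm_num) (by norm_num) hpow
        _ = _ := by
            have h3 : (2 : ℝ) ^ s * (1 / 2 : ℝ) ^ s = 1 := by
              rw [← mul_pow]
              norm_num
            have h4 : (1 / 2 : ℝ) ^ (2 * s + β / 2) =
                (1 / 2 : ℝ) ^ s * (1 / 2 : ℝ) ^ s * (1 / 2 : ℝ) ^ (β / 2) := by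
              rw [pow_add, two_mul, pow_add]
            have h5 : (1 / 2 : ℝ) ^ t 0 * (1 / 2 : ℝ) ^ t 1 * (1 / 2 : ℝ) ^ t 2 =
                (1 / 2 : ℝ) ^ s := by
              rw [hsdef, pow_add, pow_add]
            rw [h4, h5]
            linear_combination ((1 / 2 : ℝ) ^ s * (1 / 2 : ℝ) ^ (β / 2) *
              ((1 / 2 : ℝ) ^ (((l 0 : ℕ) : ℤ) - ((l' 0 : ℤ) - β * t 0)).natAbs *
              (1 / 2 : ℝ) ^ (((l 1 : ℕ) : ℤ) - ((l' 1 : ℤ) - β * t 1)).natAbs)) * h3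
  -- sum over l
  have hl : ∀ b0 b1 : ℤ, ∑ l ∈ Finset.Nat.antidiagonalTuple 3 m,
      ((1 / 2 : ℝ) ^ (((l 0 : ℕ) : ℤ) - b0).natAbs *
        (1 / 2 : ℝ) ^ (((l 1 : ℕ) : ℤ) - b1).natAbs) ≤ 16 := by
    intro b0 b1
    have hinj : Set.InjOn (fun l : Fin 3 → ℕ => (l 0, l 1))
        (Finset.Nat.antidiagonalTuple 3 m : Set (Fin 3 → ℕ)) := by
      intro l hl k hk h
      have e1 := Finset.mem_coe.mp hl
      have e2 := Finset.mem_coe.mp hk
      rw [Finset.Nat.mem_antidiagonalTuple, Fin.sum_univ_three] at e1 e2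
      simp only [Prod.mk.injEq] at h
      funext j
      fin_cases j
      · exact h.1
      · exact h.2
      · show l 2 = k 2
        omega
    rw [← Finset.sum_image (f := fun y : ℕ × ℕ => (1 / 2 : ℝ) ^ (((y.1 : ℕ) : ℤ) - b0).natAbs *
      (1 / 2 : ℝ) ^ (((y.2 : ℕ) : ℤ) - b1).natAbs) (g := fun l : Fin 3 → ℕ => (l 0, l 1)) hinj]
    have hsub : (Finset.Nat.antidiagonalTuple 3 m).image (fun l : Fin 3 → ℕ => (l 0, l 1)) ⊆
        range (m + 1) ×ˢ range (m + 1) := by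
      intro y hy
      obtain ⟨l, hl, rfl⟩ := Finset.mem_image.mp hy
      have h := anti_le_38 hl
      rw [Finset.mem_product, Finset.mem_range, Finset.mem_range]
      exact ⟨Nat.lt_succ_of_le (h 0), Nat.lt_succ_of_le (h 1)⟩
    refine (Finset.sum_le_sum_of_subset_of_nonneg hsub (fun _ _ _ => by positivity)).trans ?_
    rw [Finset.sum_product]
    simp only
    rw [← Finset.sum_mul_sum]
    have g0 := geo_38 (m + 1) b0
    have g1 := geo_38 (m + 1) b1
    calc _ ≤ (4 : ℝ) * 4 := mul_le_mul g0 g1 (Finset.sum_nonneg (fun _ _ => by positivity))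
          (by norm_num)
      _ = 16 := by norm_num
  -- sum over t
  have ht : ∑ t ∈ Fintype.piFinset (fun _ : Fin 3 => range T),
      ((1 / 2 : ℝ) ^ t 0 * (1 / 2 : ℝ) ^ t 1 * (1 / 2 : ℝ) ^ t 2) ≤ 8 := by
    have h1 := Finset.prod_univ_sum (fun _ : Fin 3 => range T)
      (fun (_ : Fin 3) (x : ℕ) => (1 / 2 : ℝ) ^ x)
    have h2 : ∑ t ∈ Fintype.piFinset (fun _ : Fin 3 => range T),
        ((1 / 2 : ℝ) ^ t 0 * (1 / 2 : ℝ) ^ t 1 * (1 / 2 : ℝ) ^ t 2) =
        ∏ _j : Fin 3, ∑ x ∈ range T, (1 / 2 : ℝ) ^ x := by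
      rw [h1]
      apply Finset.sum_congr rfl
      intro t _
      rw [Fin.prod_univ_three]
    rw [h2, Finset.prod_const, Finset.card_univ, Fintype.card_fin]
    have h3 := sum_geometric_two_le T
    calc (∑ x ∈ range T, (1 / 2 : ℝ) ^ x) ^ 3 ≤ 2 ^ 3 :=
          pow_le_pow_left₀ (Finset.sum_nonneg (fun _ _ => by positivity)) h3 3
      _ = 8 := by norm_num
  rw [Finset.sum_comm]
  calc _ ≤ ∑ t ∈ Fintype.piFinset (fun _ : Fin 3 => range T),
        ∑ l ∈ Finset.Nat.antidiagonalTuple 3 m,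
        (1 / 2 : ℝ) ^ (β / 2) * (((1 / 2 : ℝ) ^ t 0 * (1 / 2 : ℝ) ^ t 1 * (1 / 2 : ℝ) ^ t 2) *
        ((1 / 2 : ℝ) ^ (((l 0 : ℕ) : ℤ) - ((l' 0 : ℤ) - β * t 0)).natAbs *
        (1 / 2 : ℝ) ^ (((l 1 : ℕ) : ℤ) - ((l' 1 : ℤ) - β * t 1)).natAbs)) := by
        apply Finset.sum_le_sum
        intro t ht'
        apply Finset.sum_le_sum
        intro l hl'
        exact hpt l hl' t ht'
    _ ≤ ∑ t ∈ Fintype.piFinset (fun _ : Fin 3 => range T),
        (1 / 2 : ℝ) ^ (β / 2) * (((1 / 2 : ℝ) ^ t 0 * (1 / 2 : ℝ) ^ t 1 * (1 / 2 : ℝ) ^ t 2) *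
        16) := by
        apply Finset.sum_le_sum
        intro t _
        rw [← Finset.mul_sum]
        apply mul_le_mul_of_nonneg_left _ (by positivity)
        rw [← Finset.mul_sum]
        exact mul_le_mul_of_nonneg_left (hl _ _) (by positivity)
    _ = (1 / 2 : ℝ) ^ (β / 2) * ((∑ t ∈ Fintype.piFinset (fun _ : Fin 3 => range T),
        ((1 / 2 : ℝ) ^ t 0 * (1 / 2 : ℝ) ^ t 1 * (1 / 2 : ℝ) ^ t 2)) * 16) := by
        rw [Finset.sum_mul, Finset.mul_sum]
    _ ≤ (1 / 2 : ℝ) ^ (β / 2) * (8 * 16) := by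
        apply mul_le_mul_of_nonneg_left _ (by positivity)
        exact mul_le_mul_of_nonneg_right ht (by norm_num)
    _ = _ := by ring

end Pool.Agent.SBT
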