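import Pool.Agent.Lib.MP_a7b2aa_an.SBT.Lev1_36

/-!
SBT, module TLT2: the structure of the slices of `H + κ Ngd`.
-/

set_option autoImplicit false

namespace Pool.Agent.SBT

open Finset Pool.Agent.SB3

theorem Mx_add90 {L : ℕ} (H N : Y L → Y L → Y L → ℝ) (κ : ℝ) (i : ℕ) (x y z : Y L) :
    Mx (fun x y z => H x y z + κ * N x y z) i x y z = Mx H i x y z + κ * Mx N i x y z := by
  unfold Mx
  rw [← Ey_cmul33, ← Ey_add33]
  congr 1
  funext x'
  ring

theorem Mx_sum90 {L : ℕ} (S : Finset ℕ) (T : ℕ → Finset ℕ) (f : ℕ → ℕ → Y L → Y L → Y L → ℝ)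
    (i : ℕ) (x y z : Y L) :
    Mx (fun x y z => ∑ a ∈ S, ∑ b ∈ T a, f a b x y z) i x y z =
      ∑ a ∈ S, ∑ b ∈ T a, Mx (f a b) i x y z := by
  unfold Mx
  have h : (fun x' => sgr (bit x' i) * ∑ a ∈ S, ∑ b ∈ T a, f a b x' y z) =
      fun x' => ∑ a ∈ S, ∑ b ∈ T a, sgr (bit x' i) * f a b x' y z := by
    funext x'
    rw [Finset.mul_sum]
    exact Finset.sum_congr rfl (fun a _ => Finset.mul_sum _ _ _)
  rw [h, Ey_Sum33]
  exact Finset.sum_congr rfl (fun a _ => Ey_Sum33 _ _ _ _)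

/-- a function which does not depend on coordinate `i` has no difference there -/
theorem Mx_zero90 {L : ℕ} (f : Y L → Y L → Y L → ℝ) {i : ℕ} (hi : i < L) (x y z : Y L)
    (h : ∀ x x', pre i x = pre i x' → f x y z = f x' y z) : Mx f i x y z = 0 := by
  unfold Mx
  have h1 : (fun x' => sgr (bit x' i) * f x' y z) = fun x' => f x' y z * sgr (bit x' i) := by
    funext x'
    ring
  rw [h1, Ey_mul33 (fun x' => f x' y z) (fun x' => sgr (bit x' i)) h, Ey_sgr33 hi, mul_zero]

theorem Dm_add90 {L : ℕ} (p q : ℕ) (φ ψ : Y L → Y L → ℝ) (κ : ℝ) (y z : Y L) :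
    Dm p q (fun y' z' => φ y' z' + κ * ψ y' z') y z = Dm p q φ y z + κ * Dm p q ψ y z := by
  have h1 : Ey p (fun y' => φ y' z + κ * ψ y' z) y =
      Ey p (fun y' => φ y' z) y + κ * Ey p (fun y' => ψ y' z) y := by
    rw [Ey_add33 p (fun y' => φ y' z) (fun y' => κ * ψ y' z), Ey_cmul33]
  have h2 : ∀ y'' : Y L, Ey q (fun z' => φ y'' z' + κ * ψ y'' z') z =
      Ey q (fun z' => φ y'' z') z + κ * Ey q (fun z' => ψ y'' z') z := by
    intro y''
    rw [Ey_add33 q (fun z' => φ y'' z') (fun z' => κ * ψ y'' z'), Ey_cmul33]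
  have h3 : Ey p (fun y' => Ey q (fun z' => φ y' z' + κ * ψ y' z') z) y =
      Ey p (fun y' => Ey q (fun z' => φ y' z') z) y +
        κ * Ey p (fun y' => Ey q (fun z' => ψ y' z') z) y := by
    have h4 : (fun y' => Ey q (fun z' => φ y' z' + κ * ψ y' z') z) =
        fun y' => Ey q (fun z' => φ y' z') z + κ * Ey q (fun z' => ψ y' z') z := funext h2
    rw [h4, Ey_add33 p (fun y' => Ey q (fun z' => φ y' z') z)
      (fun y' => κ * Ey q (fun z' => ψ y' z') z), Ey_cmul33]
  unfold Dm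
  rw [h1, h2, h3]
  ring

theorem Dm_sum90 {L : ℕ} (p q : ℕ) {τ : Type} (S : Finset τ) (f : τ → Y L → Y L → ℝ) (y z : Y L) :
    Dm p q (fun y' z' => ∑ a ∈ S, f a y' z') y z = ∑ a ∈ S, Dm p q (f a) y z := by
  unfold Dm
  rw [Ey_Sum33 S p (fun a y' => f a y' z), Ey_Sum33 S q (fun a z' => f a y z')]
  have h4 : (fun y' => Ey q (fun z' => ∑ a ∈ S, f a y' z') z) =
      fun y' => ∑ a ∈ S, Ey q (fun z' => f a y' z') z := by
    funext y'
    exact Ey_Sum33 S q (fun a z' => f a y' z') z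
  rw [h4, Ey_Sum33 S p (fun a y' => Ey q (fun z' => f a y' z') z)]
  rw [← Finset.sum_sub_distrib, ← Finset.sum_sub_distrib, ← Finset.sum_add_distrib]

theorem Dm_zero_left90 {L : ℕ} (p q : ℕ) (φ : Y L → Y L → ℝ) (y z : Y L)
    (h : ∀ z y y', pre p y = pre p y' → φ y z = φ y' z) : Dm p q φ y z = 0 := by
  have h1 : Ey p (fun y' => φ y' z) y = φ y z := Ey_mea33 (fun y' => φ y' z) L p (by omega) (h z) y
  have h2 : Ey p (fun y' => Ey q (fun z' => φ y' z') z) y = Ey q (fun z' => φ y z') z := by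
    refine Ey_mea33 (fun y' => Ey q (fun z' => φ y' z') z) L p (by omega) ?_ y
    intro u u' hu
    have h3 : (fun z' => φ u z') = fun z' => φ u' z' := funext (fun z' => h z' u u' hu)
    simp only [h3]
  unfold Dm
  rw [h1, h2]
  ring

theorem Dm_zero_right90 {L : ℕ} (p q : ℕ) (φ : Y L → Y L → ℝ) (y z : Y L)
    (h : ∀ y z z', pre q z = pre q z' → φ y z = φ y z') : Dm p q φ y z = 0 := by
  have h1 : ∀ y' : Y L, Ey q (fun z' => φ y' z') z = φ y' z :=
    fun y' => Ey_mea33 (fun z' => φ y' z') L q (by omega) (h y') z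
  have h2 : (fun y' => Ey q (fun z' => φ y' z') z) = fun y' => φ y' z := funext h1
  unfold Dm
  rw [h2, h1]
  ring

theorem cf_pre90 {L : ℕ} (H : Y L → Y L → Y L → ℝ) (i p q : ℕ) {x x' y y' z z' : Y L}
    (hx : pre i x = pre i x') (hy : pre p y = pre p y') (hz : pre q z = pre q z') :
    cf H i p q x y z = cf H i p q x' y' z' := by
  unfold cf
  rw [Ey_pre33 _ hx]
  congr 1
  funext a
  rw [Ey_pre33 _ hy]
  congr 1
  funext b
  rw [Ey_pre33 _ hz]

theorem Gd_imp90 {L : ℕ} (H : Y L → Y L → Y L → ℝ) (δ w : ℝ) (p q : ℕ) {x x' y y' z z' : Y L}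
    (hx : pre (L - 1 - p - q) x = pre (L - 1 - p - q) x') (hy : pre p y = pre p y')
    (hz : pre q z = pre q z') (h : Gd H δ w p q x y z) : Gd H δ w p q x' y' z' := by
  refine ⟨?_, ?_⟩
  · rw [← cf_pre90 H (L - 1 - p - q) p q hx hy hz]
    exact h.1
  · intro a b c ha hb hc
    exact h.2 a b c (ha.trans hx.symm) (hb.trans hy.symm) (hc.trans hz.symm)

theorem Gd_iff90 {L : ℕ} (H : Y L → Y L → Y L → ℝ) (δ w : ℝ) (p q : ℕ) {x x' y y' z z' : Y L}
    (hx : pre (L - 1 - p - q) x = pre (L - 1 - p - q) x') (hy : pre p y = pre p y')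
    (hz : pre q z = pre q z') : Gd H δ w p q x y z ↔ Gd H δ w p q x' y' z' :=
  ⟨Gd_imp90 H δ w p q hx hy hz, Gd_imp90 H δ w p q hx.symm hy.symm hz.symm⟩

open Classical in
/-- the bonus does not contribute beyond `(p, q)` -/
theorem Dm_Ngd90 {L : ℕ} (H : Y L → Y L → Y L → ℝ) (δ w : ℝ) (p q i : ℕ) (hi : i ≤ q)
    (hL : p + i < L) (x y z : Y L) :
    Dm p q (fun y' z' => Mx (Ngd H δ w) (L - 1 - (p + i)) x y' z') y z = 0 := by
  have h1 : (fun y' z' => Mx (Ngd H δ w) (L - 1 - (p + i)) x y' z') =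
      fun y' z' => ∑ a ∈ range L, ∑ b ∈ range (L - a),
        Mx (fun x y z => if Gd H δ w a b x y z then (1 : ℝ) else 0) (L - 1 - (p + i)) x y' z' := by
    funext y' z'
    exact Mx_sum90 (range L) (fun a => range (L - a))
      (fun a b x y z => if Gd H δ w a b x y z then (1 : ℝ) else 0) _ x y' z'
  rw [h1, Dm_sum90]
  apply Finset.sum_eq_zero
  intro a ha
  rw [Dm_sum90]
  apply Finset.sum_eq_zero
  intro b hb
  rw [Finset.mem_range] at ha hb
  by_cases hab : p + i ≤ a + b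
  · have h2 : Mx (fun x y z => if Gd H δ w a b x y z then (1 : ℝ) else 0)
        (L - 1 - (p + i)) x = fun _ _ => 0 := by
      funext y' z'
      refine Mx_zero90 _ (by omega) x y' z' ?_
      intro u u' hu
      have h3 : Gd H δ w a b u y' z' ↔ Gd H δ w a b u' y' z' :=
        Gd_iff90 H δ w a b (pre_mono33 (by omega) hu) rfl rfl
      simp only [h3]
    rw [h2]
    exact Dm_zero_left90 p q _ y z (fun _ _ _ _ => rfl)
  · by_cases hap : a < p
    · apply Dm_zero_left90
      intro z' u u' hu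
      unfold Mx
      congr 1
      funext x'
      have h3 : Gd H δ w a b x' u z' ↔ Gd H δ w a b x' u' z' :=
        Gd_iff90 H δ w a b rfl (pre_mono33 hap.le hu) rfl
      simp only [h3]
    · apply Dm_zero_right90
      intro y' u u' hu
      unfold Mx
      congr 1
      funext x'
      have h3 : Gd H δ w a b x' y' u ↔ Gd H δ w a b x' y' u' :=
        Gd_iff90 H δ w a b rfl rfl (pre_mono33 (by omega) hu)
      simp only [h3]

theorem tlt2_90 : StTlt2 := by
  intro L H δ w κ x hw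
  set G : ℕ → Y L → Y L → ℝ := fun j y z =>
    Mx (fun x y z => H x y z + κ * Ngd H δ w x y z) (L - 1 - j) x y z / w with hG
  have key : ∀ p q i : ℕ, i ≤ q → p + i < L → ∀ y z : Y L,
      Dm p q (G (p + i)) y z = Dm p q (fun y' z' => Mx H (L - 1 - p - i) x y' z') y z / w := by
    intro p q i hi hL y z
    have h1 : G (p + i) = fun y' z' => 0 + w⁻¹ * (Mx H (L - 1 - (p + i)) x y' z' +
        κ * Mx (Ngd H δ w) (L - 1 - (p + i)) x y' z') := by
      funext y' z'
      simp only [hG]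
      rw [Mx_add90]
      field_simp
      ring
    have h0 : Dm p q (fun _ _ : Y L => (0 : ℝ)) y z = 0 :=
      Dm_zero_left90 p q _ y z (fun _ _ _ _ => rfl)
    rw [h1, Dm_add90 p q (fun _ _ => 0) (fun y' z' => Mx H (L - 1 - (p + i)) x y' z' +
      κ * Mx (Ngd H δ w) (L - 1 - (p + i)) x y' z'), h0,
      Dm_add90 p q (fun y' z' => Mx H (L - 1 - (p + i)) x y' z')
        (fun y' z' => Mx (Ngd H δ w) (L - 1 - (p + i)) x y' z'),
      Dm_Ngd90 H δ w p q i hi hL x y z]
    have h2 : L - 1 - (p + i) = L - 1 - p - i := by omega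
    rw [h2, mul_zero, add_zero, zero_add]
    field_simp
  have hdm : ∀ p q i : ℕ, ∀ y z : Y L, G (p + i) y z - Ey p (fun y' => G (p + i) y' z) y -
      Ey q (fun z' => G (p + i) y z' - Ey p (fun y' => G (p + i) y' z') y) z =
        Dm p q (G (p + i)) y z := by
    intro p q i y z
    unfold Dm
    rw [Ey_sub33 q (fun z' => G (p + i) y z') (fun z' => Ey p (fun y' => G (p + i) y' z') y),
      Ey_swap36 q p (fun z' y' => G (p + i) y' z') z y]
    ring
  refine ⟨fun p j y z => Ey p (fun y' => G j y' z) y,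
    fun p q i y z => Ey q (fun z' => G (p + i) y z' - Ey p (fun y' => G (p + i) y' z') y) z, ?_⟩
  refine { g_dep := ?_, t_dep := ?_, c_dep := ?_, w_dep := ?_, c_ge := ?_, leak := ?_ }
  · intro p j y y' z h
    exact Ey_pre33 _ h
  · intro p q i y z z' h
    exact Ey_pre33 _ h
  · intro p q y y' z z' hy hz
    rw [cf_pre90 H (L - 1 - p - q) p q (rfl : pre _ x = pre _ x) hy hz]
  · intro p q y y' z z' hy hz
    exact Gd_iff90 H δ w p q rfl hy hz
  · intro p q y z h
    rw [abs_div, abs_of_pos hw, le_div_iff₀ hw, one_mul]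
    exact h.1
  · intro p q hpq y z h
    have h1 : Lk H p q x y z ≤ δ * w := h.2 x y z rfl rfl rfl
    have h2 : ∀ t ∈ range q, |G (p + t) y z - Ey p (fun y' => G (p + t) y' z) y -
        Ey q (fun z' => G (p + t) y z' - Ey p (fun y' => G (p + t) y' z') y) z| =
          |Dm p q (fun y' z' => Mx H (L - 1 - p - t) x y' z') y z| / w := by
      intro t ht
      rw [Finset.mem_range] at ht
      rw [hdm p q t y z, key p q t ht.le (by omega) y z, abs_div, abs_of_pos hw]
    have h3 : G (p + q) y z - Ey p (fun y' => G (p + q) y' z) y -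
        Ey q (fun z' => G (p + q) y z' - Ey p (fun y' => G (p + q) y' z') y) z -
          sgr (bit y p) * sgr (bit z q) * (cf H (L - 1 - p - q) p q x y z / w) =
        (Dm p q (fun y' z' => Mx H (L - 1 - p - q) x y' z') y z -
          sgr (bit y p) * sgr (bit z q) * cf H (L - 1 - p - q) p q x y z) / w := by
      rw [hdm p q q y z, key p q q le_rfl hpq y z]
      ring
    have h4 : ∑ t ∈ range q, |G (p + t) y z - Ey p (fun y' => G (p + t) y' z) y -
        Ey q (fun z' => G (p + t) y z' - Ey p (fun y' => G (p + t) y' z') y) z| +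
      |G (p + q) y z - Ey p (fun y' => G (p + q) y' z) y -
        Ey q (fun z' => G (p + q) y z' - Ey p (fun y' => G (p + q) y' z') y) z -
          sgr (bit y p) * sgr (bit z q) * (cf H (L - 1 - p - q) p q x y z / w)| =
        Lk H p q x y z / w := by
      rw [Finset.sum_congr rfl h2, h3, abs_div, abs_of_pos hw, ← Finset.sum_div, ← add_div]
      rfl
    show _ ≤ δ
    refine (le_of_eq h4).trans ?_
    rw [div_le_iff₀ hw]
    exact h1

end Pool.Agent.SBT
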