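import Pool.Agent.Lib.SB3.Stmts74

/-!
SBT (chair: helper30): the trigonometric small ball inequality in dimension 3 for ALL coefficients
with the factor `n ^ (1 / 2) * log n`. Definitions and statements (as `Prop`s) of the modules.
Blueprint: SB_trig_30.md.
-/

set_option autoImplicit false

namespace Pool.Agent.SBT

open Finset Pool.Agent.SB3

/-! ### part I: functions of three sign vectors -/

/-- average of `φ` over the points with the same first `i` coordinates as `x` -/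
noncomputable def Ey {L : ℕ} (i : ℕ) (φ : Y L → ℝ) (x : Y L) : ℝ :=
  (∑ x' : Y L, if pre i x' = pre i x then φ x' else 0) / 2 ^ (L - i)

/-- `x`-difference of `H` at coordinate `i`, a function of `x_{<i}, y, z` -/
noncomputable def Mx {L : ℕ} (H : Y L → Y L → Y L → ℝ) (i : ℕ) (x y z : Y L) : ℝ :=
  Ey i (fun x' => sgr (bit x' i) * H x' y z) x

/-- the coefficient `c_{ipq}`, a function of `x_{<i}, y_{<p}, z_{<q}` -/
noncomputable def cf {L : ℕ} (H : Y L → Y L → Y L → ℝ) (i p q : ℕ) (x y z : Y L) : ℝ :=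
  Ey i (fun x' => Ey p (fun y' => Ey q (fun z' =>
    sgr (bit x' i) * sgr (bit y' p) * sgr (bit z' q) * H x' y' z') z) y) x

/-- the part of `φ` beyond `(p, q)` in both variables -/
noncomputable def Dm {L : ℕ} (p q : ℕ) (φ : Y L → Y L → ℝ) (y z : Y L) : ℝ :=
  φ y z - Ey p (fun y' => φ y' z) y - Ey q (fun z' => φ y z') z
    + Ey p (fun y' => Ey q (fun z' => φ y' z') z) y

/-- the leak at the pair `(p, q)` -/
noncomputable def Lk {L : ℕ} (H : Y L → Y L → Y L → ℝ) (p q : ℕ) (x y z : Y L) : ℝ :=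
  ∑ t ∈ range q, |Dm p q (fun y' z' => Mx H (L - 1 - p - t) x y' z') y z| +
    |Dm p q (fun y' z' => Mx H (L - 1 - p - q) x y' z') y z
      - sgr (bit y p) * sgr (bit z q) * cf H (L - 1 - p - q) p q x y z|

/-- good triples of level `w` -/
def Gd {L : ℕ} (H : Y L → Y L → Y L → ℝ) (δ w : ℝ) (p q : ℕ) (x y z : Y L) : Prop :=
  w ≤ |cf H (L - 1 - p - q) p q x y z| ∧
    ∀ x' y' z' : Y L, pre (L - 1 - p - q) x' = pre (L - 1 - p - q) x → pre p y' = pre p y →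
      pre q z' = pre q z → Lk H p q x' y' z' ≤ δ * w

/-- structure of the real functions `G j` of two sign vectors: `g p j` is the part which depends on
`(y_{<p}, z)`, `t p q i` the part of `G (p + i)` which depends on `(y, z_{<q})`. On good pairs
`w p q y z` the rest is small, except for `η_p ζ_q c`, `|c| ≥ 1`, in `G (p + q)`. -/
structure StrW (L : ℕ) (Lam : ℝ) (G : ℕ → Y L → Y L → ℝ) (g : ℕ → ℕ → Y L → Y L → ℝ)
    (t : ℕ → ℕ → ℕ → Y L → Y L → ℝ) (c : ℕ → ℕ → Y L → Y L → ℝ)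
    (w : ℕ → ℕ → Y L → Y L → Prop) : Prop where
  g_dep : ∀ p j y y' z, pre p y = pre p y' → g p j y z = g p j y' z
  t_dep : ∀ p q i y z z', pre q z = pre q z' → t p q i y z = t p q i y z'
  c_dep : ∀ p q y y' z z', pre p y = pre p y' → pre q z = pre q z' → c p q y z = c p q y' z'
  w_dep : ∀ p q y y' z z', pre p y = pre p y' → pre q z = pre q z' → (w p q y z ↔ w p q y' z')
  c_ge : ∀ p q y z, w p q y z → 1 ≤ |c p q y z|
  leak : ∀ p q, p + q < L → ∀ y z, w p q y z →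
    ∑ i ∈ range q, |G (p + i) y z - g p (p + i) y z - t p q i y z| +
      |G (p + q) y z - g p (p + q) y z - t p q q y z
        - sgr (bit y p) * sgr (bit z q) * c p q y z| ≤ Lam

open Classical in
/-- W: Theorem W (32, lead, 7, 11, 46) with leaks, for a general law `ρ` on pairs of sign vectors -/
def StW : Prop := ∃ δ : ℝ, 0 < δ ∧ ∃ C : ℝ, 0 < C ∧ ∀ (L : ℕ) (G : ℕ → Y L → Y L → ℝ)
    (g : ℕ → ℕ → Y L → Y L → ℝ) (t : ℕ → ℕ → ℕ → Y L → Y L → ℝ) (c : ℕ → ℕ → Y L → Y L → ℝ)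
    (w : ℕ → ℕ → Y L → Y L → Prop) (ρ : Y L → Y L → ℝ), 1 ≤ L → StrW L δ G g t c w →
    (∀ y z, 0 ≤ ρ y z) → ∑ y, ∑ z, ρ y z = 1 →
    ∑ p ∈ range L, ∑ q ∈ range (L - p), ∑ y, ∑ z, (if w p q y z then ρ y z else 0) ≤
      C * L * (∑ y, ∑ z, ρ y z * Real.log (4 ^ L * ρ y z) +
        ∑ j ∈ range L, ∑ y, ∑ z, ρ y z * min (G j y z ^ 2 / L) (|G j y z| / Real.sqrt L))

open Classical in
/-- ABS: the level inequality for a bounded function of three sign vectors (from W) -/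
def StAbsW : Prop := ∃ δ : ℝ, 0 < δ ∧ ∃ C : ℝ, 0 < C ∧ ∀ (L : ℕ) (H : Y L → Y L → Y L → ℝ)
    (M w : ℝ), 1 ≤ L → 0 < w → (∀ x y z, |H x y z| ≤ M) →
    w * ∑ p ∈ range L, ∑ q ∈ range (L - p), ∑ x : Y L, ∑ y : Y L, ∑ z : Y L,
        (if Gd H δ w p q x y z then (1 : ℝ) else 0) ≤ C * Real.sqrt L * M * 8 ^ L

/-- set coordinate `i` to `v` -/
def upb {L : ℕ} (x : Y L) (i : ℕ) (v : Bool) : Y L := fun j => if (j : ℕ) = i then v else x j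

/-- half difference in coordinate `i` -/
noncomputable def d1 {L : ℕ} (i : ℕ) (φ : Y L → ℝ) (x : Y L) : ℝ :=
  (φ (upb x i true) - φ (upb x i false)) / 2

/-- mixed half difference -/
noncomputable def d3 {L : ℕ} (H : Y L → Y L → Y L → ℝ) (i p q : ℕ) (x y z : Y L) : ℝ :=
  d1 i (fun x' => d1 p (fun y' => d1 q (fun z' => H x' y' z') z) y) x

/-- mean absolute value of the mixed difference -/
noncomputable def A3 {L : ℕ} (H : Y L → Y L → Y L → ℝ) (i p q : ℕ) : ℝ :=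
  (∑ x, ∑ y, ∑ z, |d3 H i p q x y z|) / 8 ^ L

/-- weighted sum of the mean values beyond `(i, p, q)` -/
noncomputable def B3 {L : ℕ} (H : Y L → Y L → Y L → ℝ) (i p q : ℕ) : ℝ :=
  ∑ i' ∈ Ico i L, ∑ p' ∈ Ico p L, ∑ q' ∈ Ico q L,
    if i' = i ∧ p' = p ∧ q' = q then 0
    else 2 ^ ((i' - i) + (p' - p) + (q' - q)) * A3 H i' p' q'

/-- MAINH: the inequality for one function of three sign vectors -/
def StMainH : Prop := ∃ C : ℝ, 0 < C ∧ ∀ (L : ℕ) (H : Y L → Y L → Y L → ℝ) (M : ℝ), 1 ≤ L →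
    (∀ x y z, |H x y z| ≤ M) →
    ∑ p ∈ range L, ∑ q ∈ range (L - p), A3 H (L - 1 - p - q) p q ≤
      C * ∑ p ∈ range L, ∑ q ∈ range (L - p), B3 H (L - 1 - p - q) p q +
        C * Real.sqrt L * Real.log (L + 1) * M

/-! ### modules of part I -/

/-- EYB: basic facts about `Ey` and `d1` -/
def StEyb : Prop := ∀ (L i : ℕ) (φ ψ : Y L → ℝ),
    (∀ x x', pre i x = pre i x' → Ey i φ x = Ey i φ x') ∧
    (L ≤ i → ∀ x, Ey i φ x = φ x) ∧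
    ((∀ x x', pre i x = pre i x' → φ x = φ x') → ∀ x, Ey i φ x = φ x) ∧
    ((∀ x x', pre i x = pre i x' → φ x = φ x') → ∀ x, Ey i (fun x' => φ x' * ψ x') x = φ x * Ey i ψ x) ∧
    (∀ j, i ≤ j → ∀ x, Ey i (Ey j φ) x = Ey i φ x) ∧
    (i < L → ∀ x, Ey i (fun x' => sgr (bit x' i) * φ x') x = Ey i (d1 i φ) x) ∧
    (i < L → ∀ x, Ey (i + 1) φ x - Ey i φ x =
      sgr (bit x i) * Ey i (fun x' => sgr (bit x' i) * φ x') x) ∧
    (∑ x, Ey i φ x = ∑ x, φ x) ∧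
    (∀ x, |Ey i φ x| ≤ Ey i (fun x' => |φ x'|) x) ∧
    (i < L → ∑ x, |d1 i φ x| ≤ ∑ x, |φ x|)

/-- LEV1: expansion of the leak -/
def StLev1 : Prop := ∀ (L : ℕ) (H : Y L → Y L → Y L → ℝ) (p q : ℕ) (x y z : Y L), p + q < L →
    Lk H p q x y z ≤ ∑ i' ∈ Ico (L - 1 - p - q) L, ∑ p' ∈ Ico p L, ∑ q' ∈ Ico q L,
      if i' = L - 1 - p - q ∧ p' = p ∧ q' = q then 0 else |cf H i' p' q' x y z|

/-- LEV2: a majorant of the leak over all completions -/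
def StLev2 : Prop := ∀ (L : ℕ) (H : Y L → Y L → Y L → ℝ) (p q : ℕ), p + q < L →
    ∃ V : Y L → Y L → Y L → ℝ,
      (∀ x y z x' y' z', pre (L - 1 - p - q) x' = pre (L - 1 - p - q) x → pre p y' = pre p y →
        pre q z' = pre q z → Lk H p q x' y' z' ≤ V x y z) ∧
      ∑ x, ∑ y, ∑ z, V x y z ≤ 8 ^ L * B3 H (L - 1 - p - q) p q

/-- LEV3: the mean of `|cf|` from below -/
def StLev3 : Prop := ∀ (L : ℕ) (H : Y L → Y L → Y L → ℝ) (i p q : ℕ), i < L → p < L → q < L →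
    8 ^ L * (A3 H i p q - B3 H i p q) ≤ ∑ x, ∑ y, ∑ z, |cf H i p q x y z|

/-- LEV4: summation over the levels -/
def StLev4 : Prop := StAbsW → StLev2 → StLev3 → StMainH

/-- the tilt -/
noncomputable def tlt {L : ℕ} (σ : ℝ) (φ : Y L → ℝ) (i : ℕ) (x : Y L) : ℝ :=
  (1 / 2) * (Ey i (fun x' => sgr (bit x' i) * φ x') x / σ) /
    (1 + |Ey i (fun x' => sgr (bit x' i) * φ x') x / σ|)

/-- density of the tilted law -/
noncomputable def Qd {L : ℕ} (σ : ℝ) (φ : Y L → ℝ) (x : Y L) : ℝ :=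
  ∏ i ∈ range L, (1 + sgr (bit x i) * tlt σ φ i x)

/-- TLT1: the tilted law of one sign vector -/
def StTlt1 : Prop := ∀ (L : ℕ) (σ : ℝ) (φ : Y L → ℝ), 0 < σ →
    (∀ x, 0 < Qd σ φ x) ∧ (∑ x, Qd σ φ x = 2 ^ L) ∧
    (∑ x, Qd σ φ x * ∑ i ∈ range L, Ey i (fun x' => sgr (bit x' i) * φ x') x * tlt σ φ i x =
      ∑ x, Qd σ φ x * φ x - ∑ x, φ x) ∧
    (∑ x, Qd σ φ x * Real.log (Qd σ φ x) ≤
      ∑ x, Qd σ φ x * ∑ i ∈ range L, tlt σ φ i x ^ 2) ∧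
    (∀ i x, 0 ≤ Ey i (fun x' => sgr (bit x' i) * φ x') x * tlt σ φ i x)

open Classical in
/-- the number of good pairs -/
noncomputable def Ngd {L : ℕ} (H : Y L → Y L → Y L → ℝ) (δ w : ℝ) (x y z : Y L) : ℝ :=
  ∑ p ∈ range L, ∑ q ∈ range (L - p), (if Gd H δ w p q x y z then (1 : ℝ) else 0)

/-- TLT2: the structure of the slices of `H + κ Ngd` -/
def StTlt2 : Prop := ∀ (L : ℕ) (H : Y L → Y L → Y L → ℝ) (δ w κ : ℝ) (x : Y L), 0 < w →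
    ∃ (g : ℕ → ℕ → Y L → Y L → ℝ) (t : ℕ → ℕ → ℕ → Y L → Y L → ℝ),
      StrW L δ
        (fun j y z => Mx (fun x y z => H x y z + κ * Ngd H δ w x y z) (L - 1 - j) x y z / w) g t
        (fun p q y z => cf H (L - 1 - p - q) p q x y z / w)
        (fun p q y z => Gd H δ w p q x y z)

/-- TLT3: the level inequality from Theorem W -/
def StTlt3 : Prop := StW → StTlt1 → StTlt2 → StAbsW

/-! ### part II: the discrete torus -/

/-- the discrete torus -/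
abbrev Tor (ι : Type) (N : ℕ) : Type := ι → ZMod N

/-- characters -/
noncomputable def ch {ι : Type} [Fintype ι] {N : ℕ} [NeZero N] (k : ι → ℤ) (u : Tor ι N) : ℂ :=
  ∏ j, (ZMod.stdAddChar ((k j : ZMod N) * u j) : ℂ)

/-- the real part of a trigonometric polynomial -/
noncomputable def PT {ι : Type} [Fintype ι] {N : ℕ} [NeZero N] (A : Finset (ι → ℤ))
    (c : (ι → ℤ) → ℂ) (u : Tor ι N) : ℝ := (∑ k ∈ A, c k * ch k u).re

/-- translation in direction `j` -/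
def sv {ι : Type} [DecidableEq ι] {N : ℕ} (j : ι) (h : ZMod N) (u : Tor ι N) : Tor ι N :=
  Function.update u j (u j + h)

/-- symmetric half difference in direction `j` -/
noncomputable def dT {ι : Type} [DecidableEq ι] {N : ℕ} (j : ι) (h : ZMod N) (φ : Tor ι N → ℝ)
    (u : Tor ι N) : ℝ := (φ (sv j h u) - φ (sv j (-h) u)) / 2

/-- sum of the absolute values -/
noncomputable def S1 {ι : Type} [Fintype ι] [DecidableEq ι] {N : ℕ} [NeZero N]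
    (φ : Tor ι N → ℝ) : ℝ := ∑ u, |φ u|

/-- the step of position `X` on the torus with `2 ^ a` points: `2 ^ (a - X - 2)` -/
def Hs (a X : ℕ) : ZMod (2 ^ a) := ((2 ^ (a - X - 2) : ℕ) : ZMod (2 ^ a))

/-- FEJ: the Fejer kernel -/
def StFej : Prop := ∀ (N K : ℕ) [NeZero N], 1 ≤ K → 2 * K ≤ N → ∃ f : ZMod N → ℝ,
    (∀ g, 0 ≤ f g) ∧ ∑ g, f g = 1 ∧
    (∀ k : ℤ, |k| ≤ K → ∑ g, (f g : ℂ) * (ZMod.stdAddChar ((k : ZMod N) * g) : ℂ)
      = ((1 - |(k : ℝ)| / K : ℝ) : ℂ)) ∧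
    (∀ k : ℤ, (K : ℤ) ≤ |k| → |k| + K ≤ N →
      ∑ g, (f g : ℂ) * (ZMod.stdAddChar ((k : ZMod N) * g) : ℂ) = 0) ∧
    (∀ h : ℕ, ∑ g, |f (g + (h : ZMod N)) - f g| ≤ 4 * Real.pi * K * h / N)

/-- VP: the de la Vallee Poussin kernel `V = 2 F_{2K} - F_K` -/
def StVP : Prop := ∀ (N K : ℕ) [NeZero N], 1 ≤ K → 4 * K ≤ N → ∃ v : ZMod N → ℝ,
    (∑ g, |v g| ≤ 3) ∧
    (∀ k : ℤ, |k| ≤ K → ∑ g, (v g : ℂ) * (ZMod.stdAddChar ((k : ZMod N) * g) : ℂ) = 1) ∧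
    (∀ k : ℤ, 2 * (K : ℤ) ≤ |k| → |k| + 2 * K ≤ N →
      ∑ g, (v g : ℂ) * (ZMod.stdAddChar ((k : ZMod N) * g) : ℂ) = 0) ∧
    (∀ h : ℕ, ∑ g, |v (g + (h : ZMod N)) - v g| ≤ 20 * Real.pi * K * h / N)

/-- BER (Bernstein's inequality for differences in `L^1`), one direction -/
def StBer : Prop := ∀ (ι : Type) [Fintype ι] [DecidableEq ι] (a s X : ℕ) (j : ι)
    (A : Finset (ι → ℤ)) (c : (ι → ℤ) → ℂ), s + 2 ≤ a → X + 2 ≤ a →
    (∀ k ∈ A, |k j| < (2 : ℤ) ^ s) →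
    S1 (dT j (Hs a X) (PT (N := 2 ^ a) A c)) ≤ 32 * (1 / 2 : ℝ) ^ (X - s) * S1 (PT (N := 2 ^ a) A c)

/-- INV (the inverse inequality for frequencies in a dyadic block), one direction -/
def StInv : Prop := ∃ C : ℝ, 0 < C ∧ ∀ (ι : Type) [Fintype ι] [DecidableEq ι] (a s : ℕ) (j : ι)
    (A : Finset (ι → ℤ)) (c : (ι → ℤ) → ℂ), 2 ≤ s → s + 2 ≤ a →
    (∀ k ∈ A, (2 : ℤ) ^ (s - 1) ≤ |k j| ∧ |k j| < (2 : ℤ) ^ s) →
    S1 (PT (N := 2 ^ a) A c) ≤ C * S1 (dT j (Hs a s) (PT (N := 2 ^ a) A c))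

/-- EXT (extraction of a dyadic block), one direction: `φ ↦ ∑ g, w g * φ (u + g e_j)` -/
def StExt : Prop := ∀ (a s : ℕ), 2 ≤ s → s + 3 ≤ a → ∃ w : ZMod (2 ^ a) → ℝ,
    (∑ g, |w g| ≤ 6) ∧
    (∀ k : ℤ, (2 : ℤ) ^ (s - 1) ≤ |k| → |k| < (2 : ℤ) ^ s →
      ∑ g, (w g : ℂ) * (ZMod.stdAddChar ((k : ZMod (2 ^ a)) * g) : ℂ) = 1) ∧
    (∀ k : ℤ, (|k| < (2 : ℤ) ^ (s - 2) ∨ (2 : ℤ) ^ (s + 1) ≤ |k|) → |k| < (2 : ℤ) ^ (a - 1) →
      |k| + 2 ^ (s + 1) ≤ 2 ^ a →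
      ∑ g, (w g : ℂ) * (ZMod.stdAddChar ((k : ZMod (2 ^ a)) * g) : ℂ) = 0)

/-- mixed difference at the positions `X, Y, Z` -/
noncomputable def D3 (a X Y Z : ℕ) (φ : Tor (Fin 3) (2 ^ a) → ℝ) : Tor (Fin 3) (2 ^ a) → ℝ :=
  dT 0 (Hs a X) (dT 1 (Hs a Y) (dT 2 (Hs a Z) φ))

/-- the block `ϱ(2 l)` -/
noncomputable def blk (l : Fin 3 → ℕ) : Finset (Fin 3 → ℤ) :=
  Fintype.piFinset (fun j : Fin 3 =>
    (Finset.Ioo (-(2 : ℤ) ^ (2 * l j)) ((2 : ℤ) ^ (2 * l j))).filter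
      (fun t : ℤ => (2 : ℤ) ^ (2 * l j) / 2 ≤ |t|))

/-- the real part of the sum of all block polynomials -/
noncomputable def Fm (m : ℕ) (c : (Fin 3 → ℤ) → ℂ) (u : Tor (Fin 3) (2 ^ (2 * m + 3))) : ℝ :=
  ∑ l ∈ Finset.Nat.antidiagonalTuple 3 m, PT (blk l) c u

/-- BER3 -/
def StBer3 : Prop := ∀ (a X Y Z : ℕ) (l : Fin 3 → ℕ) (c : (Fin 3 → ℤ) → ℂ),
    (∀ j, 2 * l j + 2 ≤ a) → X + 2 ≤ a → Y + 2 ≤ a → Z + 2 ≤ a →
    S1 (D3 a X Y Z (PT (blk l) c)) ≤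
      32 ^ 3 * (1 / 2 : ℝ) ^ ((X - 2 * l 0) + (Y - 2 * l 1) + (Z - 2 * l 2)) *
        S1 (PT (N := 2 ^ a) (blk l) c)

/-- LOW: the main term from below -/
def StLow : Prop := ∃ C : ℝ, 0 < C ∧ ∀ (m : ℕ) (l : Fin 3 → ℕ) (c : (Fin 3 → ℤ) → ℂ),
    l ∈ Finset.Nat.antidiagonalTuple 3 m → (∀ j, 1 ≤ l j) →
    S1 (PT (N := 2 ^ (2 * m + 3)) (blk l) c) ≤
      C * S1 (D3 (2 * m + 3) (2 * l 0) (2 * l 1) (2 * l 2) (Fm m c))

/-- NUM: the sum of the leaks. `b = 2 β`. -/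
def StNum : Prop := ∃ C : ℝ, 0 < C ∧ ∀ (β m T : ℕ) (l' : Fin 3 → ℕ), 8 ≤ β →
    l' ∈ Finset.Nat.antidiagonalTuple 3 m →
    ∑ l ∈ Finset.Nat.antidiagonalTuple 3 m, ∑ t ∈ Fintype.piFinset (fun _ : Fin 3 => range T),
      (if t = 0 then 0 else 2 ^ (t 0 + t 1 + t 2) *
        (1 / 2 : ℝ) ^ ((2 * l 0 + 2 * β * t 0 - 2 * l' 0) + (2 * l 1 + 2 * β * t 1 - 2 * l' 1) +
          (2 * l 2 + 2 * β * t 2 - 2 * l' 2))) ≤ C * (1 / 2 : ℝ) ^ (β / 2)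

/-- the shift of the free signs: `∑ i < L, ± 2 ^ (a - (X + b i) - 2)` -/
def shf (a b X : ℕ) {L : ℕ} (x : Y L) : ZMod (2 ^ a) :=
  ∑ i ∈ range L, (if bit x i then Hs a (X + b * i) else - Hs a (X + b * i))

/-- the function of three sign vectors with base point `u` -/
def Hu (a b X Y' Z : ℕ) {L : ℕ} (F : Tor (Fin 3) (2 ^ a) → ℝ) (u : Tor (Fin 3) (2 ^ a))
    (x y z : Y L) : ℝ :=
  F (sv 0 (shf a b X x) (sv 1 (shf a b Y' y) (sv 2 (shf a b Z z) u)))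

/-- TRA: average over the base point -/
def StTra : Prop := ∀ (a b X Y' Z L : ℕ) (F : Tor (Fin 3) (2 ^ a) → ℝ) (i p q : ℕ),
    i < L → p < L → q < L →
    ∑ u, A3 (L := L) (Hu a b X Y' Z F u) i p q =
      S1 (D3 a (X + b * i) (Y' + b * p) (Z + b * q) F)

/-- PAR: orthogonality of the blocks, for the boundary blocks -/
def StPar : Prop := ∀ (m : ℕ) (c : (Fin 3 → ℤ) → ℂ),
    ∑ l ∈ Finset.Nat.antidiagonalTuple 3 m, ∑ u, (PT (N := 2 ^ (2 * m + 3)) (blk l) c u) ^ 2 =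
      ∑ u, Fm m c u ^ 2

/-- DISC: the theorem on the discrete torus -/
def StDisc : Prop := ∃ C : ℝ, 0 < C ∧ ∀ (m : ℕ) (c : (Fin 3 → ℤ) → ℂ) (M : ℝ), 1 ≤ m →
    (∀ u, |Fm m c u| ≤ M) →
    ∑ l ∈ Finset.Nat.antidiagonalTuple 3 m, S1 (PT (N := 2 ^ (2 * m + 3)) (blk l) c) ≤
      C * Real.sqrt (2 * m) * Real.log (2 * m + 1) * M * (2 ^ (2 * m + 3)) ^ 3

/-! ### part III: the torus -/

/-- The block polynomial `P_s`, `s = 2 l`, with coefficients `c`. -/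
noncomputable def blockPoly (c : (Fin 3 → ℤ) → ℂ) (l : Fin 3 → ℕ) (x : Fin 3 → ℝ) : ℂ :=
  ∑ k ∈ blk l, c k * Complex.exp (Complex.I * ∑ j : Fin 3, ((((k j : ℝ) * x j : ℝ)) : ℂ))

/-- The `L ^ 1` norm with respect to the normalised Lebesgue measure on `[0, 2 π] ^ 3`. -/
noncomputable def norm1 (F : (Fin 3 → ℝ) → ℂ) : ℝ :=
  (1 / (2 * Real.pi)) ^ 3 *
    ∫ x in Set.pi Set.univ (fun _ : Fin 3 => Set.Icc (0 : ℝ) (2 * Real.pi)), ‖F x‖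

/-- AVG: the integral is at most the mean over some translate of the grid -/
def StAvg : Prop := ∀ (N : ℕ) (φ : (Fin 3 → ℝ) → ℝ), 1 ≤ N → Continuous φ →
    (∀ (x : Fin 3 → ℝ) (j : Fin 3), φ (Function.update x j (x j + 2 * Real.pi)) = φ x) →
    ∃ v : Fin 3 → ℝ, (1 / (2 * Real.pi)) ^ 3 *
      (∫ x in Set.pi Set.univ (fun _ : Fin 3 => Set.Icc (0 : ℝ) (2 * Real.pi)), φ x) * (N : ℝ) ^ 3 ≤
      ∑ g : Fin 3 → Fin N, φ (fun j => v j + 2 * Real.pi * (g j : ℕ) / N)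

/-- FINAL: the theorem -/
def StFinal : Prop := ∃ C : ℝ, 0 < C ∧ ∀ (m : ℕ) (c : (Fin 3 → ℤ) → ℂ), 1 ≤ m →
    C * ∑ l ∈ Finset.Nat.antidiagonalTuple 3 m, norm1 (blockPoly c l) ≤
      ((2 * m : ℕ) : ℝ) ^ ((1 : ℝ) / 2) * Real.log (2 * m + 1) *
        ⨆ x : Fin 3 → ℝ, ‖∑ l ∈ Finset.Nat.antidiagonalTuple 3 m, blockPoly c l x‖

end Pool.Agent.SBT
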