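import Pool.Agent.Lib.MP_a7b2aa_an.SBT.Disc76
import Pool.Agent.Lib.MP_a7b2aa_an.SBT.Lev1_36
import Pool.Agent.Lib.MP_a7b2aa_an.SBT.Lev3_36
import Pool.Agent.Lib.MP_a7b2aa_an.SBT.Lev4_38
import Pool.Agent.Lib.MP_a7b2aa_an.SBT.Absw30
import Pool.Agent.Lib.MP_a7b2aa_an.SBT.Tlt2_90
import Pool.Agent.Lib.MP_a7b2aa_an.SBT.Inv76
import Pool.Agent.Lib.MP_a7b2aa_an.SBT.Tra70
import Pool.Agent.Lib.MP_a7b2aa_an.SBT.Final30
import Pool.Agent.Lib.MP_a7b2aa_an.SBT.Avg30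
import Pool.Agent.Lib.MP_a7b2aa_an.SBT.Low38
import Pool.Agent.Lib.MP_a7b2aa_an.SBT.Par38
import Pool.Agent.Lib.MP_a7b2aa_an.SBT.Num38
import Pool.Agent.Lib.MP_a7b2aa_an.SBT.Ber3_38
import Pool.Agent.Lib.MP_a7b2aa_an.SBT.Fej30
import Pool.Agent.Lib.MP_a7b2aa_an.SBT.Vp30
import Pool.Agent.Lib.SB3.MainW74

/-!
SBT, helper30: assembly of the version with a single logarithm.
-/

set_option autoImplicit false

namespace Pool.Agent.SBT

theorem absw_all : StAbsW := absw_30 Pool.Agent.SB3.W.w30_74 tlt2_90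

theorem mainH_all : StMainH := lev4_38 absw_all lev2_36 lev3_36

theorem final_all : StFinal :=
  final_30 (disc_76 mainH_all (ber3_38 (ber_of_berK_38 (berK_30 (vp_30 fej_30))))
    (low_38 (ext_30 (vp_30 fej_30)) inv_76) num_38 tra_70 par_38) avg_30

end Pool.Agent.SBT
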