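import Pool.Agent.Lib.MP_a7b2aa_an.SBT.StmtsT30

/-!
SBT, module AVG: the integral over the period cube is at most the mean over some translate of the
grid.
-/

set_option autoImplicit false

namespace Pool.Agent.SBT

open Finset MeasureTheory

/-- the period cube -/
def cub : Set (Fin 3 → ℝ) := Set.pi Set.univ (fun _ : Fin 3 => Set.Icc (0 : ℝ) (2 * Real.pi))

theorem cub_split30 (j : Fin 3) (g : (Fin 3 → ℝ) → ℝ) (hg : Continuous g) :
    ∫ x in cub, g x = ∫ s in Set.Icc (0 : ℝ) (2 * Real.pi),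
      ∫ y in Set.pi Set.univ (fun _ : Fin 2 => Set.Icc (0 : ℝ) (2 * Real.pi)),
        g (j.insertNth s y) := by
  have hv := (volume_preserving_piFinSuccAbove (fun _ : Fin 3 => ℝ) j).symm
  have h1 := hv.setIntegral_preimage_emb (MeasurableEquiv.measurableEmbedding _) g cub
  rw [← h1]
  have h2 : ((MeasurableEquiv.piFinSuccAbove (fun _ : Fin 3 => ℝ) j).symm : ℝ × (Fin 2 → ℝ) → _) ⁻¹'
      cub = Set.Icc (0 : ℝ) (2 * Real.pi) ×ˢ
        Set.pi Set.univ (fun _ : Fin 2 => Set.Icc (0 : ℝ) (2 * Real.pi)) := by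
    ext ⟨s, y⟩
    simp only [cub, Set.mem_preimage, Set.mem_pi, Set.mem_univ, true_implies, Set.mem_prod]
    constructor
    · intro h
      refine ⟨?_, fun i => ?_⟩
      · have := h j
        simpa [MeasurableEquiv.piFinSuccAbove, Fin.insertNthEquiv] using this
      · have := h (j.succAbove i)
        simpa [MeasurableEquiv.piFinSuccAbove, Fin.insertNthEquiv] using this
    · rintro ⟨h3, h4⟩ i
      rcases Fin.eq_self_or_eq_succAbove j i with rfl | ⟨i', rfl⟩
      · simpa [MeasurableEquiv.piFinSuccAbove, Fin.insertNthEquiv] using h3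
      · simpa [MeasurableEquiv.piFinSuccAbove, Fin.insertNthEquiv] using h4 i'
  rw [h2]
  have h3 : ∀ p : ℝ × (Fin 2 → ℝ),
      g ((MeasurableEquiv.piFinSuccAbove (fun _ : Fin 3 => ℝ) j).symm p)
        = g (j.insertNth p.1 p.2) := fun p => rfl
  simp only [h3]
  have hc : Continuous fun p : ℝ × (Fin 2 → ℝ) => g (j.insertNth p.1 p.2) := by
    refine hg.comp ?_
    refine continuous_pi fun i => ?_
    rcases Fin.eq_self_or_eq_succAbove j i with rfl | ⟨i', rfl⟩
    · simpa using continuous_fst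
    · have h5 : Continuous fun p : ℝ × (Fin 2 → ℝ) => p.2 i' :=
        (continuous_apply i').comp continuous_snd
      simpa using h5
  have hcomp : IsCompact (Set.Icc (0 : ℝ) (2 * Real.pi) ×ˢ
      Set.pi Set.univ (fun _ : Fin 2 => Set.Icc (0 : ℝ) (2 * Real.pi))) :=
    isCompact_Icc.prod (isCompact_univ_pi fun _ => isCompact_Icc)
  have := setIntegral_prod (μ := volume) (ν := volume)
    (fun p : ℝ × (Fin 2 → ℝ) => g (j.insertNth p.1 p.2))
    (s := Set.Icc (0 : ℝ) (2 * Real.pi))
    (t := Set.pi Set.univ (fun _ : Fin 2 => Set.Icc (0 : ℝ) (2 * Real.pi)))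
    (hc.continuousOn.integrableOn_compact hcomp)
  rw [← this]
  rfl

theorem update_insertNth30 (j : Fin 3) (s h : ℝ) (y : Fin 2 → ℝ) :
    Function.update (j.insertNth s y : Fin 3 → ℝ) j ((j.insertNth s y : Fin 3 → ℝ) j + h)
      = j.insertNth (s + h) y := by
  funext i
  rcases Fin.eq_self_or_eq_succAbove j i with rfl | ⟨i', rfl⟩
  · simp
  · rw [Function.update_of_ne (Fin.succAbove_ne j i')]
    simp

theorem cub_tr30 (j : Fin 3) (h : ℝ) (φ : (Fin 3 → ℝ) → ℝ) (hφ : Continuous φ)
    (hp : ∀ x : Fin 3 → ℝ, φ (Function.update x j (x j + 2 * Real.pi)) = φ x) :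
    ∫ x in cub, φ (Function.update x j (x j + h)) = ∫ x in cub, φ x := by
  have hc : Continuous fun x : Fin 3 → ℝ => φ (Function.update x j (x j + h)) :=
    hφ.comp (continuous_id.update j ((continuous_apply j).add continuous_const))
  rw [cub_split30 j _ hc, cub_split30 j _ hφ]
  simp only [update_insertNth30]
  set Φ : ℝ → ℝ := fun s =>
    ∫ y in Set.pi Set.univ (fun _ : Fin 2 => Set.Icc (0 : ℝ) (2 * Real.pi)), φ (j.insertNth s y)
    with hΦ
  have hper : Function.Periodic Φ (2 * Real.pi) := by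
    intro s
    simp only [hΦ]
    congr 1
    funext y
    rw [← update_insertNth30, hp]
  have hpi : (0 : ℝ) ≤ 2 * Real.pi := by positivity
  change ∫ s in Set.Icc (0 : ℝ) (2 * Real.pi), Φ (s + h) = ∫ s in Set.Icc (0 : ℝ) (2 * Real.pi), Φ s
  rw [integral_Icc_eq_integral_Ioc, integral_Icc_eq_integral_Ioc,
    ← intervalIntegral.integral_of_le hpi, ← intervalIntegral.integral_of_le hpi,
    intervalIntegral.integral_comp_add_right]
  have := hper.intervalIntegral_add_eq h 0
  rw [zero_add] at this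
  rw [zero_add, add_comm (2 * Real.pi) h]
  exact this

theorem cub_trv30 (w : Fin 3 → ℝ) (φ : (Fin 3 → ℝ) → ℝ) (hφ : Continuous φ)
    (hp : ∀ (x : Fin 3 → ℝ) (j : Fin 3), φ (Function.update x j (x j + 2 * Real.pi)) = φ x) :
    ∫ x in cub, φ (fun j => x j + w j) = ∫ x in cub, φ x := by
  -- periodicity of partially translated functions
  have hup : ∀ (j : Fin 3) (v : Fin 3 → ℝ) (x : Fin 3 → ℝ),
      φ (fun i => (Function.update x j (x j + 2 * Real.pi)) i + v i) = φ (fun i => x i + v i) := by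
    intro j v x
    rw [← hp (fun i => x i + v i) j]
    congr 1
    funext i
    by_cases hi : i = j
    · subst hi; simp; ring
    · simp [Function.update_of_ne hi]
  have hcv : ∀ v : Fin 3 → ℝ, Continuous fun x : Fin 3 → ℝ => φ (fun i => x i + v i) := fun v =>
    hφ.comp (continuous_pi fun i => (continuous_apply i).add continuous_const)
  have step : ∀ (j : Fin 3) (v : Fin 3 → ℝ) (h : ℝ),
      ∫ x in cub, φ (fun i => x i + Function.update v j (v j + h) i)
        = ∫ x in cub, φ (fun i => x i + v i) := by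
    intro j v h
    rw [← cub_tr30 j h (fun x => φ (fun i => x i + v i)) (hcv v) (fun x => hup j v x)]
    congr 1
    funext x
    congr 1
    funext i
    by_cases hi : i = j
    · subst hi; simp; ring
    · simp [Function.update_of_ne hi]
  have h0 : ∫ x in cub, φ (fun i => x i + (0 : Fin 3 → ℝ) i) = ∫ x in cub, φ x := by simp
  have h1 := step 0 0 (w 0)
  have h2 := step 1 (Function.update 0 0 ((0 : Fin 3 → ℝ) 0 + w 0)) (w 1)
  have h3 := step 2 (Function.update (Function.update 0 0 ((0 : Fin 3 → ℝ) 0 + w 0)) 1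
    ((Function.update 0 0 ((0 : Fin 3 → ℝ) 0 + w 0) : Fin 3 → ℝ) 1 + w 1)) (w 2)
  rw [← h0, ← h1, ← h2, ← h3]
  congr 1
  funext x
  congr 1
  funext i
  fin_cases i <;> simp [Function.update]

theorem avg_30 : StAvg := by
  intro N φ hN hφ hp
  have hcv : ∀ v : Fin 3 → ℝ, Continuous fun x : Fin 3 → ℝ => φ (fun i => x i + v i) := fun v =>
    hφ.comp (continuous_pi fun i => (continuous_apply i).add continuous_const)
  set ψ : (Fin 3 → ℝ) → ℝ := fun v =>
    ∑ g : Fin 3 → Fin N, φ (fun j => v j + 2 * Real.pi * (g j : ℕ) / N) with hψ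
  have hψc : Continuous ψ := continuous_finsetSum _ fun g _ => hcv _
  have hcomp : IsCompact cub := isCompact_univ_pi fun _ => isCompact_Icc
  have hvol : volume cub = ENNReal.ofReal (2 * Real.pi) ^ 3 := by
    unfold cub
    rw [volume_pi_pi]
    simp
  have h0 : volume cub ≠ 0 := by
    rw [hvol]
    exact pow_ne_zero _ (by rw [Ne, ENNReal.ofReal_eq_zero]; push Not; positivity)
  have h1 : volume cub ≠ ⊤ := by
    rw [hvol]
    exact ENNReal.pow_ne_top ENNReal.ofReal_ne_top
  obtain ⟨v, -, hv⟩ := exists_setAverage_le h0 h1 (hψc.continuousOn.integrableOn_compact hcomp)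
  refine ⟨v, ?_⟩
  have h2 : ∫ x in cub, ψ x = (N : ℝ) ^ 3 * ∫ x in cub, φ x := by
    simp only [hψ]
    rw [integral_finsetSum]
    · rw [sum_congr rfl fun g _ =>
        cub_trv30 (fun j => 2 * Real.pi * (g j : ℕ) / N) φ hφ hp]
      simp
    · intro g _
      exact (hcv _).continuousOn.integrableOn_compact hcomp
  rw [setAverage_eq, h2, smul_eq_mul, measureReal_def, hvol, ENNReal.toReal_pow,
    ENNReal.toReal_ofReal (by positivity)] at hv
  refine le_trans (le_of_eq ?_) hv
  change (1 / (2 * Real.pi)) ^ 3 * (∫ x in cub, φ x) * (N : ℝ) ^ 3 = _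
  rw [one_div, inv_pow]
  ring

end Pool.Agent.SBT
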