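import Pool.Agent.Lib.MP_a7b2aa_an.SBT.StmtsT30
import Pool.Agent.Lib.MP_a7b2aa_an.SBT.Eyb33

/-!
SBT, modules CFO (orthogonality of the components) and CFB (comparison of `cf` and `d3`).
-/

set_option autoImplicit false

namespace Pool.Agent.SBT

open Finset Pool.Agent.SB3

theorem Ey_const33 {L : ℕ} (i : ℕ) (c : ℝ) (x : Y L) : Ey i (fun _ => c) x = c :=
  Ey_mea33 (fun _ => c) L i (by omega) (fun _ _ _ => rfl) x

theorem Ey_cmul33 {L : ℕ} (i : ℕ) (c : ℝ) (φ : Y L → ℝ) (x : Y L) :
    Ey i (fun x' => c * φ x') x = c * Ey i φ x :=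
  Ey_mul33 (fun _ => c) φ (fun _ _ _ => rfl) x

theorem Ey_sgr33 {L : ℕ} {i : ℕ} (hi : i < L) (x : Y L) :
    Ey i (fun x' => sgr (bit x' i)) x = 0 := by
  have h1 := Ey_d133 hi (fun _ : Y L => (1 : ℝ)) x
  have h2 : (fun x' : Y L => sgr (bit x' i) * (1 : ℝ)) = fun x' => sgr (bit x' i) := by
    funext x'
    rw [mul_one]
  rw [h2] at h1
  rw [h1]
  have h3 : d1 i (fun _ : Y L => (1 : ℝ)) = fun _ => (0 : ℝ) := by
    funext x'
    simp [d1]
  rw [h3, Ey_const33]

theorem one_33 {L : ℕ} {i i' : ℕ} (hi : i < L) (hi' : i' < L) (φ : Y L → ℝ)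
    (hφ : ∀ x x', pre i' x = pre i' x' → φ x = φ x') (x : Y L) :
    Ey i (fun x' => sgr (bit x' i) * sgr (bit x' i') * φ x') x = if i' = i then φ x else 0 := by
  rcases lt_trichotomy i' i with h | h | h
  · rw [if_neg h.ne]
    have h1 : (fun x' : Y L => sgr (bit x' i) * sgr (bit x' i') * φ x') =
        fun x' => (sgr (bit x' i') * φ x') * sgr (bit x' i) := by
      funext x'
      ring
    rw [h1, Ey_mul33 (fun x' => sgr (bit x' i') * φ x') (fun x' => sgr (bit x' i)), Ey_sgr33 hi,
      mul_zero]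
    intro y y' hy
    rw [bit_of_pre33 h hy, hφ y y' (pre_mono33 h.le hy)]
  · subst h
    rw [if_pos rfl]
    have h1 : (fun x' : Y L => sgr (bit x' i') * sgr (bit x' i') * φ x') = φ := by
      funext x'
      rw [sgr_sq33, one_mul]
    rw [h1]
    exact Ey_mea33 φ L i' (by omega) hφ x
  · rw [if_neg h.ne']
    obtain ⟨k, hk⟩ := Nat.exists_eq_add_of_le h.le
    rw [← Ey_tower33 _ k i x, ← hk]
    have h1 : ∀ y : Y L, Ey i' (fun x' => sgr (bit x' i) * sgr (bit x' i') * φ x') y = 0 := by
      intro y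
      have h2 : (fun x' : Y L => sgr (bit x' i) * sgr (bit x' i') * φ x') =
          fun x' => (sgr (bit x' i) * φ x') * sgr (bit x' i') := by
        funext x'
        ring
      rw [h2, Ey_mul33 (fun x' => sgr (bit x' i) * φ x') (fun x' => sgr (bit x' i')),
        Ey_sgr33 hi', mul_zero]
      intro y y' hy
      rw [bit_of_pre33 h hy, hφ y y' hy]
    have h3 : Ey i' (fun x' => sgr (bit x' i) * sgr (bit x' i') * φ x') = fun _ => (0 : ℝ) :=
      funext h1
    rw [h3, Ey_const33]

theorem cf_dep33 {L : ℕ} (H : Y L → Y L → Y L → ℝ) (i p q : ℕ) {x x' y y' z z' : Y L}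
    (hx : pre i x = pre i x') (hy : pre p y = pre p y') (hz : pre q z = pre q z') :
    cf H i p q x y z = cf H i p q x' y' z' := by
  unfold cf
  have h1 : ∀ (a b : Y L), Ey q (fun z' => sgr (bit a i) * sgr (bit b p) * sgr (bit z' q) *
      H a b z') z = Ey q (fun z' => sgr (bit a i) * sgr (bit b p) * sgr (bit z' q) * H a b z') z' :=
    fun a b => Ey_pre33 _ hz
  have h2 : ∀ (a : Y L), Ey p (fun y' => Ey q (fun z' => sgr (bit a i) * sgr (bit y' p) *
      sgr (bit z' q) * H a y' z') z) y = Ey p (fun y' => Ey q (fun z' => sgr (bit a i) *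
      sgr (bit y' p) * sgr (bit z' q) * H a y' z') z') y' := by
    intro a
    rw [Ey_pre33 _ hy]
    congr 1
    funext b
    exact h1 a b
  rw [Ey_pre33 _ hx]
  congr 1
  funext a
  exact h2 a

theorem cfo_33 : StCfo := by
  intro L H i p q i' p' q' x y z hi hp hq hi' hp' hq'
  have hz : ∀ a b : Y L, Ey q (fun z' => sgr (bit a i) * sgr (bit b p) * sgr (bit z' q) *
      (sgr (bit a i') * sgr (bit b p') * sgr (bit z' q') * cf H i' p' q' a b z')) z =
      (sgr (bit a i) * sgr (bit a i')) * ((sgr (bit b p) * sgr (bit b p')) *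
        (if q' = q then cf H i' p' q' a b z else 0)) := by
    intro a b
    rw [← one_33 hq hq' (fun z' => cf H i' p' q' a b z')
      (fun z1 z2 h => cf_dep33 H i' p' q' rfl rfl h) z, ← Ey_cmul33, ← Ey_cmul33]
    congr 1
    funext z'
    ring
  have hy : ∀ a : Y L, Ey p (fun b => (sgr (bit a i) * sgr (bit a i')) *
      ((sgr (bit b p) * sgr (bit b p')) * (if q' = q then cf H i' p' q' a b z else 0))) y =
      (sgr (bit a i) * sgr (bit a i')) *
        (if p' = p then (if q' = q then cf H i' p' q' a y z else 0) else 0) := by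
    intro a
    rw [Ey_cmul33, one_33 hp hp' (fun b => if q' = q then cf H i' p' q' a b z else 0)]
    intro y1 y2 h
    rw [cf_dep33 H i' p' q' rfl h rfl]
  have hx : Ey i (fun a => (sgr (bit a i) * sgr (bit a i')) *
        (if p' = p then (if q' = q then cf H i' p' q' a y z else 0) else 0)) x =
      (if i' = i then (if p' = p then (if q' = q then cf H i' p' q' x y z else 0) else 0)
        else 0) := by
    rw [one_33 hi hi' (fun a => if p' = p then (if q' = q then cf H i' p' q' a y z else 0) else 0)]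
    intro x1 x2 h
    rw [cf_dep33 H i' p' q' h rfl rfl]
  have h0 : cf (fun x y z => sgr (bit x i') * sgr (bit y p') * sgr (bit z q') *
      cf H i' p' q' x y z) i p q x y z =
      (if i' = i then (if p' = p then (if q' = q then cf H i' p' q' x y z else 0) else 0)
        else 0) := by
    rw [← hx]
    conv_lhs => unfold cf
    congr 1
    funext a
    rw [← hy a]
    congr 1
    funext b
    exact hz a b
  rw [h0]
  by_cases h1 : i' = i
  · by_cases h2 : p' = p
    · by_cases h3 : q' = q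
      · rw [if_pos h1, if_pos h2, if_pos h3, if_pos ⟨h1, h2, h3⟩, h1, h2, h3]
      · rw [if_pos h1, if_pos h2, if_neg h3, if_neg (fun h => h3 h.2.2)]
    · rw [if_pos h1, if_neg h2, if_neg (fun h => h2 h.2.1)]
  · rw [if_neg h1, if_neg (fun h => h1 h.1)]

end Pool.Agent.SBT
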