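import Pool.Agent.Lib.MP_a7b2aa_an.SBT.DiscBase76

set_option autoImplicit false

namespace Pool.Agent.SBT

open Finset Pool.Agent.SB3

namespace D76

/-- the bound for the mixed differences -/
noncomputable def Dub (m : ℕ) (c : (Fin 3 → ℤ) → ℂ) (X Y' Z : ℕ) : ℝ :=
  32 ^ 3 * ∑ l ∈ Finset.Nat.antidiagonalTuple 3 m,
    (1 / 2 : ℝ) ^ ((X - 2 * l 0) + (Y' - 2 * l 1) + (Z - 2 * l 2)) * TT m c l

lemma Dub_nonneg (m : ℕ) (c : (Fin 3 → ℤ) → ℂ) (X Y' Z : ℕ) : 0 ≤ Dub m c X Y' Z := by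
  unfold Dub
  refine mul_nonneg (by positivity) (Finset.sum_nonneg (fun l _ => ?_))
  exact mul_nonneg (by positivity) (S1_nonneg _)

lemma D_le (hber : StBer3) (m : ℕ) (c : (Fin 3 → ℤ) → ℂ) (X Y' Z : ℕ) (hX : X ≤ 2 * m + 1)
    (hY : Y' ≤ 2 * m + 1) (hZ : Z ≤ 2 * m + 1) :
    S1 (D3 (2 * m + 3) X Y' Z (Fm m c)) ≤ Dub m c X Y' Z := by
  have h1 : D3 (2 * m + 3) X Y' Z (Fm m c) =
      fun u => ∑ l ∈ Finset.Nat.antidiagonalTuple 3 m,
        D3 (2 * m + 3) X Y' Z (PT (blk l) c) u := by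
    rw [← D3_sum]
    rfl
  rw [h1]
  refine (S1_sum_le _ _).trans ?_
  unfold Dub
  rw [Finset.mul_sum]
  refine Finset.sum_le_sum (fun l hl => ?_)
  rw [Finset.Nat.mem_antidiagonalTuple, Fin.sum_univ_three] at hl
  have hj : ∀ j, 2 * l j + 2 ≤ 2 * m + 3 := by
    intro j
    fin_cases j
    · show 2 * l 0 + 2 ≤ 2 * m + 3
      omega
    · show 2 * l 1 + 2 ≤ 2 * m + 3
      omega
    · show 2 * l 2 + 2 ≤ 2 * m + 3
      omega
  have := hber (2 * m + 3) X Y' Z l c hj (by omega) (by omega) (by omega)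
  unfold TT
  linarith [this]

/-- the sum of the leaks at `l` -/
noncomputable def Bub (m β : ℕ) (c : (Fin 3 → ℤ) → ℂ) (l : Fin 3 → ℕ) : ℝ :=
  ∑ t ∈ Fintype.piFinset (fun _ : Fin 3 => range (m + 2)),
    (if t = 0 then 0 else 2 ^ (t 0 + t 1 + t 2) *
      Dub m c (2 * l 0 + 2 * β * t 0) (2 * l 1 + 2 * β * t 1) (2 * l 2 + 2 * β * t 2))

lemma B3_le (m β : ℕ) (c : (Fin 3 → ℤ) → ℂ) (L i p q l0 l1 l2 : ℕ) (hL : L ≤ m + 1)
    (W : ℕ → ℕ → ℕ → ℝ)
    (hW : ∀ i' p' q', i ≤ i' → p ≤ p' → q ≤ q' → i' < L → p' < L → q' < L →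
      W i' p' q' ≤ Dub m c (2 * l0 + 2 * β * (i' - i)) (2 * l1 + 2 * β * (p' - p))
        (2 * l2 + 2 * β * (q' - q))) :
    ∑ i' ∈ Ico i L, ∑ p' ∈ Ico p L, ∑ q' ∈ Ico q L,
      (if i' = i ∧ p' = p ∧ q' = q then 0
        else 2 ^ ((i' - i) + (p' - p) + (q' - q)) * W i' p' q') ≤ Bub m β c ![l0, l1, l2] := by
  have h0 : ∑ i' ∈ Ico i L, ∑ p' ∈ Ico p L, ∑ q' ∈ Ico q L,
      (if i' = i ∧ p' = p ∧ q' = q then 0
        else 2 ^ ((i' - i) + (p' - p) + (q' - q)) * W i' p' q') =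
      ∑ x ∈ Ico i L ×ˢ (Ico p L ×ˢ Ico q L),
        (if x.1 = i ∧ x.2.1 = p ∧ x.2.2 = q then 0
        else 2 ^ ((x.1 - i) + (x.2.1 - p) + (x.2.2 - q)) * W x.1 x.2.1 x.2.2) := by
    rw [Finset.sum_product]
    refine Finset.sum_congr rfl (fun i' _ => ?_)
    rw [Finset.sum_product]
  rw [h0]
  set g : (Fin 3 → ℕ) → ℝ := fun t => (if t = 0 then 0 else 2 ^ (t 0 + t 1 + t 2) *
      Dub m c (2 * l0 + 2 * β * t 0) (2 * l1 + 2 * β * t 1) (2 * l2 + 2 * β * t 2)) with hg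
  have hgn : ∀ t, 0 ≤ g t := by
    intro t
    simp only [hg]
    split_ifs
    · exact le_refl _
    · exact mul_nonneg (by positivity) (Dub_nonneg _ _ _ _ _)
  set e : ℕ × (ℕ × ℕ) → (Fin 3 → ℕ) := fun x => ![x.1 - i, x.2.1 - p, x.2.2 - q] with he
  have h1 : ∀ x ∈ Ico i L ×ˢ (Ico p L ×ˢ Ico q L),
      (if x.1 = i ∧ x.2.1 = p ∧ x.2.2 = q then 0
        else 2 ^ ((x.1 - i) + (x.2.1 - p) + (x.2.2 - q)) * W x.1 x.2.1 x.2.2) ≤ g (e x) := by
    intro x hx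
    simp only [mem_product, mem_Ico] at hx
    split_ifs with h2
    · exact hgn _
    · have h3 : e x ≠ 0 := by
        intro h4
        apply h2
        have a0 := congrFun h4 0
        have a1 := congrFun h4 1
        have a2 := congrFun h4 2
        simp [he] at a0 a1 a2
        omega
      simp only [hg, if_neg h3]
      have e0 : e x 0 = x.1 - i := by simp [he]
      have e1 : e x 1 = x.2.1 - p := by simp [he]
      have e2 : e x 2 = x.2.2 - q := by simp [he]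
      rw [e0, e1, e2]
      refine mul_le_mul_of_nonneg_left ?_ (by positivity)
      exact hW _ _ _ (by omega) (by omega) (by omega) (by omega) (by omega) (by omega)
  refine (Finset.sum_le_sum h1).trans ?_
  have hinj : Set.InjOn e (Ico i L ×ˢ (Ico p L ×ˢ Ico q L) : Finset (ℕ × (ℕ × ℕ))) := by
    intro x hx y hy hxy
    simp only [coe_product, coe_Ico, Set.mem_prod, Set.mem_Ico] at hx hy
    have a0 := congrFun hxy 0
    have a1 := congrFun hxy 1
    have a2 := congrFun hxy 2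
    simp [he] at a0 a1 a2
    refine Prod.ext (by omega) (Prod.ext (by omega) (by omega))
  rw [← Finset.sum_image (f := g) hinj]
  unfold Bub
  refine Finset.sum_le_sum_of_subset_of_nonneg ?_ (fun t _ _ => hgn t)
  intro t ht
  rw [mem_image] at ht
  obtain ⟨x, hx, rfl⟩ := ht
  simp only [mem_product, mem_Ico] at hx
  rw [Fintype.mem_piFinset]
  intro j
  rw [mem_range]
  fin_cases j
  · show x.1 - i < m + 2
    omega
  · show x.2.1 - p < m + 2
    omega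
  · show x.2.2 - q < m + 2
    omega

/-- one class -/
lemma class_le (C1 : ℝ) (hC1 : 0 < C1)
    (hmain : ∀ (L : ℕ) (H : Y L → Y L → Y L → ℝ) (M : ℝ), 1 ≤ L →
      (∀ x y z, |H x y z| ≤ M) →
      ∑ p ∈ range L, ∑ q ∈ range (L - p), A3 H (L - 1 - p - q) p q ≤
        C1 * ∑ p ∈ range L, ∑ q ∈ range (L - p), B3 H (L - 1 - p - q) p q +
          C1 * Real.sqrt L * Real.log (L + 1) * M)
    (hber : StBer3) (htra : StTra) (m β y0 z0 : ℕ) (c : (Fin 3 → ℤ) → ℂ) (M : ℝ)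
    (hM : ∀ u, |Fm m c u| ≤ M) (hM0 : 0 ≤ M) (hm : 1 ≤ m) (hβ : 0 < β) (h : y0 + z0 ≤ m) :
    ∑ p ∈ range ((m - y0 - z0) / β + 1), ∑ q ∈ range ((m - y0 - z0) / β + 1 - p),
        S1 (D3 (2 * m + 3) (2 * (m - (y0 + β * p) - (z0 + β * q))) (2 * (y0 + β * p))
          (2 * (z0 + β * q)) (Fm m c)) ≤
      C1 * ∑ p ∈ range ((m - y0 - z0) / β + 1), ∑ q ∈ range ((m - y0 - z0) / β + 1 - p),
        Bub m β c ![m - (y0 + β * p) - (z0 + β * q), y0 + β * p, z0 + β * q] +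
      C1 * (Real.sqrt (2 * m) * Real.log (2 * m + 1) * M * (2 ^ (2 * m + 3)) ^ 3) := by
  set k := (m - y0 - z0) / β with hk
  have hk1 : β * k ≤ m - y0 - z0 := Nat.mul_div_le _ _
  have hkm : k ≤ m := by
    calc k ≤ m - y0 - z0 := Nat.div_le_self _ _
      _ ≤ m := by omega
  clear_value k
  clear hk
  set L := k + 1 with hL
  set a := 2 * m + 3 with ha
  set X0 := 2 * (m - y0 - z0 - β * k) with hX0
  have key : ∀ u : Tor (Fin 3) (2 ^ a),
      ∑ p ∈ range L, ∑ q ∈ range (L - p),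
        A3 (Hu a (2 * β) X0 (2 * y0) (2 * z0) (Fm m c) u : Y L → Y L → Y L → ℝ) (L - 1 - p - q) p q ≤
        C1 * ∑ p ∈ range L, ∑ q ∈ range (L - p),
          B3 (Hu a (2 * β) X0 (2 * y0) (2 * z0) (Fm m c) u : Y L → Y L → Y L → ℝ) (L - 1 - p - q) p q +
          C1 * Real.sqrt L * Real.log (L + 1) * M := by
    intro u
    exact hmain L _ M (by omega) (fun x y z => hM _)
  have hsum := Finset.sum_le_sum (fun u (_ : u ∈ (univ : Finset (Tor (Fin 3) (2 ^ a)))) => key u)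
  have hA : ∑ u : Tor (Fin 3) (2 ^ a), ∑ p ∈ range L, ∑ q ∈ range (L - p),
        A3 (Hu a (2 * β) X0 (2 * y0) (2 * z0) (Fm m c) u : Y L → Y L → Y L → ℝ) (L - 1 - p - q) p q =
      ∑ p ∈ range L, ∑ q ∈ range (L - p),
        S1 (D3 a (2 * (m - (y0 + β * p) - (z0 + β * q))) (2 * (y0 + β * p))
          (2 * (z0 + β * q)) (Fm m c)) := by
    rw [Finset.sum_comm]
    refine Finset.sum_congr rfl (fun p hp => ?_)
    rw [Finset.sum_comm]
    refine Finset.sum_congr rfl (fun q hq => ?_)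
    rw [mem_range] at hp hq
    rw [htra a (2 * β) X0 (2 * y0) (2 * z0) L (Fm m c) (L - 1 - p - q) p q (by omega) (by omega)
      (by omega)]
    obtain ⟨r, hr⟩ : ∃ r, k = p + q + r := ⟨k - p - q, by omega⟩
    have e1 : X0 + 2 * β * (L - 1 - p - q) = 2 * (m - (y0 + β * p) - (z0 + β * q)) := by
      have e2 : L - 1 - p - q = r := by omega
      rw [e2, hX0]
      have e3 : β * k = β * p + β * q + β * r := by rw [hr]; ring
      have e4 : 2 * β * r = 2 * (β * r) := by ring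
      rw [e3] at hk1 ⊢
      rw [e4]
      omega
    have e5 : 2 * y0 + 2 * β * p = 2 * (y0 + β * p) := by ring
    have e6 : 2 * z0 + 2 * β * q = 2 * (z0 + β * q) := by ring
    rw [e1, e5, e6]
  have hB : ∑ u : Tor (Fin 3) (2 ^ a), ∑ p ∈ range L, ∑ q ∈ range (L - p),
        B3 (Hu a (2 * β) X0 (2 * y0) (2 * z0) (Fm m c) u : Y L → Y L → Y L → ℝ) (L - 1 - p - q) p q ≤
      ∑ p ∈ range L, ∑ q ∈ range (L - p),
        Bub m β c ![m - (y0 + β * p) - (z0 + β * q), y0 + β * p, z0 + β * q] := by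
    rw [Finset.sum_comm]
    refine Finset.sum_le_sum (fun p hp => ?_)
    rw [Finset.sum_comm]
    refine Finset.sum_le_sum (fun q hq => ?_)
    rw [mem_range] at hp hq
    obtain ⟨r, hr⟩ : ∃ r, k = p + q + r := ⟨k - p - q, by omega⟩
    have e3 : β * k = β * p + β * q + β * r := by rw [hr]; ring
    have h1 : ∑ u : Tor (Fin 3) (2 ^ a),
        B3 (Hu a (2 * β) X0 (2 * y0) (2 * z0) (Fm m c) u : Y L → Y L → Y L → ℝ) (L - 1 - p - q) p q =
        ∑ i' ∈ Ico (L - 1 - p - q) L, ∑ p' ∈ Ico p L, ∑ q' ∈ Ico q L,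
          (if i' = L - 1 - p - q ∧ p' = p ∧ q' = q then 0
            else 2 ^ ((i' - (L - 1 - p - q)) + (p' - p) + (q' - q)) *
              S1 (D3 a (X0 + 2 * β * i') (2 * y0 + 2 * β * p') (2 * z0 + 2 * β * q') (Fm m c))) := by
      unfold B3
      rw [Finset.sum_comm]
      refine Finset.sum_congr rfl (fun i' hi' => ?_)
      rw [Finset.sum_comm]
      refine Finset.sum_congr rfl (fun p' hp' => ?_)
      rw [Finset.sum_comm]
      refine Finset.sum_congr rfl (fun q' hq' => ?_)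
      rw [mem_Ico] at hi' hp' hq'
      split_ifs with h2
      · simp
      · rw [← Finset.mul_sum, htra a (2 * β) X0 (2 * y0) (2 * z0) L (Fm m c) i' p' q' (by omega)
          (by omega) (by omega)]
    rw [h1]
    refine B3_le m β c L (L - 1 - p - q) p q _ _ _ (by omega)
      (fun i' p' q' => S1 (D3 a (X0 + 2 * β * i') (2 * y0 + 2 * β * p') (2 * z0 + 2 * β * q')
        (Fm m c))) ?_
    intro i' p' q' hi hp' hq' hi2 hp2 hq2
    have hir : L - 1 - p - q = r := by omega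
    rw [hir] at hi ⊢
    obtain ⟨s, hs⟩ : ∃ s, i' = r + s := ⟨i' - r, by omega⟩
    obtain ⟨p1, hp1⟩ : ∃ s, p' = p + s := ⟨p' - p, by omega⟩
    obtain ⟨q1, hq1⟩ : ∃ s, q' = q + s := ⟨q' - q, by omega⟩
    have m1 : β * i' ≤ β * k := Nat.mul_le_mul_left _ (by omega)
    have m2 : β * p' ≤ β * k := Nat.mul_le_mul_left _ (by omega)
    have m3 : β * q' ≤ β * k := Nat.mul_le_mul_left _ (by omega)
    have n1 : 2 * β * i' = 2 * (β * i') := by ring
    have n2 : 2 * β * p' = 2 * (β * p') := by ring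
    have n3 : 2 * β * q' = 2 * (β * q') := by ring
    have b1 : X0 + 2 * β * i' ≤ 2 * m + 1 := by rw [n1, hX0]; omega
    have b2 : 2 * y0 + 2 * β * p' ≤ 2 * m + 1 := by rw [n2]; omega
    have b3 : 2 * z0 + 2 * β * q' ≤ 2 * m + 1 := by rw [n3]; omega
    have c1 : X0 + 2 * β * i' =
        2 * (m - (y0 + β * p) - (z0 + β * q)) + 2 * β * (i' - r) := by
      have e7 : i' - r = s := by omega
      have e8 : 2 * β * i' = 2 * (β * r) + 2 * (β * s) := by rw [hs]; ring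
      have e9 : 2 * β * s = 2 * (β * s) := by ring
      rw [e7, e8, e9, hX0]
      omega
    have c2 : 2 * y0 + 2 * β * p' = 2 * (y0 + β * p) + 2 * β * (p' - p) := by
      have e7 : p' - p = p1 := by omega
      rw [e7, hp1]
      ring
    have c3 : 2 * z0 + 2 * β * q' = 2 * (z0 + β * q) + 2 * β * (q' - q) := by
      have e7 : q' - q = q1 := by omega
      rw [e7, hq1]
      ring
    have := D_le hber m c _ _ _ b1 b2 b3
    show S1 (D3 a (X0 + 2 * β * i') (2 * y0 + 2 * β * p') (2 * z0 + 2 * β * q') (Fm m c)) ≤ _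
    rw [← c1, ← c2, ← c3]
    exact this
  rw [hA, Finset.sum_add_distrib, ← Finset.mul_sum] at hsum
  refine hsum.trans ?_
  refine add_le_add (mul_le_mul_of_nonneg_left hB hC1.le) ?_
  rw [Finset.sum_const, card_univ, nsmul_eq_mul, card_tor]
  have hLm : (L : ℝ) ≤ 2 * m := by
    have : L ≤ 2 * m := by omega
    exact_mod_cast this
  have s1 : Real.sqrt L ≤ Real.sqrt (2 * m) := Real.sqrt_le_sqrt hLm
  have s2 : Real.log (L + 1) ≤ Real.log (2 * m + 1) :=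
    Real.log_le_log (by positivity) (by linarith)
  have s3 : 0 ≤ Real.log (L + 1) := Real.log_nonneg (by
    have : (0 : ℝ) ≤ L := Nat.cast_nonneg _
    linarith)
  have s4 : Real.sqrt L * Real.log (L + 1) ≤ Real.sqrt (2 * m) * Real.log (2 * m + 1) :=
    mul_le_mul s1 s2 s3 (Real.sqrt_nonneg _)
  have s5 : Real.sqrt L * Real.log (L + 1) * (M * (2 ^ a) ^ 3) ≤
      Real.sqrt (2 * m) * Real.log (2 * m + 1) * (M * (2 ^ a) ^ 3) :=
    mul_le_mul_of_nonneg_right s4 (by positivity)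
  have s6 := mul_le_mul_of_nonneg_left s5 hC1.le
  calc (2 ^ a) ^ 3 * (C1 * Real.sqrt L * Real.log (L + 1) * M)
      = C1 * (Real.sqrt L * Real.log (L + 1) * (M * (2 ^ a) ^ 3)) := by ring
    _ ≤ C1 * (Real.sqrt (2 * m) * Real.log (2 * m + 1) * (M * (2 ^ a) ^ 3)) := s6
    _ = C1 * (Real.sqrt (2 * m) * Real.log (2 * m + 1) * M * (2 ^ a) ^ 3) := by ring

/-- the sum of all leaks -/
lemma Bub_sum (CN : ℝ) (β m : ℕ) (hβ : 8 ≤ β)
    (hnum : ∀ (β m T : ℕ) (l' : Fin 3 → ℕ), 8 ≤ β →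
    l' ∈ Finset.Nat.antidiagonalTuple 3 m →
    ∑ l ∈ Finset.Nat.antidiagonalTuple 3 m, ∑ t ∈ Fintype.piFinset (fun _ : Fin 3 => range T),
      (if t = 0 then 0 else 2 ^ (t 0 + t 1 + t 2) *
        (1 / 2 : ℝ) ^ ((2 * l 0 + 2 * β * t 0 - 2 * l' 0) + (2 * l 1 + 2 * β * t 1 - 2 * l' 1) +
          (2 * l 2 + 2 * β * t 2 - 2 * l' 2))) ≤ CN * (1 / 2 : ℝ) ^ (β / 2))
    (c : (Fin 3 → ℤ) → ℂ) :
    ∑ l ∈ Finset.Nat.antidiagonalTuple 3 m, Bub m β c l ≤
      32 ^ 3 * (CN * (1 / 2 : ℝ) ^ (β / 2)) *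
        ∑ l ∈ Finset.Nat.antidiagonalTuple 3 m, TT m c l := by
  have h1 : ∑ l ∈ Finset.Nat.antidiagonalTuple 3 m, Bub m β c l =
      ∑ l' ∈ Finset.Nat.antidiagonalTuple 3 m, 32 ^ 3 * TT m c l' *
        ∑ l ∈ Finset.Nat.antidiagonalTuple 3 m,
          ∑ t ∈ Fintype.piFinset (fun _ : Fin 3 => range (m + 2)),
      (if t = 0 then 0 else 2 ^ (t 0 + t 1 + t 2) *
        (1 / 2 : ℝ) ^ ((2 * l 0 + 2 * β * t 0 - 2 * l' 0) + (2 * l 1 + 2 * β * t 1 - 2 * l' 1) +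
          (2 * l 2 + 2 * β * t 2 - 2 * l' 2))) := by
    have h2 : ∀ l : Fin 3 → ℕ, Bub m β c l =
        ∑ l' ∈ Finset.Nat.antidiagonalTuple 3 m,
          ∑ t ∈ Fintype.piFinset (fun _ : Fin 3 => range (m + 2)),
      32 ^ 3 * TT m c l' * (if t = 0 then 0 else 2 ^ (t 0 + t 1 + t 2) *
        (1 / 2 : ℝ) ^ ((2 * l 0 + 2 * β * t 0 - 2 * l' 0) + (2 * l 1 + 2 * β * t 1 - 2 * l' 1) +
          (2 * l 2 + 2 * β * t 2 - 2 * l' 2))) := by
      intro l
      unfold Bub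
      rw [Finset.sum_comm]
      refine Finset.sum_congr rfl (fun t _ => ?_)
      split_ifs with h3
      · simp
      · unfold Dub
        rw [Finset.mul_sum, Finset.mul_sum]
        refine Finset.sum_congr rfl (fun l' _ => ?_)
        ring
    simp_rw [h2]
    rw [Finset.sum_comm]
    refine Finset.sum_congr rfl (fun l' _ => ?_)
    rw [Finset.mul_sum]
    refine Finset.sum_congr rfl (fun l _ => ?_)
    rw [Finset.mul_sum]
  rw [h1, Finset.mul_sum]
  refine Finset.sum_le_sum (fun l' hl' => ?_)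
  have h3 := hnum β m (m + 2) l' hβ hl'
  have h4 : 0 ≤ 32 ^ 3 * TT m c l' := mul_nonneg (by norm_num) (TT_nonneg _ _ _)
  calc 32 ^ 3 * TT m c l' * _ ≤ 32 ^ 3 * TT m c l' * (CN * (1 / 2 : ℝ) ^ (β / 2)) :=
        mul_le_mul_of_nonneg_left h3 h4
    _ = 32 ^ 3 * (CN * (1 / 2 : ℝ) ^ (β / 2)) * TT m c l' := by ring

lemma log_ge_one' (m : ℕ) (hm : 1 ≤ m) : 1 ≤ Real.log (2 * m + 1) := by
  have h1 : (3 : ℝ) ≤ 2 * m + 1 := by
    have : (1 : ℝ) ≤ m := by exact_mod_cast hm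
    linarith
  have h2 : Real.exp 1 ≤ 3 := by
    have := Real.exp_one_lt_d9
    linarith
  calc (1 : ℝ) = Real.log (Real.exp 1) := (Real.log_exp 1).symm
    _ ≤ Real.log (2 * m + 1) := Real.log_le_log (Real.exp_pos 1) (h2.trans h1)

end D76

open D76 in
theorem disc_76 (hmain : StMainH) (hber : StBer3) (hlow : StLow) (hnum : StNum) (htra : StTra)
    (hpar : StPar) : StDisc := by
  obtain ⟨C1, hC1, hmain⟩ := hmain
  obtain ⟨CL, hCL, hlow⟩ := hlow
  obtain ⟨CN, hCN, hnum⟩ := hnum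
  obtain ⟨n, hn⟩ := exists_pow_lt_of_lt_one
    (show (0 : ℝ) < 1 / (2 * (CL * (C1 * (32 ^ 3 * CN)))) by positivity)
    (show (1 / 2 : ℝ) < 1 by norm_num)
  set β : ℕ := 2 * n + 8 with hβ
  have hβ8 : 8 ≤ β := by omega
  have hβ0 : 0 < β := by omega
  have hsm : CL * (C1 * (32 ^ 3 * (CN * (1 / 2 : ℝ) ^ (β / 2)))) ≤ 1 / 2 := by
    have e1 : β / 2 = n + 4 := by omega
    have e2 : (1 / 2 : ℝ) ^ (β / 2) ≤ (1 / 2 : ℝ) ^ n := by
      rw [e1]
      exact pow_le_pow_of_le_one (by norm_num) (by norm_num) (by omega)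
    have e3 : (1 / 2 : ℝ) ^ (β / 2) ≤ 1 / (2 * (CL * (C1 * (32 ^ 3 * CN)))) := e2.trans hn.le
    have e4 : (0 : ℝ) < CL * (C1 * (32 ^ 3 * CN)) := by positivity
    calc CL * (C1 * (32 ^ 3 * (CN * (1 / 2 : ℝ) ^ (β / 2))))
        = (CL * (C1 * (32 ^ 3 * CN))) * (1 / 2 : ℝ) ^ (β / 2) := by ring
      _ ≤ (CL * (C1 * (32 ^ 3 * CN))) * (1 / (2 * (CL * (C1 * (32 ^ 3 * CN))))) :=
          mul_le_mul_of_nonneg_left e3 e4.le
      _ = 1 / 2 := by
          field_simp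
  refine ⟨2 * (CL * ((β : ℝ) ^ 2 * C1) + 2), by positivity, ?_⟩
  intro m c M hm hM
  have hM0 : 0 ≤ M := (abs_nonneg _).trans (hM 0)
  set lam := Real.log (2 * m + 1) with hlam
  have l1 : 1 ≤ lam := log_ge_one' m hm
  set W := Real.sqrt (2 * m) * lam * M * (2 ^ (2 * m + 3)) ^ 3 with hW
  have hWn : 0 ≤ W := by positivity
  set S := ∑ l ∈ Finset.Nat.antidiagonalTuple 3 m, TT m c l with hS
  -- all mixed differences
  have hall : ∑ l ∈ Finset.Nat.antidiagonalTuple 3 m,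
      S1 (D3 (2 * m + 3) (2 * l 0) (2 * l 1) (2 * l 2) (Fm m c)) ≤
        C1 * ∑ l ∈ Finset.Nat.antidiagonalTuple 3 m, Bub m β c l + (β : ℝ) ^ 2 * (C1 * W) := by
    rw [sum_tuple, sum_PP m β hβ0, sum_tuple m (Bub m β c), sum_PP m β hβ0, Finset.mul_sum]
    have hc : (β : ℝ) ^ 2 * (C1 * W) = ∑ _y ∈ range β ×ˢ range β, C1 * W := by
      rw [Finset.sum_const, Finset.card_product, Finset.card_range, nsmul_eq_mul]
      push_cast
      ring
    rw [hc, ← Finset.sum_add_distrib]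
    refine Finset.sum_le_sum ?_
    rintro ⟨y0, z0⟩ hy
    rw [mem_product, mem_range, mem_range] at hy
    by_cases hyz : y0 + z0 ≤ m
    · rw [sum_class m β y0 z0 hβ0 hyz hy.1 hy.2, sum_class m β y0 z0 hβ0 hyz hy.1 hy.2]
      exact class_le C1 hC1 hmain hber htra m β y0 z0 c M hM hM0 hm hβ0 hyz
    · rw [sum_class_empty m β y0 z0 hyz, sum_class_empty m β y0 z0 hyz]
      have : 0 ≤ C1 * W := by positivity
      simpa using this
  have hB := Bub_sum CN β m hβ8 hnum c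
  rw [← hS] at hB
  have hS0 : 0 ≤ S := Finset.sum_nonneg (fun l _ => TT_nonneg _ _ _)
  -- interior blocks
  have hint : ∑ l ∈ (Finset.Nat.antidiagonalTuple 3 m).filter (fun l => ∀ j, 1 ≤ l j),
      TT m c l ≤ 1 / 2 * S + CL * ((β : ℝ) ^ 2 * (C1 * W)) := by
    have h1 : ∑ l ∈ (Finset.Nat.antidiagonalTuple 3 m).filter (fun l => ∀ j, 1 ≤ l j),
        TT m c l ≤ CL * ∑ l ∈ Finset.Nat.antidiagonalTuple 3 m,
          S1 (D3 (2 * m + 3) (2 * l 0) (2 * l 1) (2 * l 2) (Fm m c)) := by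
      rw [Finset.mul_sum]
      refine le_trans (Finset.sum_le_sum (fun l hl => ?_))
        (Finset.sum_le_sum_of_subset_of_nonneg (Finset.filter_subset _ _)
          (fun l _ _ => mul_nonneg hCL.le (S1_nonneg _)))
      rw [mem_filter] at hl
      exact hlow m l c hl.1 hl.2
    have h2 := hall.trans (add_le_add_left (mul_le_mul_of_nonneg_left hB hC1.le) _)
    have h3 := h1.trans (mul_le_mul_of_nonneg_left h2 hCL.le)
    have h4 := mul_le_mul_of_nonneg_right hsm hS0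
    calc _ ≤ _ := h3
      _ = CL * (C1 * (32 ^ 3 * (CN * (1 / 2 : ℝ) ^ (β / 2)))) * S +
          CL * ((β : ℝ) ^ 2 * (C1 * W)) := by ring
      _ ≤ _ := by linarith
  have hbd := boundary hpar m c M hM hM0
  have hsplit := Finset.sum_filter_add_sum_filter_not (Finset.Nat.antidiagonalTuple 3 m)
    (fun l => ∀ j, 1 ≤ l j) (TT m c)
  have hm' : (1 : ℝ) ≤ m := by exact_mod_cast hm
  have hb2 : Real.sqrt (3 * (m + 1)) * (M * (2 ^ (2 * m + 3)) ^ 3) ≤ 2 * W := by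
    have e1 : Real.sqrt (3 * (m + 1)) ≤ 2 * Real.sqrt (2 * m) := by
      have : (2 : ℝ) * Real.sqrt (2 * m) = Real.sqrt (4 * (2 * m)) := by
        rw [Real.sqrt_mul (by norm_num) (2 * (m : ℝ)), show (4 : ℝ) = 2 ^ 2 by norm_num,
          Real.sqrt_sq (by norm_num)]
      rw [this]
      exact Real.sqrt_le_sqrt (by linarith)
    have e3 : Real.sqrt (3 * (m + 1)) ≤ 2 * (Real.sqrt (2 * m) * lam) := by
      have := mul_le_mul_of_nonneg_left l1 (show 0 ≤ 2 * Real.sqrt (2 * m) by positivity)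
      linarith
    have e4 := mul_le_mul_of_nonneg_right e3
      (show (0 : ℝ) ≤ M * (2 ^ (2 * m + 3)) ^ 3 by positivity)
    refine e4.trans (le_of_eq ?_)
    rw [hW]
    ring
  have hfin : S ≤ 2 * (CL * ((β : ℝ) ^ 2 * C1) + 2) * W := by
    have h5 : S ≤ 1 / 2 * S + CL * ((β : ℝ) ^ 2 * (C1 * W)) + 2 * W := by
      calc S = _ := hsplit.symm
        _ ≤ _ := add_le_add hint (hbd.trans hb2)
    have h6 : 2 * (CL * ((β : ℝ) ^ 2 * C1) + 2) * W =
        2 * (CL * ((β : ℝ) ^ 2 * (C1 * W)) + 2 * W) := by ring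
    rw [h6]
    linarith
  calc ∑ l ∈ Finset.Nat.antidiagonalTuple 3 m, S1 (PT (N := 2 ^ (2 * m + 3)) (blk l) c)
      ≤ 2 * (CL * ((β : ℝ) ^ 2 * C1) + 2) * W := hfin
    _ = _ := by
        rw [hW]
        ring

end Pool.Agent.SBT
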