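import Pool.Agent.Lib.MP_a7b2aa_an.SBT.Stmts30

set_option autoImplicit false

namespace Pool.Agent.SBT

open Finset Pool.Agent.SB3

namespace D76

/-- pairs of the last two coordinates -/
def PP (m : ℕ) : Finset (ℕ × ℕ) :=
  (range (m + 1) ×ˢ range (m + 1)).filter (fun x => x.1 + x.2 ≤ m)

lemma sum_tuple (m : ℕ) (f : (Fin 3 → ℕ) → ℝ) :
    ∑ l ∈ Finset.Nat.antidiagonalTuple 3 m, f l =
      ∑ x ∈ PP m, f ![m - x.1 - x.2, x.1, x.2] := by
  refine Finset.sum_bij' (fun l _ => (l 1, l 2)) (fun x _ => ![m - x.1 - x.2, x.1, x.2])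
    ?_ ?_ ?_ ?_ ?_
  · intro l hl
    rw [Finset.Nat.mem_antidiagonalTuple, Fin.sum_univ_three] at hl
    simp only [PP, mem_filter, mem_product, mem_range]
    omega
  · intro x hx
    simp only [PP, mem_filter, mem_product, mem_range] at hx
    rw [Finset.Nat.mem_antidiagonalTuple, Fin.sum_univ_three]
    simp
    omega
  · intro l hl
    rw [Finset.Nat.mem_antidiagonalTuple, Fin.sum_univ_three] at hl
    funext j
    fin_cases j
    · simp
      omega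
    · simp
    · simp
  · intro x hx
    simp
  · intro l hl
    rw [Finset.Nat.mem_antidiagonalTuple, Fin.sum_univ_three] at hl
    congr 1
    funext j
    fin_cases j
    · simp
      omega
    · simp
    · simp

lemma sum_class (m β y0 z0 : ℕ) (hβ : 0 < β) (h : y0 + z0 ≤ m) (hy : y0 < β) (hz : z0 < β)
    (g : ℕ × ℕ → ℝ) :
    ∑ x ∈ (PP m).filter (fun x => (x.1 % β, x.2 % β) = (y0, z0)), g x =
      ∑ p ∈ range ((m - y0 - z0) / β + 1), ∑ q ∈ range ((m - y0 - z0) / β + 1 - p),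
        g (y0 + β * p, z0 + β * q) := by
  rw [Finset.sum_sigma']
  refine Finset.sum_bij' (fun x _ => (⟨x.1 / β, x.2 / β⟩ : Σ _ : ℕ, ℕ))
    (fun s _ => (y0 + β * s.1, z0 + β * s.2)) ?_ ?_ ?_ ?_ ?_
  · intro x hx
    simp only [PP, mem_filter, mem_product, mem_range, Prod.mk.injEq] at hx
    obtain ⟨⟨_, h3⟩, h1, h2⟩ := hx
    have e1 := Nat.mod_add_div x.1 β
    have e2 := Nat.mod_add_div x.2 β
    rw [h1] at e1
    rw [h2] at e2
    have h4 : x.1 / β + x.2 / β ≤ (m - y0 - z0) / β := by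
      rw [Nat.le_div_iff_mul_le hβ]
      have : (x.1 / β + x.2 / β) * β = β * (x.1 / β) + β * (x.2 / β) := by ring
      rw [this]
      omega
    simp only [mem_sigma, mem_range]
    generalize x.1 / β = A at *
    generalize x.2 / β = B at *
    generalize (m - y0 - z0) / β = K at *
    omega
  · intro s hs
    simp only [mem_sigma, mem_range] at hs
    have h4 : s.1 + s.2 ≤ (m - y0 - z0) / β := by omega
    rw [Nat.le_div_iff_mul_le hβ] at h4
    have h5 : (s.1 + s.2) * β = β * s.1 + β * s.2 := by ring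
    rw [h5] at h4
    simp only [PP, mem_filter, mem_product, mem_range, Prod.mk.injEq]
    refine ⟨⟨⟨by omega, by omega⟩, by omega⟩, ?_, ?_⟩
    · rw [Nat.add_mul_mod_self_left, Nat.mod_eq_of_lt hy]
    · rw [Nat.add_mul_mod_self_left, Nat.mod_eq_of_lt hz]
  · intro x hx
    simp only [PP, mem_filter, mem_product, mem_range, Prod.mk.injEq] at hx
    obtain ⟨_, h1, h2⟩ := hx
    have e1 := Nat.mod_add_div x.1 β
    have e2 := Nat.mod_add_div x.2 β
    rw [h1] at e1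
    rw [h2] at e2
    exact Prod.ext e1 e2
  · intro s hs
    have e1 : (y0 + β * s.1) / β = s.1 := by
      rw [Nat.add_mul_div_left _ _ hβ, Nat.div_eq_of_lt hy, zero_add]
    have e2 : (z0 + β * s.2) / β = s.2 := by
      rw [Nat.add_mul_div_left _ _ hβ, Nat.div_eq_of_lt hz, zero_add]
    show (⟨(y0 + β * s.1) / β, (z0 + β * s.2) / β⟩ : Σ _ : ℕ, ℕ) = s
    rw [e1, e2]
  · intro x hx
    simp only [PP, mem_filter, mem_product, mem_range, Prod.mk.injEq] at hx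
    obtain ⟨_, h1, h2⟩ := hx
    have e1 := Nat.mod_add_div x.1 β
    have e2 := Nat.mod_add_div x.2 β
    rw [h1] at e1
    rw [h2] at e2
    show g x = g (y0 + β * (x.1 / β), z0 + β * (x.2 / β))
    rw [e1, e2]

lemma sum_class_empty (m β y0 z0 : ℕ) (h : ¬ y0 + z0 ≤ m) (g : ℕ × ℕ → ℝ) :
    ∑ x ∈ (PP m).filter (fun x => (x.1 % β, x.2 % β) = (y0, z0)), g x = 0 := by
  refine Finset.sum_eq_zero (fun x hx => ?_)
  exfalso
  simp only [PP, mem_filter, mem_product, mem_range, Prod.mk.injEq] at hx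
  obtain ⟨⟨_, h3⟩, h1, h2⟩ := hx
  have e1 := Nat.mod_le x.1 β
  have e2 := Nat.mod_le x.2 β
  omega

lemma sum_PP (m β : ℕ) (hβ : 0 < β) (g : ℕ × ℕ → ℝ) :
    ∑ x ∈ PP m, g x = ∑ y ∈ range β ×ˢ range β,
      ∑ x ∈ (PP m).filter (fun x => (x.1 % β, x.2 % β) = y), g x := by
  rw [Finset.sum_fiberwise_of_maps_to]
  intro x _
  simp only [mem_product, mem_range]
  exact ⟨Nat.mod_lt _ hβ, Nat.mod_lt _ hβ⟩

/-! ### linearity of the differences -/

lemma dT_sum {ι : Type} [DecidableEq ι] {N : ℕ} {τ : Type} (s : Finset τ) (j : ι) (h : ZMod N)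
    (φ : τ → Tor ι N → ℝ) :
    dT j h (fun u => ∑ l ∈ s, φ l u) = fun u => ∑ l ∈ s, dT j h (φ l) u := by
  funext u
  simp only [dT]
  rw [← Finset.sum_sub_distrib, Finset.sum_div]

lemma D3_sum (a X Y' Z : ℕ) {τ : Type} (s : Finset τ) (φ : τ → Tor (Fin 3) (2 ^ a) → ℝ) :
    D3 a X Y' Z (fun u => ∑ l ∈ s, φ l u) = fun u => ∑ l ∈ s, D3 a X Y' Z (φ l) u := by
  unfold D3
  rw [dT_sum, dT_sum, dT_sum]

lemma S1_sum_le {ι : Type} [Fintype ι] [DecidableEq ι] {N : ℕ} [NeZero N] {τ : Type}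
    (s : Finset τ) (φ : τ → Tor ι N → ℝ) :
    S1 (fun u => ∑ l ∈ s, φ l u) ≤ ∑ l ∈ s, S1 (φ l) := by
  unfold S1
  rw [Finset.sum_comm]
  exact Finset.sum_le_sum (fun u _ => Finset.abs_sum_le_sum_abs _ _)

lemma S1_nonneg {ι : Type} [Fintype ι] [DecidableEq ι] {N : ℕ} [NeZero N] (φ : Tor ι N → ℝ) :
    0 ≤ S1 φ := Finset.sum_nonneg (fun _ _ => abs_nonneg _)

/-- the norms of the blocks -/
noncomputable def TT (m : ℕ) (c : (Fin 3 → ℤ) → ℂ) (l : Fin 3 → ℕ) : ℝ :=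
  S1 (PT (N := 2 ^ (2 * m + 3)) (blk l) c)

lemma TT_nonneg (m : ℕ) (c : (Fin 3 → ℤ) → ℂ) (l : Fin 3 → ℕ) : 0 ≤ TT m c l := S1_nonneg _

lemma card_tor (a : ℕ) : (Fintype.card (Tor (Fin 3) (2 ^ a)) : ℝ) = (2 ^ a) ^ 3 := by
  rw [Fintype.card_fun, ZMod.card, Fintype.card_fin]
  push_cast
  ring

/-! ### the boundary blocks -/

lemma card_bd (m : ℕ) :
    ((Finset.Nat.antidiagonalTuple 3 m).filter (fun l => ¬ ∀ j, 1 ≤ l j)).card ≤ 3 * (m + 1) := by
  have h : (Finset.Nat.antidiagonalTuple 3 m).filter (fun l => ¬ ∀ j, 1 ≤ l j) ⊆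
      ((univ : Finset (Fin 3)) ×ˢ range (m + 1)).image (fun x : Fin 3 × ℕ =>
        if x.1 = 0 then ![0, x.2, m - x.2] else if x.1 = 1 then ![x.2, 0, m - x.2]
          else ![x.2, m - x.2, 0]) := by
    intro l hl
    rw [mem_filter, Finset.Nat.mem_antidiagonalTuple, Fin.sum_univ_three] at hl
    obtain ⟨h1, h2⟩ := hl
    push Not at h2
    obtain ⟨j, hj⟩ := h2
    rw [mem_image]
    have hj' : l j = 0 := by omega
    fin_cases j
    · change l 0 = 0 at hj'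
      refine ⟨(0, l 1), by simp; omega, ?_⟩
      funext i
      fin_cases i
      · simp; omega
      · simp
      · simp; omega
    · change l 1 = 0 at hj'
      refine ⟨(1, l 0), by simp; omega, ?_⟩
      funext i
      fin_cases i
      · simp
      · simp; omega
      · simp; omega
    · change l 2 = 0 at hj'
      refine ⟨(2, l 0), by simp; omega, ?_⟩
      funext i
      fin_cases i
      · simp
      · simp; omega
      · simp; omega
  refine (Finset.card_le_card h).trans (Finset.card_image_le.trans ?_)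
  simp

lemma boundary (hpar : StPar) (m : ℕ) (c : (Fin 3 → ℤ) → ℂ) (M : ℝ) (hM : ∀ u, |Fm m c u| ≤ M)
    (hM0 : 0 ≤ M) :
    ∑ l ∈ (Finset.Nat.antidiagonalTuple 3 m).filter (fun l => ¬ ∀ j, 1 ≤ l j), TT m c l ≤
      Real.sqrt (3 * (m + 1)) * (M * (2 ^ (2 * m + 3)) ^ 3) := by
  set Bd := (Finset.Nat.antidiagonalTuple 3 m).filter (fun l => ¬ ∀ j, 1 ≤ l j) with hBd
  have h1 : ∑ l ∈ Bd, TT m c l = ∑ x ∈ Bd ×ˢ (univ : Finset (Tor (Fin 3) (2 ^ (2 * m + 3)))),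
      |PT (blk x.1) c x.2| := by
    rw [Finset.sum_product]
    rfl
  have h2 := sq_sum_le_card_mul_sum_sq (s := Bd ×ˢ (univ : Finset (Tor (Fin 3) (2 ^ (2 * m + 3)))))
    (f := fun x => |PT (blk x.1) c x.2|)
  have h3 : ∑ x ∈ Bd ×ˢ (univ : Finset (Tor (Fin 3) (2 ^ (2 * m + 3)))),
      |PT (blk x.1) c x.2| ^ 2 ≤ (2 ^ (2 * m + 3)) ^ 3 * M ^ 2 := by
    rw [Finset.sum_product]
    have h4 : ∑ l ∈ Bd, ∑ u : Tor (Fin 3) (2 ^ (2 * m + 3)), |PT (blk l) c u| ^ 2 ≤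
        ∑ l ∈ Finset.Nat.antidiagonalTuple 3 m,
          ∑ u : Tor (Fin 3) (2 ^ (2 * m + 3)), |PT (blk l) c u| ^ 2 :=
      Finset.sum_le_sum_of_subset_of_nonneg (Finset.filter_subset _ _)
        (fun _ _ _ => Finset.sum_nonneg (fun _ _ => by positivity))
    have h5 : ∑ l ∈ Finset.Nat.antidiagonalTuple 3 m,
          ∑ u : Tor (Fin 3) (2 ^ (2 * m + 3)), |PT (blk l) c u| ^ 2 = ∑ u, Fm m c u ^ 2 := by
      rw [← hpar m c]
      refine Finset.sum_congr rfl (fun l _ => Finset.sum_congr rfl (fun u _ => ?_))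
      rw [sq_abs]
    refine h4.trans (h5.le.trans ?_)
    calc ∑ u, Fm m c u ^ 2 ≤ ∑ _u : Tor (Fin 3) (2 ^ (2 * m + 3)), M ^ 2 := by
          refine Finset.sum_le_sum (fun u _ => ?_)
          rw [← sq_abs]
          exact pow_le_pow_left₀ (abs_nonneg _) (hM u) 2
      _ = (2 ^ (2 * m + 3)) ^ 3 * M ^ 2 := by
          rw [Finset.sum_const, card_univ, nsmul_eq_mul, card_tor]
  have h6 : ((Bd ×ˢ (univ : Finset (Tor (Fin 3) (2 ^ (2 * m + 3))))).card : ℝ) ≤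
      (3 * (m + 1)) * (2 ^ (2 * m + 3)) ^ 3 := by
    rw [Finset.card_product, card_univ, Nat.cast_mul, card_tor]
    refine mul_le_mul_of_nonneg_right ?_ (by positivity)
    have := card_bd m
    exact_mod_cast this
  rw [h1]
  have h7 : (∑ x ∈ Bd ×ˢ (univ : Finset (Tor (Fin 3) (2 ^ (2 * m + 3)))),
      |PT (blk x.1) c x.2|) ^ 2 ≤ (3 * (m + 1)) * (M * (2 ^ (2 * m + 3)) ^ 3) ^ 2 := by
    refine h2.trans ?_
    calc ((Bd ×ˢ (univ : Finset (Tor (Fin 3) (2 ^ (2 * m + 3))))).card : ℝ) *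
          ∑ x ∈ Bd ×ˢ (univ : Finset (Tor (Fin 3) (2 ^ (2 * m + 3)))), |PT (blk x.1) c x.2| ^ 2
        ≤ ((3 * (m + 1)) * (2 ^ (2 * m + 3)) ^ 3) * ((2 ^ (2 * m + 3)) ^ 3 * M ^ 2) :=
          mul_le_mul h6 h3 (Finset.sum_nonneg (fun _ _ => by positivity)) (by positivity)
      _ = (3 * (m + 1)) * (M * (2 ^ (2 * m + 3)) ^ 3) ^ 2 := by ring
  have h8 : (3 * ((m : ℝ) + 1)) * (M * (2 ^ (2 * m + 3)) ^ 3) ^ 2 =
      (Real.sqrt (3 * (m + 1)) * (M * (2 ^ (2 * m + 3)) ^ 3)) ^ 2 := by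
    rw [mul_pow (Real.sqrt _), Real.sq_sqrt (by positivity)]
  rw [h8] at h7
  exact (le_abs_self _).trans (abs_le_of_sq_le_sq h7 (by positivity))

end D76

end Pool.Agent.SBT
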